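import Mathlib

/-!
# FEW: the learner on lists (definitions only)

Vectors over `ZMod p` are lists. A basis is a list of vectors, the state of the learner is a list of
bases (one for every stage).
-/

set_option autoImplicit false

namespace Few

variable {p : ℕ}

/-- The entries of `b` and of `v` at the first nonzero entry of `b`. -/
def piv : List (ZMod p) → List (ZMod p) → ZMod p × ZMod p
  | [], _ => (0, 0)
  | b :: bs, vs => if b = 0 then piv bs vs.tail else (b, vs.headD 0)

/-- Elimination step. -/
def stp (v b : List (ZMod p)) : List (ZMod p) :=
  List.zipWith (fun vi bi => vi - (piv b v).2 * (piv b v).1⁻¹ * bi) v b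

/-- Reduction of a vector by a basis. -/
def red (B : List (List (ZMod p))) (v : List (ZMod p)) : List (ZMod p) := B.foldl stp v

/-- Test for zero. -/
def isZ (v : List (ZMod p)) : Bool := v.all fun a => decide (a = 0)

/-- Prediction; `b` is the label of the first stage. -/
def cls : List (List (List (ZMod p))) → Bool → List (ZMod p) → Bool
  | [], b, _ => b
  | B :: L, b, v => if isZ (red B v) then cls L (!b) v else b

/-- One example `(v, y)`. -/
def upd : List (List (List (ZMod p))) → Bool → List (ZMod p) → Bool → List (List (List (ZMod p)))
  | [], b, v, y => if b = y then [] else [[v]]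
  | B :: L, b, v, y => if isZ (red B v) then B :: upd L (!b) v y
      else if b = y then B :: L else (B ++ [red B v]) :: L

/-- One pass over the sample. -/
def pass (S : List (List (ZMod p) × Bool)) (L : List (List (List (ZMod p)))) :
    List (List (List (ZMod p))) :=
  S.foldl (fun L a => upd L true a.1 a.2) L

/-- `|S|` passes. -/
def learn (S : List (List (ZMod p) × Bool)) : List (List (List (ZMod p))) :=
  (pass S)^[S.length] []

end Few
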