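import Pool.Agent.Lib.MP_9abc2e_lc.FEW.Pol

/-!
# FEW: the chain of closed sets

`V` = feature map, `Rep V D`: every polynomial function of degree at most `D` is a linear functional of
the features. Labels of the stages: `lab i` = true for even `i`.
-/

set_option autoImplicit false

namespace Few

variable {p n N : ℕ}

def Rep (V : Cube n → Fin N → ZMod p) (D : ℕ) : Prop :=
  ∀ q ∈ Pol p n D, ∃ w : Fin N → ZMod p, ∀ x, q x = ∑ i, w i * V x i

def lab (i : ℕ) : Bool := i % 2 == 0

/-- `X i`: the points which are not classified before the stage `i`. -/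
def X (f : Cube n → Bool) (V : Cube n → Fin N → ZMod p) : ℕ → Set (Cube n)
  | 0 => Set.univ
  | i + 1 => {x | x ∈ X f V i ∧ V x ∈ Submodule.span (ZMod p) (V '' {y | y ∈ X f V i ∧ f y ≠ lab i})}

/-- The subspace of the stage `i`. -/
def Wst (f : Cube n → Bool) (V : Cube n → Fin N → ZMod p) (i : ℕ) : Submodule (ZMod p) (Fin N → ZMod p) :=
  Submodule.span (ZMod p) (V '' {y | y ∈ X f V i ∧ f y ≠ lab i})

/-- If `V x` is in the span of the `V y`, `y ∈ S`, and `q` is a polynomial function of degree at most `D`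
which vanishes on `S`, then `q x = 0`. -/
theorem eq_zero_of_span {V : Cube n → Fin N → ZMod p} {D : ℕ} (hV : Rep V D)
    {q : Cube n → ZMod p} (hq : q ∈ Pol p n D) {S : Set (Cube n)} (h0 : ∀ y ∈ S, q y = 0)
    {x : Cube n} (hx : V x ∈ Submodule.span (ZMod p) (V '' S)) : q x = 0 := by
  obtain ⟨w, hw⟩ := hV q hq
  have key : ∀ u ∈ Submodule.span (ZMod p) (V '' S), ∑ i, w i * u i = 0 := by
    intro u hu
    induction hu using Submodule.span_induction with
    | mem u h =>
      obtain ⟨y, hy, rfl⟩ := h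
      rw [← hw, h0 y hy]
    | zero => simp
    | add u v _ _ h1 h2 =>
      simp only [Pi.add_apply, mul_add, Finset.sum_add_distrib, h1, h2, add_zero]
    | smul c u _ h1 =>
      have e : ∑ i, w i * (c • u) i = c * ∑ i, w i * u i := by
        rw [Finset.mul_sum]
        refine Finset.sum_congr rfl fun i _ => ?_
        rw [Pi.smul_apply, smul_eq_mul]
        ring
      rw [e, h1, mul_zero]
  rw [hw x]
  exact key _ hx

/-- `X (2 j) ⊆ {ρ ≥ j}` and `X (2 j + 1) ⊆ {ρ ≥ j, (ρ = j → f = false)}`, by induction on `j`. -/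
theorem chain_empty [Fact p.Prime] {f : Cube n → Bool} {V : Cube n → Fin N → ZMod p} {A B D M : ℕ}
    (hV : Rep V D) (hAB : A + B ≤ D) {ρ : Cube n → ℕ} (hρ : ∀ x, ρ x < M)
    (hK : ∀ x, ∃ r F : Cube n → ZMod p, r ∈ Pol p n A ∧ F ∈ Pol p n B ∧ r x ≠ 0 ∧
      (∀ y, ρ x < ρ y → r y = 0) ∧ ∀ y, ρ y = ρ x → F y = bz p (f y)) :
    X f V (2 * M) = ∅ := by
  have key : ∀ j, X f V (2 * j) ⊆ {x | j ≤ ρ x} := by
    intro j
    induction j with
    | zero => exact fun x _ => Nat.zero_le _
    | succ j ih =>
      have hodd : ∀ x ∈ X f V (2 * j + 1), j ≤ ρ x ∧ (ρ x = j → f x = false) := by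
        rintro x ⟨hx, hxs⟩
        refine ⟨ih hx, fun hxj => ?_⟩
        by_contra hfx
        obtain ⟨r, F, hr, hF, hrx, hr0, hF0⟩ := hK x
        have hq := Pol.le hAB (Pol.mul hr hF)
        have h1 := eq_zero_of_span hV hq (S := {y | y ∈ X f V (2 * j) ∧ f y ≠ lab (2 * j)}) (by
          rintro y ⟨hy, hfy⟩
          have hl : lab (2 * j) = true := by simp [lab]
          rw [hl, ne_eq, Bool.not_eq_true] at hfy
          have h2 : j ≤ ρ y := ih hy
          rcases h2.eq_or_lt with h3 | h3
          · rw [hF0 y (by omega), hfy]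
            simp [bz]
          · rw [hr0 y (by omega), zero_mul]) hxs
        have h2 : f x = true := by simpa using hfx
        rw [hF0 x rfl, h2] at h1
        simp only [bz, if_true, mul_one] at h1
        exact hrx h1
      rintro x ⟨hx, hxs⟩
      obtain ⟨h1, -⟩ := hodd x hx
      show j + 1 ≤ ρ x
      rcases h1.eq_or_lt with h2 | h2
      · exfalso
        obtain ⟨r, F, hr, hF, hrx, hr0, hF0⟩ := hK x
        have hq := Pol.le (show A ≤ D by omega) hr
        refine hrx (eq_zero_of_span hV hq
          (S := {y | y ∈ X f V (2 * j + 1) ∧ f y ≠ lab (2 * j + 1)}) ?_ hxs)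
        rintro y ⟨hy, hfy⟩
        have hl : lab (2 * j + 1) = false := by
          unfold lab
          have : (2 * j + 1) % 2 = 1 := by omega
          rw [this]
          rfl
        rw [hl] at hfy
        obtain ⟨h3, h4⟩ := hodd y hy
        refine hr0 y ?_
        rcases h3.eq_or_lt with h5 | h5
        · exact absurd (h4 h5.symm) hfy
        · omega
      · exact h2
  rw [Set.eq_empty_iff_forall_notMem]
  intro x hx
  have h1 : M ≤ ρ x := key M hx
  have h2 := hρ x
  omega

end Few
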