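import Mathlib

/-!
# MP_9abc2e_lc, project FEW: circuits with MOD_p gates and few wide AND/OR gates

Definitions used in the statement (helper35).
-/

set_option autoImplicit false

namespace Few

/-- Inputs of length `n`. -/
abbrev Cube (n : ℕ) := Fin n → Bool

/-- An input of a gate: a literal (`x j` for `b = true`, the negation of `x j` for `b = false`) or
the output of the gate number `i`. -/
inductive Src (n : ℕ)
  | lit (j : Fin n) (b : Bool)
  | gate (i : ℕ)

/-- The types of gates: AND, OR, NOT, `MOD_p`, and local gates, which compute an arbitrary Boolean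
function `g` of their inputs (their fan-in is bounded by `Circ.LocLe`). -/
inductive Kind
  | and
  | or
  | not
  | mod
  | loc (g : List Bool → Bool)

/-- A circuit on `n` variables: the gates have the numbers `0, .., size - 1`, the inputs of a gate
are literals and outputs of gates with smaller numbers. -/
structure Circ (n : ℕ) where
  size : ℕ
  kind : ℕ → Kind
  inp : ℕ → List (Src n)
  out : ℕ
  out_lt : out < size
  acyc : ∀ i < size, ∀ j, Src.gate j ∈ inp i → j < i
  unary : ∀ i < size, kind i = Kind.not → (inp i).length = 1

variable {n : ℕ}

/-- Value of an input, when the input string is `x` and the gates have the values `v`. -/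
def Src.val (x : Cube n) (v : ℕ → Bool) : Src n → Bool
  | Src.lit j b => x j == b
  | Src.gate i => v i

/-- The output of a gate whose inputs have the values `l`. -/
def Kind.eval (p : ℕ) : Kind → List Bool → Bool
  | Kind.and, l => l.all fun a => a
  | Kind.or, l => l.any fun a => a
  | Kind.not, l => l.all fun a => !a
  | Kind.mod, l => decide (¬ p ∣ l.count true)
  | Kind.loc g, l => g l

/-- `v` are the values of the gates of `C` on the input string `x`. -/
def Circ.IsVal (p : ℕ) (C : Circ n) (x : Cube n) (v : ℕ → Bool) : Prop :=
  ∀ i < C.size, v i = (C.kind i).eval p ((C.inp i).map (Src.val x v))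

/-- Depth at most `d`: the gates have levels `1, .., d` which increase along the wires. -/
def Circ.DepthLe (C : Circ n) (d : ℕ) : Prop :=
  ∃ l : ℕ → ℕ, ∀ i < C.size, 1 ≤ l i ∧ l i ≤ d ∧ ∀ j, Src.gate j ∈ C.inp i → l j < l i

/-- The local gates have fan-in at most `k`. -/
def Circ.LocLe (C : Circ n) (k : ℕ) : Prop :=
  ∀ i < C.size, ∀ g : List Bool → Bool, C.kind i = Kind.loc g → (C.inp i).length ≤ k

open scoped Classical in
/-- The AND and OR gates of fan-in larger than `k`. -/
noncomputable def Circ.wide (C : Circ n) (k : ℕ) : Finset ℕ :=
  (Finset.range C.size).filter fun i =>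
    (C.kind i = Kind.and ∨ C.kind i = Kind.or) ∧ k < (C.inp i).length

/-- The functions computed by circuits of depth at most `d` with at most `t` AND, OR gates of fan-in
larger than `k`; the other gates are `MOD_p` gates (any number, any fan-in), NOT gates, and AND gates,
OR gates and arbitrary gates of fan-in at most `k` (any number). -/
def FewWide (p n d k t : ℕ) : Set (Cube n → Bool) :=
  {f | ∃ C : Circ n, C.DepthLe d ∧ C.LocLe k ∧ (C.wide k).card ≤ t ∧
    ∀ x, ∃ v, C.IsVal p x v ∧ v C.out = f x}

end Few
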