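import Pool.Agent.Lib.MP_9abc2e_lc.FEW.Elim
import Pool.Agent.Lib.MP_9abc2e_lc.FEW.Chain

/-!
# FEW: the learner is consistent and its hypothesis is given by `T` subspaces

`φ : Cube n → List (ZMod p)` = the features as a list of length `N`, `V x = vec N (φ x)`. Assume
`X f V T = ∅` and `V x ≠ 0`.

Invariant `Inv`: the state `L` has length at most `T`, the basis number `i` is an echelon basis with span
inside `Wst f V i`. `upd` on a correct example keeps the invariant; it changes the state only if the
prediction is wrong, and then the total number of basis vectors grows by one. This number is at most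
`N * T`, so after more than `N * T` passes one pass has made no change, and the state is consistent.
-/

set_option autoImplicit false

namespace Few

variable {p n N T : ℕ}

/-- The hypothesis given by `T` subspaces: the label of the first stage `i < T` with `V x ∉ W i`. -/
noncomputable def hypW (V : Cube n → Fin N → ZMod p) (W : ℕ → Submodule (ZMod p) (Fin N → ZMod p)) :
    ℕ → ℕ → Cube n → Bool
  | 0, i, _ => lab i
  | k + 1, i, x => by
      classical
      exact if V x ∈ W i then hypW V W k (i + 1) x else lab i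

theorem lab_succ (i : ℕ) : lab (i + 1) = !lab i := by
  unfold lab
  rcases Nat.mod_two_eq_zero_or_one i with h | h
  · have h1 : (i + 1) % 2 = 1 := by omega
    rw [h, h1]
    rfl
  · have h1 : (i + 1) % 2 = 0 := by omega
    rw [h, h1]
    rfl

/-- The invariant of the bases from the stage `i` on. -/
def Inv (f : Cube n → Bool) (V : Cube n → Fin N → ZMod p) (T : ℕ) :
    ℕ → List (List (List (ZMod p))) → Prop
  | i, [] => i ≤ T
  | i, B :: L => Ech N B ∧ spn N B ≤ Wst f V i ∧ Inv f V T (i + 1) L

/-- The total number of basis vectors. -/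
def cnt : List (List (List (ZMod p))) → ℕ
  | [] => 0
  | B :: L => B.length + cnt L

theorem Inv.le {f : Cube n → Bool} {V : Cube n → Fin N → ZMod p} :
    ∀ {L : List (List (List (ZMod p)))} {i : ℕ}, Inv f V T i L → i + L.length ≤ T
  | [], _, h => h
  | _ :: _, _, h => by
    have := Inv.le h.2.2
    rw [List.length_cons]
    omega

theorem Inv.cnt_le [Fact p.Prime] {f : Cube n → Bool} {V : Cube n → Fin N → ZMod p} :
    ∀ {L : List (List (List (ZMod p)))} {i : ℕ}, Inv f V T i L → cnt L ≤ N * L.length
  | [], _, _ => Nat.zero_le _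
  | B :: L, _, h => by
    have h1 := Inv.cnt_le h.2.2
    have h2 := ech_length h.1
    rw [cnt, List.length_cons, Nat.mul_succ]
    omega

/-- One correct example keeps the invariant. -/
theorem Inv.upd [Fact p.Prime] {f : Cube n → Bool} {φ : Cube n → List (ZMod p)}
    (hφ : ∀ x, (φ x).length = N) (hφ0 : ∀ x, isZ (φ x) = false)
    (hX : X f (fun x => vec N (φ x)) T = ∅) (x : Cube n) :
    ∀ {L : List (List (List (ZMod p)))} {i : ℕ}, Inv f (fun x => vec N (φ x)) T i L →
      x ∈ X f (fun x => vec N (φ x)) i →
      Inv f (fun x => vec N (φ x)) T i (Few.upd L (lab i) (φ x) (f x))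
  | [], i, h, hx => by
    rw [Few.upd]
    by_cases hl : lab i = f x
    · rw [if_pos hl]
      exact h
    · rw [if_neg hl]
      refine ⟨⟨fun b hb => ?_, List.pairwise_singleton _ _⟩, ?_, ?_⟩
      · rw [List.mem_singleton.1 hb]
        exact ⟨hφ x, hφ0 x⟩
      · rw [spn, Submodule.span_le]
        rintro w ⟨b, hb, rfl⟩
        rw [List.mem_singleton.1 hb]
        exact Submodule.subset_span ⟨x, ⟨hx, Ne.symm hl⟩, rfl⟩
      · have h1 : i ≠ T := by
          rintro rfl
          rw [hX] at hx
          exact hx
        have h2 : i ≤ T := h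
        show i + 1 ≤ T
        omega
  | B :: L, i, h, hx => by
    rw [Few.upd]
    by_cases hz : isZ (red B (φ x)) = true
    · rw [if_pos hz]
      refine ⟨h.1, h.2.1, ?_⟩
      rw [← lab_succ]
      exact Inv.upd hφ hφ0 hX x h.2.2 ⟨hx, h.2.1 ((red_zero_iff h.1 (hφ x)).1 hz)⟩
    · rw [if_neg hz]
      by_cases hl : lab i = f x
      · rw [if_pos hl]
        exact h
      · rw [if_neg hl]
        have hz' : isZ (red B (φ x)) = false := by simpa using hz
        refine ⟨ech_snoc h.1 (hφ x) hz', ?_, h.2.2⟩
        rw [spn_snoc h.1 (hφ x)]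
        refine sup_le h.2.1 ((Submodule.span_singleton_le_iff_mem _ _).2 ?_)
        exact Submodule.subset_span ⟨x, ⟨hx, Ne.symm hl⟩, rfl⟩

/-- A correct prediction changes nothing, a wrong one adds one basis vector. -/
theorem upd_cnt (v : List (ZMod p)) (y : Bool) :
    ∀ (L : List (List (List (ZMod p)))) (b : Bool),
      (cls L b v = y ∧ upd L b v y = L) ∨ cnt (upd L b v y) = cnt L + 1
  | [], b => by
    by_cases h : b = y
    · left
      exact ⟨h, by rw [upd, if_pos h]⟩
    · right
      rw [upd, if_neg h]
      rfl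
  | B :: L, b => by
    by_cases hz : isZ (red B v) = true
    · rw [upd, if_pos hz, cls, if_pos hz]
      rcases upd_cnt v y L (!b) with h | h
      · left
        exact ⟨h.1, by rw [h.2]⟩
      · right
        rw [cnt, h, cnt]
        rfl
    · rw [upd, if_neg hz, cls, if_neg hz]
      by_cases h : b = y
      · left
        exact ⟨h, by rw [if_pos h]⟩
      · right
        rw [if_neg h, cnt, cnt, List.length_append, List.length_singleton]
        omega

/-- A pass changes nothing and all predictions are correct, or the number of vectors grows. -/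
theorem pass_cnt : ∀ (S : List (List (ZMod p) × Bool)) (L : List (List (List (ZMod p)))),
    (pass S L = L ∧ ∀ a ∈ S, cls L true a.1 = a.2) ∨ cnt L + 1 ≤ cnt (pass S L)
  | [], L => Or.inl ⟨rfl, by simp⟩
  | a :: S, L => by
    have e : pass (a :: S) L = pass S (upd L true a.1 a.2) := rfl
    rw [e]
    rcases upd_cnt a.1 a.2 L true with h | h
    · rw [h.2]
      rcases pass_cnt S L with h1 | h1
      · left
        refine ⟨h1.1, fun c hc => ?_⟩
        rcases List.mem_cons.1 hc with rfl | hc
        · exact h.1
        · exact h1.2 c hc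
      · exact Or.inr h1
    · right
      rcases pass_cnt S (upd L true a.1 a.2) with h1 | h1
      · rw [h1.1, h]
      · omega

theorem Inv.pass [Fact p.Prime] {f : Cube n → Bool} {φ : Cube n → List (ZMod p)}
    (hφ : ∀ x, (φ x).length = N) (hφ0 : ∀ x, isZ (φ x) = false)
    (hX : X f (fun x => vec N (φ x)) T = ∅) :
    ∀ (S : List (Cube n)) {L : List (List (List (ZMod p)))},
      Inv f (fun x => vec N (φ x)) T 0 L →
      Inv f (fun x => vec N (φ x)) T 0 (Few.pass (S.map fun x => (φ x, f x)) L)
  | [], _, h => h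
  | x :: S, L, h => by
    have h1 : Inv f (fun x => vec N (φ x)) T 0 (Few.upd L (lab 0) (φ x) (f x)) :=
      Inv.upd hφ hφ0 hX x h (Set.mem_univ x)
    exact Inv.pass hφ hφ0 hX S h1

theorem inv_iter [Fact p.Prime] {f : Cube n → Bool} {φ : Cube n → List (ZMod p)}
    (hφ : ∀ x, (φ x).length = N) (hφ0 : ∀ x, isZ (φ x) = false)
    (hX : X f (fun x => vec N (φ x)) T = ∅) (S : List (Cube n)) (m : ℕ) :
    Inv f (fun x => vec N (φ x)) T 0 ((pass (S.map fun x => (φ x, f x)))^[m] []) := by
  induction m with
  | zero => exact Nat.zero_le _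
  | succ m ih =>
    rw [Function.iterate_succ_apply']
    exact Inv.pass hφ hφ0 hX S ih

theorem iter_cnt (S : List (List (ZMod p) × Bool)) (m : ℕ) :
    pass S ((pass S)^[m] []) = (pass S)^[m] [] ∨ m ≤ cnt ((pass S)^[m] []) := by
  induction m with
  | zero => exact Or.inr (Nat.zero_le _)
  | succ m ih =>
    rw [Function.iterate_succ_apply']
    rcases pass_cnt S ((pass S)^[m] []) with h | h
    · left
      rw [h.1, h.1]
    · rcases ih with h1 | h1
      · left
        rw [h1, h1]
      · right
        omega

theorem learn_cons [Fact p.Prime] {f : Cube n → Bool} {φ : Cube n → List (ZMod p)}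
    (hφ : ∀ x, (φ x).length = N) (hφ0 : ∀ x, isZ (φ x) = false)
    (hX : X f (fun x => vec N (φ x)) T = ∅) (S : List (Cube n)) (hS : N * T < S.length)
    (x : Cube n) (hx : x ∈ S) :
    cls (learn (S.map fun x => (φ x, f x))) true (φ x) = f x := by
  have h1 := inv_iter hφ hφ0 hX S S.length
  have h2 := iter_cnt (S.map fun x => (φ x, f x)) S.length
  have h3 := h1.cnt_le
  have h4 := h1.le
  rw [learn, List.length_map]
  rcases h2 with h2 | h2
  · rcases pass_cnt (S.map fun x => (φ x, f x))
      ((pass (S.map fun x => (φ x, f x)))^[S.length] []) with h5 | h5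
    · exact h5.2 (φ x, f x) (List.mem_map.2 ⟨x, hx, rfl⟩)
    · rw [h2] at h5
      omega
  · exfalso
    rw [Nat.zero_add] at h4
    have h5 := Nat.mul_le_mul_left N h4
    omega

theorem cls_hypW [Fact p.Prime] {f : Cube n → Bool} {φ : Cube n → List (ZMod p)}
    (hφ : ∀ x, (φ x).length = N) (hφ0 : ∀ x, isZ (φ x) = false)
    {W : ℕ → Submodule (ZMod p) (Fin N → ZMod p)} (x : Cube n) :
    ∀ (L : List (List (List (ZMod p)))) (i k : ℕ), Inv f (fun x => vec N (φ x)) T i L →
      L.length ≤ k → (∀ j, W (i + j) = spn N (L.getD j [])) →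
      cls L (lab i) (φ x) = hypW (fun x => vec N (φ x)) W k i x
  | [], i, 0, _, _, _ => rfl
  | [], i, k + 1, _, _, hW => by
    have h0 := hW 0
    rw [Nat.add_zero] at h0
    have h1 : vec N (φ x) ∉ W i := by
      rw [h0]
      intro h
      have h2 : vec N (φ x) = 0 := by simpa [spn] using h
      rw [← isZ_iff (hφ x), hφ0 x] at h2
      exact absurd h2 (by simp)
    rw [hypW, if_neg h1]
    rfl
  | B :: L, i, 0, _, hk, _ => by simp at hk
  | B :: L, i, k + 1, h, hk, hW => by
    have h0 := hW 0
    rw [Nat.add_zero, List.getD_cons_zero] at h0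
    have h1 := red_zero_iff h.1 (hφ x)
    rw [← h0] at h1
    rw [hypW, cls]
    by_cases hz : isZ (red B (φ x)) = true
    · rw [if_pos hz, if_pos (h1.1 hz), ← lab_succ]
      refine cls_hypW hφ hφ0 x L (i + 1) k h.2.2 (by simpa using hk) fun j => ?_
      have h2 := hW (j + 1)
      rw [List.getD_cons_succ] at h2
      rw [← h2]
      congr 1
      omega
    · rw [if_neg hz, if_neg fun h2 => hz (h1.2 h2)]

theorem learn_hyp [Fact p.Prime] {f : Cube n → Bool} {φ : Cube n → List (ZMod p)}
    (hφ : ∀ x, (φ x).length = N) (hφ0 : ∀ x, isZ (φ x) = false)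
    (hX : X f (fun x => vec N (φ x)) T = ∅) (S : List (Cube n)) :
    ∃ W : ℕ → Submodule (ZMod p) (Fin N → ZMod p),
      ∀ x, cls (learn (S.map fun x => (φ x, f x))) true (φ x) = hypW (fun x => vec N (φ x)) W T 0 x := by
  have h1 := inv_iter hφ hφ0 hX S (S.map fun x => (φ x, f x)).length
  refine ⟨fun j => spn N ((learn (S.map fun x => (φ x, f x))).getD j []), fun x => ?_⟩
  have h2 := h1.le
  rw [Nat.zero_add] at h2
  exact cls_hypW hφ hφ0 x _ 0 T h1 h2 fun j => by rw [Nat.zero_add]

end Few
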