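import Pool.Agent.Lib.MP_9abc2e_lc.FEW.Alg

/-!
# FEW: Gaussian elimination on lists
-/

set_option autoImplicit false

namespace Few

variable {p N : ℕ}

/-- A list as a vector. -/
def vec (N : ℕ) (l : List (ZMod p)) : Fin N → ZMod p := fun i => l.getD i 0

/-- Span of a basis. -/
def spn (N : ℕ) (B : List (List (ZMod p))) : Submodule (ZMod p) (Fin N → ZMod p) :=
  Submodule.span (ZMod p) {w | ∃ b ∈ B, w = vec N b}

/-- Echelon property: nonzero vectors of length `N`, every later vector is zero at the pivot of every
earlier one (`(piv b c).2 = 0`). -/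
def Ech (N : ℕ) (B : List (List (ZMod p))) : Prop :=
  (∀ b ∈ B, b.length = N ∧ isZ b = false) ∧ B.Pairwise fun b c => (piv b c).2 = 0

/-- Index of the first nonzero entry. -/
def pix : List (ZMod p) → ℕ
  | [] => 0
  | b :: bs => if b = 0 then pix bs + 1 else 0

theorem pix_spec : ∀ b : List (ZMod p), isZ b = false → pix b < b.length ∧
    b.getD (pix b) 0 ≠ 0 ∧ ∀ v : List (ZMod p), piv b v = (b.getD (pix b) 0, v.getD (pix b) 0)
  | [], h => by simp [isZ] at h
  | b :: bs, h => by
    by_cases hb : b = 0
    · have h1 : isZ bs = false := by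
        simpa [isZ, hb] using h
      obtain ⟨h2, h3, h4⟩ := pix_spec bs h1
      have e : pix (b :: bs) = pix bs + 1 := by simp [pix, hb]
      rw [e]
      refine ⟨by simpa using h2, by simpa using h3, fun v => ?_⟩
      rw [piv, if_pos hb, h4]
      cases v <;> simp
    · have e : pix (b :: bs) = 0 := by simp [pix, hb]
      rw [e]
      refine ⟨by simp, by simpa using hb, fun v => ?_⟩
      rw [piv, if_neg hb]
      cases v <;> simp

theorem isZ_iff {v : List (ZMod p)} (h : v.length = N) : isZ v = true ↔ vec N v = 0 := by
  unfold isZ vec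
  rw [List.all_eq_true]
  constructor
  · intro h1
    funext i
    have hi : (i : ℕ) < v.length := by rw [h]; exact i.2
    have := h1 (v[(i : ℕ)]) (List.getElem_mem hi)
    rw [List.getD_eq_getElem _ _ hi]
    simpa using this
  · intro h1 x hx
    obtain ⟨i, hi, rfl⟩ := List.mem_iff_getElem.1 hx
    have h2 := congrFun h1 ⟨i, by rw [← h]; exact hi⟩
    rw [List.getD_eq_getElem _ _ hi] at h2
    simpa using h2

theorem stp_length {v b : List (ZMod p)} (hb : b.length = N) (hv : v.length = N) :
    (stp v b).length = N := by
  rw [stp, List.length_zipWith, hb, hv, min_self]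

theorem stp_vec {v b : List (ZMod p)} (hb : b.length = N) (hv : v.length = N) :
    vec N (stp v b) = vec N v - ((piv b v).2 * (piv b v).1⁻¹) • vec N b := by
  funext i
  have h1 : (i : ℕ) < (stp v b).length := by rw [stp_length hb hv]; exact i.2
  have h2 : (i : ℕ) < v.length := by rw [hv]; exact i.2
  have h3 : (i : ℕ) < b.length := by rw [hb]; exact i.2
  simp only [vec, Pi.sub_apply, Pi.smul_apply, smul_eq_mul]
  rw [List.getD_eq_getElem _ _ h1, List.getD_eq_getElem _ _ h2, List.getD_eq_getElem _ _ h3]
  simp only [stp, List.getElem_zipWith]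

theorem red_length {B : List (List (ZMod p))} {v : List (ZMod p)} (hB : ∀ b ∈ B, b.length = N)
    (hv : v.length = N) : (red B v).length = N := by
  induction B generalizing v with
  | nil => exact hv
  | cons b B ih =>
    exact ih (fun c hc => hB c (List.mem_cons_of_mem _ hc))
      (stp_length (hB b List.mem_cons_self) hv)

theorem Ech.tail {b : List (ZMod p)} {B : List (List (ZMod p))} (h : Ech N (b :: B)) : Ech N B :=
  ⟨fun c hc => h.1 c (List.mem_cons_of_mem _ hc), (List.pairwise_cons.1 h.2).2⟩

theorem Ech.len {B : List (List (ZMod p))} (h : Ech N B) : ∀ b ∈ B, b.length = N :=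
  fun b hb => (h.1 b hb).1

theorem spn_cons (b : List (ZMod p)) (B : List (List (ZMod p))) :
    spn N (b :: B) = Submodule.span (ZMod p) {vec N b} ⊔ spn N B := by
  rw [spn, spn, ← Submodule.span_union]
  congr 1
  ext w
  simp

theorem spn_append (b : List (ZMod p)) (B : List (List (ZMod p))) :
    spn N (B ++ [b]) = spn N B ⊔ Submodule.span (ZMod p) {vec N b} := by
  rw [spn, spn, ← Submodule.span_union]
  congr 1
  ext w
  simp [or_and_right, exists_or, or_comm]

/-- `red B v - v` is in the span. -/
theorem red_sub [Fact p.Prime] {B : List (List (ZMod p))} {v : List (ZMod p)} (hB : Ech N B)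
    (hv : v.length = N) : vec N (red B v) - vec N v ∈ spn N B := by
  induction B generalizing v with
  | nil =>
    rw [red, List.foldl_nil, sub_self]
    exact Submodule.zero_mem _
  | cons b B ih =>
    have hb := hB.len b List.mem_cons_self
    have h1 := ih hB.tail (stp_length hb hv)
    have h2 : vec N (stp v b) - vec N v ∈ Submodule.span (ZMod p) {vec N b} := by
      rw [stp_vec hb hv, sub_sub_cancel_left]
      exact Submodule.neg_mem _ (Submodule.smul_mem _ _ (Submodule.mem_span_singleton_self _))
    rw [spn_cons]
    have h3 := Submodule.add_mem _ (Submodule.mem_sup_right (S := Submodule.span (ZMod p)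
      {vec N b}) h1) (Submodule.mem_sup_left h2)
    rwa [sub_add_sub_cancel] at h3

/-- The later elimination steps do not change the entry at a pivot. -/
theorem red_piv {B : List (List (ZMod p))} {v b : List (ZMod p)} (hb : isZ b = false)
    (hbl : b.length = N) (hB : ∀ c ∈ B, c.length = N) (hv : v.length = N)
    (h0 : ∀ c ∈ B, (piv b c).2 = 0) (h : (piv b v).2 = 0) : (piv b (red B v)).2 = 0 := by
  obtain ⟨hp, -, hq⟩ := pix_spec b hb
  induction B generalizing v with
  | nil => exact h
  | cons c B ih =>
    have hc := hB c List.mem_cons_self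
    refine ih (fun c hc => hB c (List.mem_cons_of_mem _ hc)) (stp_length hc hv)
      (fun c hc => h0 c (List.mem_cons_of_mem _ hc)) ?_
    have h1 := congrFun (stp_vec hc hv) ⟨pix b, hbl ▸ hp⟩
    have h2 := h0 c List.mem_cons_self
    rw [hq] at h h2
    rw [hq]
    simp only [vec, Pi.sub_apply, Pi.smul_apply, smul_eq_mul] at h1 h h2
    rw [h1, h, h2, mul_zero, sub_zero]

theorem stp_piv [Fact p.Prime] {v b : List (ZMod p)} (hb : isZ b = false)
    (hbl : b.length = N) (hv : v.length = N) : (piv b (stp v b)).2 = 0 := by
  obtain ⟨hp, hn, hq⟩ := pix_spec b hb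
  have h1 := congrFun (stp_vec hbl hv) ⟨pix b, hbl ▸ hp⟩
  rw [hq v] at h1
  rw [hq]
  simp only [vec, Pi.sub_apply, Pi.smul_apply, smul_eq_mul] at h1
  rw [h1, mul_assoc, inv_mul_cancel₀ hn, mul_one, sub_self]

/-- The reduced vector is zero at all pivots. -/
theorem red_piv_all [Fact p.Prime] {B : List (List (ZMod p))} {v : List (ZMod p)}
    (hB : Ech N B) (hv : v.length = N) : ∀ b ∈ B, (piv b (red B v)).2 = 0 := by
  induction B generalizing v with
  | nil => simp
  | cons b B ih =>
    intro c hc
    have hb := hB.1 b List.mem_cons_self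
    rcases List.mem_cons.1 hc with rfl | hc
    · change (piv c (red B (stp v c))).2 = 0
      exact red_piv hb.2 hb.1 hB.tail.len (stp_length hb.1 hv) (List.pairwise_cons.1 hB.2).1
        (stp_piv hb.2 hb.1 hv)
    · exact ih hB.tail (stp_length hb.1 hv) c hc

/-- The vectors of the span of the later ones are zero at the first pivot. -/
theorem spn_piv {b : List (ZMod p)} {B : List (List (ZMod p))} (hB : Ech N (b :: B))
    (hp : pix b < N) {w : Fin N → ZMod p} (hw : w ∈ spn N B) : w ⟨pix b, hp⟩ = 0 := by
  obtain ⟨-, -, hq⟩ := pix_spec b (hB.1 b List.mem_cons_self).2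
  have h1 : spn N B ≤ LinearMap.ker (LinearMap.proj ⟨pix b, hp⟩ :
      (Fin N → ZMod p) →ₗ[ZMod p] ZMod p) := by
    rw [spn, Submodule.span_le]
    rintro w ⟨c, hc, rfl⟩
    have h2 := (List.pairwise_cons.1 hB.2).1 c hc
    rw [hq] at h2
    exact h2
  exact h1 hw

/-- A vector of the span which is zero at all pivots is zero. -/
theorem spn_zero [Fact p.Prime] {B : List (List (ZMod p))} (hB : Ech N B) {w : Fin N → ZMod p}
    (hw : w ∈ spn N B) (h : ∀ b ∈ B, ∀ hp : pix b < N, w ⟨pix b, hp⟩ = 0) : w = 0 := by
  induction B generalizing w with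
  | nil =>
    simpa [spn] using hw
  | cons b B ih =>
    rw [spn_cons] at hw
    obtain ⟨y, hy, z, hz, rfl⟩ := Submodule.mem_sup.1 hw
    obtain ⟨a, rfl⟩ := Submodule.mem_span_singleton.1 hy
    have hb := hB.1 b List.mem_cons_self
    obtain ⟨hp, hn, -⟩ := pix_spec b hb.2
    rw [hb.1] at hp
    have h1 := h b List.mem_cons_self hp
    rw [Pi.add_apply, spn_piv hB hp hz, add_zero, Pi.smul_apply, smul_eq_mul] at h1
    have ha : a = 0 := (mul_eq_zero.1 h1).resolve_right hn
    rw [ha, zero_smul, zero_add] at h ⊢
    exact ih hB.tail hz fun c hc => h c (List.mem_cons_of_mem _ hc)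

/-- The reduced vector is zero at all pivots, so it is zero if it is in the span. -/
theorem red_zero_iff [Fact p.Prime] {B : List (List (ZMod p))} {v : List (ZMod p)} (hB : Ech N B)
    (hv : v.length = N) : isZ (red B v) = true ↔ vec N v ∈ spn N B := by
  have h0 := red_sub hB hv
  rw [isZ_iff (red_length hB.len hv)]
  constructor
  · intro h
    rw [h, zero_sub] at h0
    exact (Submodule.neg_mem_iff _).1 h0
  · intro h
    have h1 := Submodule.add_mem _ h0 h
    rw [sub_add_cancel] at h1
    refine spn_zero hB h1 fun b hb hp => ?_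
    have h2 := red_piv_all hB hv b hb
    rw [(pix_spec b (hB.1 b hb).2).2.2] at h2
    exact h2

/-- Adding a reduced nonzero vector. -/
theorem ech_snoc [Fact p.Prime] {B : List (List (ZMod p))} {v : List (ZMod p)} (hB : Ech N B)
    (hv : v.length = N) (h : isZ (red B v) = false) : Ech N (B ++ [red B v]) := by
  constructor
  · intro b hb
    rcases List.mem_append.1 hb with hb | hb
    · exact hB.1 b hb
    · rw [List.mem_singleton.1 hb]
      exact ⟨red_length hB.len hv, h⟩
  · refine List.pairwise_append.2 ⟨hB.2, List.pairwise_singleton _ _, fun b hb c hc => ?_⟩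
    rw [List.mem_singleton.1 hc]
    exact red_piv_all hB hv b hb

theorem spn_snoc [Fact p.Prime] {B : List (List (ZMod p))} {v : List (ZMod p)} (hB : Ech N B)
    (hv : v.length = N) : spn N (B ++ [red B v]) = spn N B ⊔ Submodule.span (ZMod p) {vec N v} := by
  have h0 := red_sub hB hv
  rw [spn_append]
  apply le_antisymm
  · refine sup_le le_sup_left ((Submodule.span_singleton_le_iff_mem _ _).2 ?_)
    have h1 := Submodule.add_mem _ (Submodule.mem_sup_left (T := Submodule.span (ZMod p)
      {vec N v}) h0) (Submodule.mem_sup_right (Submodule.mem_span_singleton_self (vec N v)))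
    rwa [sub_add_cancel] at h1
  · refine sup_le le_sup_left ((Submodule.span_singleton_le_iff_mem _ _).2 ?_)
    have h1 := Submodule.sub_mem _ (Submodule.mem_sup_right (S := spn N B)
      (Submodule.mem_span_singleton_self (vec N (red B v)))) (Submodule.mem_sup_left h0)
    rwa [sub_sub_cancel] at h1

/-- A basis has at most `N` elements (linear independence). -/
theorem ech_length [Fact p.Prime] {B : List (List (ZMod p))} (hB : Ech N B) : B.length ≤ N := by
  have h1 : B.length ≤ Module.finrank (ZMod p) (spn N B) := by
    induction B with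
    | nil => simp
    | cons b B ih =>
      have hb := hB.1 b List.mem_cons_self
      obtain ⟨hp, hn, -⟩ := pix_spec b hb.2
      rw [hb.1] at hp
      have h2 : spn N B < spn N (b :: B) := by
        rw [spn_cons]
        refine lt_of_le_of_ne le_sup_right fun h => ?_
        have h3 : vec N b ∈ spn N B := by
          rw [h]
          exact Submodule.mem_sup_left (Submodule.mem_span_singleton_self _)
        exact hn (spn_piv hB hp h3)
      have h3 := Submodule.finrank_lt_finrank_of_lt h2
      have h4 := ih hB.tail
      rw [List.length_cons]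
      omega
  have h2 := Submodule.finrank_le (spn N B)
  rw [Module.finrank_fin_fun] at h2
  exact h1.trans h2

end Few
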