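import Pool.Agent.Lib.MP_9abc2e_lc.FEW.Mach
import Pool.Agent.Lib.MP_9abc2e_lc.FEW.Circ

/-!
# FEW: encoding of inputs as trees
-/

set_option autoImplicit false

namespace Few

/-- Lists of trees. -/
def lst : List T → T
  | [] => T.nil
  | a :: l => T.cons a (lst l)

/-- Unary numbers. -/
def unary (k : ℕ) : T := lst (List.replicate k T.nil)

/-- Bits. -/
def bit (b : Bool) : T := if b then T.cons T.nil T.nil else T.nil

/-- Input strings. -/
def str {n : ℕ} (x : Cube n) : T := lst (List.ofFn fun i => bit (x i))

/-- A labelled sample. -/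
def smp {n m : ℕ} (f : Cube n → Bool) (S : Fin m → Cube n) : T :=
  lst (List.ofFn fun i => T.cons (str (S i)) (bit (f (S i))))

end Few
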