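import Pool.Agent.Lib.MP_9abc2e_lc.FEW.Elim
import Pool.Agent.Lib.MP_9abc2e_lc.FEW.Chain

/-!
# FEW: the features: the `D`-th tensor power of the vector `(1, x)`
-/

set_option autoImplicit false

namespace Few

variable {p n : ℕ}

/-- The products of `a` with `1` and with the bits of `x`. -/
def blk {p : ℕ} (x : List Bool) (a : ZMod p) : List (ZMod p) :=
  a :: x.map fun b => if b then a else 0

/-- One step. -/
def ext {p : ℕ} (x : List Bool) (l : List (ZMod p)) : List (ZMod p) := l.flatMap (blk x)

/-- The features. -/
def feat (p : ℕ) (x : List Bool) (D : ℕ) : List (ZMod p) := (ext x)^[D] [1]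

theorem feat_succ (x : List Bool) (D : ℕ) : feat p x (D + 1) = ext x (feat p x D) :=
  Function.iterate_succ_apply' _ _ _

theorem blk_length (x : List Bool) (a : ZMod p) : (blk x a).length = x.length + 1 := by
  simp [blk]

theorem ext_length (x : List Bool) (l : List (ZMod p)) :
    (ext x l).length = l.length * (x.length + 1) := by
  induction l with
  | nil => simp [ext]
  | cons a l ih =>
    rw [ext, List.flatMap_cons, List.length_append, blk_length]
    rw [ext] at ih
    rw [ih, List.length_cons]
    ring

theorem feat_length (x : List Bool) (D : ℕ) : (feat p x D).length = (x.length + 1) ^ D := by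
  induction D with
  | zero => simp [feat]
  | succ D ih => rw [feat_succ, ext_length, ih, pow_succ]

theorem feat_head (x : List Bool) (D : ℕ) : ∃ l, feat p x D = 1 :: l := by
  induction D with
  | zero => exact ⟨[], rfl⟩
  | succ D ih =>
    obtain ⟨l, hl⟩ := ih
    rw [feat_succ, hl]
    exact ⟨_, rfl⟩

theorem feat_nonzero [Fact p.Prime] (x : List Bool) (D : ℕ) : isZ (feat p x D) = false := by
  obtain ⟨l, hl⟩ := feat_head (p := p) x D
  rw [hl]
  simp [isZ]

theorem ext_getD (x : List Bool) (l : List (ZMod p)) (i r : ℕ) (hi : i < l.length)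
    (hr : r < x.length + 1) :
    (ext x l).getD ((x.length + 1) * i + r) 0 = (blk x (l.getD i 0)).getD r 0 := by
  induction l generalizing i with
  | nil => exact absurd hi (by simp)
  | cons a l ih =>
    rw [ext, List.flatMap_cons]
    rcases i with _ | i
    · rw [List.getD_append _ _ _ _ (by rw [blk_length]; omega)]
      simp
    · have h1 : (blk x a).length ≤ (x.length + 1) * (i + 1) + r := by
        rw [blk_length]
        have : (x.length + 1) * (i + 1) = (x.length + 1) * i + (x.length + 1) := by ring
        omega
      rw [List.getD_append_right _ _ _ _ h1]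
      have h2 : (x.length + 1) * (i + 1) + r - (blk x a).length = (x.length + 1) * i + r := by
        rw [blk_length]
        have : (x.length + 1) * (i + 1) = (x.length + 1) * i + (x.length + 1) := by ring
        omega
      rw [h2, List.getD_cons_succ]
      exact ih i (by simpa using hi)

theorem blk_getD (x : Cube n) (a : ZMod p) (j : Fin n) :
    (blk (List.ofFn x) a).getD (j.1 + 1) 0 = bz p (x j) * a := by
  rw [blk, List.getD_cons_succ, List.getD_eq_getElem _ _ (by simp)]
  rw [List.getElem_map, List.getElem_ofFn, bz]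
  by_cases h : x j = true
  · simp [h]
  · simp [h]

theorem mono_erase (s : Finset (Fin n)) {j : Fin n} (hj : j ∈ s) (x : Cube n) :
    mono p s x = bz p (x j) * mono p (s.erase j) x := by
  rw [mono, mono, Finset.mul_prod_erase s (fun i => bz p (x i)) hj]

/-- every monomial of degree at most `D` is an entry of the features -/
theorem feat_mono (D : ℕ) (s : Finset (Fin n)) (hs : s.card ≤ D) :
    ∃ i < (n + 1) ^ D, ∀ x : Cube n, (feat p (List.ofFn x) D).getD i 0 = mono p s x := by
  induction D generalizing s with
  | zero =>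
    have h0 : s = ∅ := Finset.card_eq_zero.1 (Nat.le_zero.1 hs)
    subst h0
    exact ⟨0, by simp, fun x => by simp [feat, mono]⟩
  | succ D ih =>
    rcases s.eq_empty_or_nonempty with h0 | ⟨j, hj⟩
    · subst h0
      refine ⟨0, by positivity, fun x => ?_⟩
      obtain ⟨l, hl⟩ := feat_head (p := p) (List.ofFn x) (D + 1)
      rw [hl]
      simp [mono]
    · obtain ⟨i, hi, h⟩ := ih (s.erase j) (by
        rw [Finset.card_erase_of_mem hj]
        omega)
      refine ⟨(n + 1) * i + (j.1 + 1), ?_, fun x => ?_⟩
      · have h1 := j.2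
        have h2 : (n + 1) * i + (n + 1) ≤ (n + 1) ^ (D + 1) := by
          rw [pow_succ']
          calc (n + 1) * i + (n + 1) = (n + 1) * (i + 1) := by ring
            _ ≤ (n + 1) * (n + 1) ^ D := Nat.mul_le_mul_left _ hi
        omega
      · have hl : (List.ofFn x).length = n := List.length_ofFn
        have h1 := ext_getD (List.ofFn x) (feat p (List.ofFn x) D) i (j.1 + 1)
          (by rw [feat_length, hl]; exact hi) (by rw [hl]; omega)
        rw [hl] at h1
        rw [feat_succ, h1, blk_getD, h x, mono_erase s hj]

theorem feat_rep [Fact p.Prime] (D : ℕ) :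
    Rep (fun x : Cube n => vec ((n + 1) ^ D) (feat p (List.ofFn x) D)) D := by
  intro q hq
  rw [Pol] at hq
  induction hq using Submodule.span_induction with
  | mem q hq =>
    obtain ⟨s, hs, rfl⟩ := hq
    obtain ⟨i, hi, h⟩ := feat_mono (p := p) D s hs
    refine ⟨Pi.single ⟨i, hi⟩ 1, fun x => ?_⟩
    rw [Finset.sum_eq_single (⟨i, hi⟩ : Fin ((n + 1) ^ D))]
    · rw [Pi.single_eq_same, one_mul]
      exact (h x).symm
    · intro b _ hb
      rw [Pi.single_eq_of_ne hb, zero_mul]
    · intro hn
      exact absurd (Finset.mem_univ _) hn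
  | zero => exact ⟨0, fun x => by simp⟩
  | add q r _ _ hq hr =>
    obtain ⟨w, hw⟩ := hq
    obtain ⟨v, hv⟩ := hr
    refine ⟨w + v, fun x => ?_⟩
    rw [Pi.add_apply, hw, hv, ← Finset.sum_add_distrib]
    exact Finset.sum_congr rfl fun i _ => by rw [Pi.add_apply, add_mul]
  | smul c q _ hq =>
    obtain ⟨w, hw⟩ := hq
    refine ⟨c • w, fun x => ?_⟩
    rw [Pi.smul_apply, hw, smul_eq_mul, Finset.mul_sum]
    exact Finset.sum_congr rfl fun i _ => by rw [Pi.smul_apply, smul_eq_mul, mul_assoc]

end Few
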