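import Pool.Agent.Lib.MP_9abc2e_lc.FEW.PT

/-!
# FEW: folds over lists run in polynomial time

`foldT g c l a`: fold over the list `l` with the parameter `c` and the accumulator `a`; `g` gets the
element, the accumulator and the parameter.
-/

set_option autoImplicit false

namespace Few

def foldT (g : T → T) (c : T) : T → T → T
  | T.nil, a => a
  | T.cons e l, a => foldT g c l (g (T.cons e (T.cons a c)))

/-- the accumulator grows by a polynomial in the sizes of the element and of the parameter -/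
def Grw (g : T → T) : Prop :=
  ∃ K k : ℕ, ∀ e a c : T, (g (T.cons e (T.cons a c))).size ≤ a.size + K * (e.size + c.size) ^ k

theorem T.eta {x : T} (h : x ≠ T.nil) : x = T.cons x.hd x.tl := by
  cases x with
  | nil => exact absurd rfl h
  | cons a b => rfl

/-- size of a fold -/
theorem fold_size {g : T → T} {K k : ℕ}
    (hg : ∀ e a c : T, (g (T.cons e (T.cons a c))).size ≤ a.size + K * (e.size + c.size) ^ k)
    (c : T) (L : ℕ) : ∀ l a : T, l.size ≤ L →
      (foldT g c l a).size ≤ a.size + l.size * (K * (L + c.size) ^ k)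
  | T.nil, a, _ => by
      show a.size ≤ _
      omega
  | T.cons e l, a, h => by
      have h0 : e.size + l.size + 1 ≤ L := h
      have h1 := fold_size hg c L l (g (T.cons e (T.cons a c))) (by omega)
      have h2 := hg e a c
      have h3 : K * (e.size + c.size) ^ k ≤ K * (L + c.size) ^ k :=
        Nat.mul_le_mul_left _ (Nat.pow_le_pow_left (by omega) k)
      show (foldT g c l (g (T.cons e (T.cons a c)))).size ≤
        a.size + (e.size + l.size + 1) * (K * (L + c.size) ^ k)
      have h4 : (e.size + l.size + 1) * (K * (L + c.size) ^ k) =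
          e.size * (K * (L + c.size) ^ k) + l.size * (K * (L + c.size) ^ k) +
          K * (L + c.size) ^ k := by ring
      rw [h4]
      omega

/-- the program for the body of the loop -/
theorem body_run {g : T → T} {P : Prg} {b : ℕ}
    (hP : ∀ x, ∃ t, Run P x (g x) t ∧ t ≤ (x.size + 1) ^ b) :
    ∃ (F : Prg) (b' : ℕ), ∀ e l a c : T, ∃ t,
      Run F (T.cons (T.cons e l) (T.cons a c)) (T.cons l (T.cons (g (T.cons e (T.cons a c))) c)) t ∧
      t ≤ ((T.cons (T.cons e l) (T.cons a c)).size + 1) ^ b' := by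
  have h1 : PT g := ⟨P, b, hP⟩
  have h2 : PT fun y => T.cons y.hd.tl (T.cons (g (T.cons y.hd.hd y.tl)) y.tl.tl) :=
    (PT.hd0.tl).cons ((h1.comp (PT.hd0.hd.cons PT.tl0)).cons PT.tl0.tl)
  obtain ⟨F, b', hF⟩ := h2
  refine ⟨F, b', fun e l a c => ?_⟩
  obtain ⟨t, h3, h4⟩ := hF (T.cons (T.cons e l) (T.cons a c))
  exact ⟨t, h3, h4⟩

theorem loop_run {g : T → T} {F : Prg} {b : ℕ} {K k : ℕ}
    (hF : ∀ e l a c : T, ∃ t,
      Run F (T.cons (T.cons e l) (T.cons a c)) (T.cons l (T.cons (g (T.cons e (T.cons a c))) c)) t ∧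
      t ≤ ((T.cons (T.cons e l) (T.cons a c)).size + 1) ^ b)
    (hg : ∀ e a c : T, (g (T.cons e (T.cons a c))).size ≤ a.size + K * (e.size + c.size) ^ k)
    (c : T) (L A : ℕ) : ∀ l a : T, l.size ≤ L → a.size + l.size * (K * (L + c.size) ^ k) ≤ A →
      ∃ t, Run (Prg.loop F) (T.cons l (T.cons a c)) (T.cons T.nil (T.cons (foldT g c l a) c)) t ∧
        t ≤ l.size * ((L + A + c.size + 3) ^ b + (L + A + c.size + 3))
  | T.nil, a, h1, h2 => by
      refine ⟨_, Run.loopF rfl, ?_⟩
      have h1' : 1 ≤ L := h1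
      show 1 + (a.size + c.size + 1) + 1 ≤ 1 * _
      omega
  | T.cons e l, a, h1, h2 => by
      have h0 : e.size + l.size + 1 ≤ L := h1
      obtain ⟨s, hs, hs'⟩ := hF e l a c
      have h3 := hg e a c
      have h5 : K * (e.size + c.size) ^ k ≤ K * (L + c.size) ^ k :=
        Nat.mul_le_mul_left _ (Nat.pow_le_pow_left (by omega) k)
      have h4 : (T.cons e l).size * (K * (L + c.size) ^ k) =
          e.size * (K * (L + c.size) ^ k) + l.size * (K * (L + c.size) ^ k) +
          K * (L + c.size) ^ k := by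
        show (e.size + l.size + 1) * (K * (L + c.size) ^ k) = _
        ring
      rw [h4] at h2
      obtain ⟨t, ht, ht'⟩ := loop_run hF hg c L A l (g (T.cons e (T.cons a c))) (by omega)
        (by omega)
      refine ⟨_, Run.loopT (by intro h; cases h) hs ht, ?_⟩
      have h6 : (T.cons (T.cons e l) (T.cons a c)).size + 1 ≤ L + A + c.size + 3 := by
        show (e.size + l.size + 1) + (a.size + c.size + 1) + 1 + 1 ≤ _
        omega
      have h7 := Nat.pow_le_pow_left h6 b
      have h8 : (T.cons e l).size * ((L + A + c.size + 3) ^ b + (L + A + c.size + 3)) =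
          e.size * ((L + A + c.size + 3) ^ b + (L + A + c.size + 3)) +
          l.size * ((L + A + c.size + 3) ^ b + (L + A + c.size + 3)) +
          ((L + A + c.size + 3) ^ b + (L + A + c.size + 3)) := by
        show (e.size + l.size + 1) * _ = _
        ring
      rw [h8]
      omega

/-- folds are computed in polynomial time -/
theorem PT.fold {g l a c : T → T} (hg : PT g) (hgr : Grw g) (hl : PT l) (ha : PT a) (hc : PT c) :
    PT fun x => foldT g (c x) (l x) (a x) := by
  obtain ⟨G, b, hG⟩ := hg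
  obtain ⟨K, k, hK⟩ := hgr
  obtain ⟨F, b', hF⟩ := body_run hG
  obtain ⟨P, p, hP⟩ := hl.cons (ha.cons hc)
  have h1 : ∃ q : ℕ, ∀ x : T, ∃ t, Run (Prg.loop F) (T.cons (l x) (T.cons (a x) (c x)))
      (T.cons T.nil (T.cons (foldT g (c x) (l x) (a x)) (c x))) t ∧
      t ≤ ((T.cons (l x) (T.cons (a x) (c x))).size + 1) ^ q := by
    have h2 : ∃ q : ℕ, ∀ n : ℕ, 1 ≤ n →
        n * ((n + (n + n * (K * (n + n) ^ k)) + n + 3) ^ b' +
          (n + (n + n * (K * (n + n) ^ k)) + n + 3)) ≤ (n + 1) ^ q := by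
      have h3 : ∀ n : ℕ, 1 ≤ n → n + n ≤ (n + 1) ^ (max 1 1 + 1) := fun n hn =>
        add_pw hn (self_pw n) (self_pw n)
      have h4 : ∀ n : ℕ, 1 ≤ n → (n + n) ^ k ≤ (n + 1) ^ ((max 1 1 + 1) * k) := fun n hn => by
        rw [pow_mul]
        exact Nat.pow_le_pow_left (h3 n hn) k
      have h5 : ∀ n : ℕ, 1 ≤ n → n * (K * (n + n) ^ k) ≤ (n + 1) ^ (1 + (K + ((max 1 1 + 1) * k))) :=
        fun n hn => mul_pw (self_pw n) (mul_pw (const_pw hn K) (h4 n hn))
      have h6 : ∃ q, ∀ n : ℕ, 1 ≤ n → n + (n + n * (K * (n + n) ^ k)) + n + 3 ≤ (n + 1) ^ q :=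
        ⟨_, fun n hn => add_pw hn (add_pw hn (add_pw hn (self_pw n) (add_pw hn (self_pw n)
          (h5 n hn))) (self_pw n)) (const_pw hn 3)⟩
      obtain ⟨q, hq⟩ := h6
      refine ⟨_, fun n hn => mul_pw (self_pw n) (add_pw hn (a := q * b') ?_ (hq n hn))⟩
      rw [pow_mul]
      exact Nat.pow_le_pow_left (hq n hn) b'
    obtain ⟨q, hq⟩ := h2
    refine ⟨q, fun x => ?_⟩
    obtain ⟨t, h3, h4⟩ := loop_run hF hK (c x) (l x).size
      ((a x).size + (l x).size * (K * ((l x).size + (c x).size) ^ k)) (l x) (a x) le_rfl le_rfl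
    refine ⟨t, h3, h4.trans ?_⟩
    set n := (T.cons (l x) (T.cons (a x) (c x))).size with hn
    have h5 : n = (l x).size + ((a x).size + (c x).size + 1) + 1 := hn
    refine le_trans ?_ (hq n (by omega))
    have h6 : (l x).size ≤ n := by omega
    have h7 : (a x).size ≤ n := by omega
    have h8 : (c x).size ≤ n := by omega
    gcongr
  obtain ⟨q, hq⟩ := h1
  refine PT.congr (f := fun x => foldT g (c x) (l x) (a x)) ?_ fun x => rfl
  refine ⟨Prg.seq P (Prg.seq (Prg.loop F) (Prg.seq Prg.tl Prg.hd)),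
    max p ((p + 1) * (max q (max ((q + 1) * 1) ((q + 1) * 1) + 1) + 1)) + 1, fun x => ?_⟩
  obtain ⟨t1, h1, h1'⟩ := hP x
  obtain ⟨t2, h2, h2'⟩ := hq x
  have h3 : Run (Prg.seq Prg.tl Prg.hd) (T.cons T.nil (T.cons (foldT g (c x) (l x) (a x)) (c x)))
      (foldT g (c x) (l x) (a x)) (_ + _) := Run.seq (Run.tl _) (Run.hd _)
  refine ⟨_, Run.seq h1 (Run.seq h2 h3), ?_⟩
  set m := (T.cons (l x) (T.cons (a x) (c x))).size with hm
  have hm1 : 1 ≤ m := T.one_le_size _
  refine add_pw x.one_le_size h1' ?_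
  have h4 : m ≤ (x.size + 1) ^ p := h1.size_le.trans h1'
  refine le_trans ?_ (comp_pw x.one_le_size h4 _)
  refine add_pw hm1 h2' ?_
  have h5 : (T.cons T.nil (T.cons (foldT g (c x) (l x) (a x)) (c x))).size ≤ (m + 1) ^ q :=
    h2.size_le.trans h2'
  have h6 : (T.cons T.nil (T.cons (foldT g (c x) (l x) (a x)) (c x))).size + 1 ≤
      (m + 1) ^ ((q + 1) * 1) := by
    have := comp_pw hm1 h5 1
    rwa [pow_one] at this
  refine add_pw hm1 (by omega) ?_
  have h7 := T.tl_size (T.cons T.nil (T.cons (foldT g (c x) (l x) (a x)) (c x)))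
  omega

end Few
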