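import Pool.Agent.Lib.MP_9abc2e_lc.FEW.Pol

/-!
# FEW: the key property of circuits with few wide gates

Plan. Fix the circuit `C` with levels `l`, `W = C.wide k`, `K = deg p k`. For a pattern `a : ℕ → Bool`
(values of the wide gates) let `P a i : Cube n → ZMod p` be the polynomial of the gate `i`: for `i ∈ W`
the constant `a i`, otherwise the polynomial of its inputs (MOD: (sum)^(p-1); AND: product;
OR: 1 - product of (1 - P); NOT: product of (1 - P)). Degree at most `K ^ l i`. If the wide gates with
numbers < i have the values `a` at `x`, then `P a i x = bz (v i)` (`i` not wide), and the same for the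
inputs of `i`.

Order: closed bit `c x j` of the wide gate `j` at `x`: AND = true, OR = false. `ρ x` = rank of the vector
of the closed bits in the lexicographic order. `ρ x < ρ y` implies: there is `j ∈ W` with
`c x j = 0`, `c y j = 1` and `c x i = c y i` for all `i ∈ W`, `i < j`; hence the wide gates before `j`
have the same values at `x` and `y`. `ρ x = ρ y` implies that all wide gates have the same values.

`r` = product over the `j ∈ W` which are open at `x` of `1 - P a u` (AND, `u` an input with value false)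
or `P a u` (OR, `u` an input with value true), `a` = the values of the wide gates at `x`; `F = P a out`.
-/

set_option autoImplicit false

namespace Few

variable {p n d k t : ℕ}

theorem mem_wide {C : Circ n} {i : ℕ} : i ∈ C.wide k ↔
    i < C.size ∧ (C.kind i = Kind.and ∨ C.kind i = Kind.or) ∧ k < (C.inp i).length := by
  classical
  unfold Circ.wide
  rw [Finset.mem_filter, Finset.mem_range]

/-- Degree of one level. -/
def dg (p k : ℕ) : ℕ := max k (max (p - 1) 1)

/-- The polynomial of an input. -/
def sp (p : ℕ) {n : ℕ} (P : ℕ → Cube n → ZMod p) : Src n → Cube n → ZMod p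
  | Src.lit j b => fun x => bz p (x j == b)
  | Src.gate i => P i

/-- The polynomial of a local gate. -/
def lp (p : ℕ) {n : ℕ} : (List Bool → Bool) → List (Cube n → ZMod p) → Cube n → ZMod p
  | g, [] => fun _ => bz p (g [])
  | g, q :: l => fun x => q x * lp p (fun m => g (true :: m)) l x +
      (1 - q x) * lp p (fun m => g (false :: m)) l x

/-- The polynomial of a gate. -/
def gp (p : ℕ) {n : ℕ} : Kind → List (Cube n → ZMod p) → Cube n → ZMod p
  | Kind.and, l => fun x => (l.map fun q => q x).prod
  | Kind.or, l => fun x => 1 - (l.map fun q => 1 - q x).prod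
  | Kind.not, l => fun x => (l.map fun q => 1 - q x).prod
  | Kind.mod, l => fun x => (l.map fun q => q x).sum ^ (p - 1)
  | Kind.loc g, l => lp p g l

/-- The polynomials of the gates for the pattern `a`. -/
def pg (p : ℕ) {n : ℕ} (C : Circ n) (W : Finset ℕ) (a : ℕ → Bool) (i : ℕ) : Cube n → ZMod p :=
  if i ∈ W then fun _ => bz p (a i)
  else gp p (C.kind i)
    ((C.inp i).map (sp p fun j => if _h : j < i then pg p C W a j else fun _ => 0))
termination_by i
decreasing_by assumption

/-! ### Values -/

theorem bz_and (a b : Bool) : bz p (a && b) = bz p a * bz p b := by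
  cases a <;> cases b <;> simp [bz]

theorem bz_not (a : Bool) : bz p (!a) = 1 - bz p a := by
  cases a <;> simp [bz]

theorem prod_bz (l : List Bool) : (l.map (bz p)).prod = bz p (l.all fun a => a) := by
  induction l with
  | nil => simp [bz]
  | cons a l ih => rw [List.map_cons, List.prod_cons, List.all_cons, ih, bz_and]

theorem prod_bz_not (l : List Bool) :
    (l.map fun a => 1 - bz p a).prod = bz p (l.all fun a => !a) := by
  induction l with
  | nil => simp [bz]
  | cons a l ih => rw [List.map_cons, List.prod_cons, List.all_cons, ih, bz_and, bz_not]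

theorem any_not_all (l : List Bool) : (l.any fun a => a) = !(l.all fun a => !a) := by
  induction l with
  | nil => rfl
  | cons a l ih =>
    rw [List.any_cons, List.all_cons, ih]
    cases a <;> simp

theorem sum_bz (l : List Bool) : (l.map (bz p)).sum = (l.count true : ZMod p) := by
  induction l with
  | nil => simp
  | cons a l ih =>
    rw [List.map_cons, List.sum_cons, ih, List.count_cons]
    cases a
    · simp [bz]
    · simp only [bz, if_true, beq_self_eq_true]
      push_cast
      ring

theorem lp_bz (L : List (Src n)) (F : Src n → Cube n → ZMod p)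
    (w : Src n → Bool) (x : Cube n) (h : ∀ s ∈ L, F s x = bz p (w s)) (g : List Bool → Bool) :
    lp p g (L.map F) x = bz p (g (L.map w)) := by
  induction L generalizing g with
  | nil => rfl
  | cons s L ih =>
    have h1 := ih fun s hs => h s (List.mem_cons_of_mem _ hs)
    have h2 := h s List.mem_cons_self
    change F s x * lp p (fun m => g (true :: m)) (L.map F) x +
      (1 - F s x) * lp p (fun m => g (false :: m)) (L.map F) x = _
    rw [h1, h1, h2, List.map_cons]
    cases w s
    · simp [bz]
    · simp [bz]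

theorem gp_bz [hp : Fact p.Prime] (K : Kind) (L : List (Src n)) (F : Src n → Cube n → ZMod p)
    (w : Src n → Bool) (x : Cube n) (h : ∀ s ∈ L, F s x = bz p (w s)) :
    gp p K (L.map F) x = bz p (K.eval p (L.map w)) := by
  have h1 : (L.map F).map (fun q => q x) = (L.map w).map (bz p) := by
    rw [List.map_map, List.map_map]
    exact List.map_congr_left fun s hs => h s hs
  have h2 : (L.map F).map (fun q => 1 - q x) = (L.map w).map (fun a => 1 - bz p a) := by
    rw [List.map_map, List.map_map]
    exact List.map_congr_left fun s hs => by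
      change 1 - F s x = 1 - bz p (w s)
      rw [h s hs]
  cases K
  · change ((L.map F).map fun q => q x).prod = _
    rw [h1, prod_bz]
    rfl
  · change 1 - ((L.map F).map fun q => 1 - q x).prod = _
    rw [h2, prod_bz_not, ← bz_not, ← any_not_all]
    rfl
  · change ((L.map F).map fun q => 1 - q x).prod = _
    rw [h2, prod_bz_not]
    rfl
  · change ((L.map F).map fun q => q x).sum ^ (p - 1) = bz p (decide (¬ p ∣ (L.map w).count true))
    rw [h1, sum_bz]
    by_cases hd : p ∣ (L.map w).count true
    · rw [(ZMod.natCast_eq_zero_iff _ _).2 hd, zero_pow (by have := hp.out.two_le; omega)]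
      simp [bz, hd]
    · have h0 : ((L.map w).count true : ZMod p) ≠ 0 := fun e =>
        hd ((ZMod.natCast_eq_zero_iff _ _).1 e)
      rw [ZMod.pow_card_sub_one_eq_one h0]
      simp [bz, hd]
  · exact lp_bz L F w x h _

theorem pg_val [Fact p.Prime] {C : Circ n} {W : Finset ℕ} {a v : ℕ → Bool} {x : Cube n}
    (hv : C.IsVal p x v) : ∀ i, i < C.size → (∀ j ∈ W, j ≤ i → a j = v j) →
      pg p C W a i x = bz p (v i) := by
  intro i
  induction i using Nat.strong_induction_on with
  | _ i ih =>
    intro hi ha
    rw [pg]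
    split_ifs with hW
    · rw [ha i hW le_rfl]
    · rw [hv i hi]
      refine gp_bz _ _ _ _ _ fun s hs => ?_
      rcases s with ⟨j, b⟩ | j
      · rfl
      · have hj := C.acyc i hi j hs
        change (if _h : j < i then pg p C W a j else fun _ => 0) x = bz p (v j)
        rw [dif_pos hj]
        exact ih j hj (hj.trans hi) fun j' hj' hle => ha j' hj' (hle.trans hj.le)

theorem sp_val [Fact p.Prime] {C : Circ n} {W : Finset ℕ} {a v : ℕ → Bool} {x : Cube n}
    (hv : C.IsVal p x v) {i : ℕ} (hi : i < C.size) (ha : ∀ j ∈ W, j < i → a j = v j) {s : Src n}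
    (hs : s ∈ C.inp i) : sp p (pg p C W a) s x = bz p (s.val x v) := by
  rcases s with ⟨j, b⟩ | j
  · rfl
  · have hj := C.acyc i hi j hs
    exact pg_val hv j (hj.trans hi) fun j' hj' hle => ha j' hj' (lt_of_le_of_lt hle hj)

/-! ### Degrees -/

theorem dg_pos (p k : ℕ) : 1 ≤ dg p k := le_trans (le_max_right _ _) (le_max_right _ _)

theorem lp_deg {L : List (Cube n → ZMod p)} {D : ℕ} (hL : ∀ q ∈ L, q ∈ Pol p n D)
    (g : List Bool → Bool) : lp p g L ∈ Pol p n (L.length * D) := by
  induction L generalizing g with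
  | nil => exact Pol.const _
  | cons q L ih =>
    have h1 := ih fun q hq => hL q (List.mem_cons_of_mem _ hq)
    have h2 := hL q List.mem_cons_self
    have e : (q :: L).length * D = D + L.length * D := by
      rw [List.length_cons]
      ring
    rw [e]
    exact Submodule.add_mem _ (Pol.mul h2 (h1 fun m => g (true :: m)))
      (Pol.mul (Pol.sub1 h2) (h1 fun m => g (false :: m)))

theorem gp_deg {K : Kind} {L : List (Cube n → ZMod p)} {D : ℕ} (hL : ∀ q ∈ L, q ∈ Pol p n D)
    (hn : K = Kind.and ∨ K = Kind.or → L.length ≤ k) (hnot : K = Kind.not → L.length = 1)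
    (hloc : ∀ g : List Bool → Bool, K = Kind.loc g → L.length ≤ k) :
    gp p K L ∈ Pol p n (dg p k * D) := by
  have hsub : (fun x => (L.map fun q => 1 - q x).prod) ∈ Pol p n (L.length * D) := by
    have h1 := Pol.prodL (L.map fun (q : Cube n → ZMod p) => fun x => 1 - q x) (D := D) (by
      intro q hq
      obtain ⟨r, hr, rfl⟩ := List.mem_map.1 hq
      exact Pol.sub1 (hL r hr))
    rw [List.length_map] at h1
    have e : (fun x => (L.map fun q => 1 - q x).prod) = fun x =>
        ((L.map fun (q : Cube n → ZMod p) => fun x => 1 - q x).map fun q => q x).prod := by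
      funext x
      rw [List.map_map]
      rfl
    rw [e]
    exact h1
  cases K
  · exact Pol.le (Nat.mul_le_mul_right D ((hn (Or.inl rfl)).trans (le_max_left _ _)))
      (Pol.prodL L hL)
  · exact Pol.le (Nat.mul_le_mul_right D ((hn (Or.inr rfl)).trans (le_max_left _ _)))
      (Pol.sub1 hsub)
  · exact Pol.le (Nat.mul_le_mul_right D (by rw [hnot rfl]; exact dg_pos p k)) hsub
  · exact Pol.le (Nat.mul_le_mul_right D ((le_max_left _ _).trans (le_max_right _ _)))
      (Pol.pow (Pol.sumL L hL) (p - 1))
  · exact Pol.le (Nat.mul_le_mul_right D ((hloc _ rfl).trans (le_max_left _ _))) (lp_deg hL _)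

theorem sp_deg_lit {P : ℕ → Cube n → ZMod p} {D : ℕ} (hD : 1 ≤ D) (j : Fin n) (b : Bool) :
    sp p P (Src.lit j b) ∈ Pol p n D := by
  refine Pol.le hD ?_
  cases b
  · have h1 := Pol.sub1 (Pol.bit (p := p) j)
    convert h1 using 1
    funext x
    change bz p (x j == false) = 1 - bz p (x j)
    rw [← bz_not]
    cases x j <;> rfl
  · have h1 := Pol.bit (p := p) j
    convert h1 using 1
    funext x
    change bz p (x j == true) = bz p (x j)
    cases x j <;> rfl

theorem pg_deg {C : Circ n} (hC : C.LocLe k) {l : ℕ → ℕ}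
    (hl : ∀ i < C.size, 1 ≤ l i ∧ l i ≤ d ∧ ∀ j, Src.gate j ∈ C.inp i → l j < l i)
    (a : ℕ → Bool) : ∀ i, i < C.size → pg p C (C.wide k) a i ∈ Pol p n (dg p k ^ l i) := by
  intro i
  induction i using Nat.strong_induction_on with
  | _ i ih =>
    intro hi
    rw [pg]
    split_ifs with hW
    · exact Pol.const _
    · obtain ⟨h1, _, h3⟩ := hl i hi
      have e : dg p k ^ l i = dg p k * dg p k ^ (l i - 1) := by
        rw [← pow_succ']
        congr 1
        omega
      rw [e]
      refine gp_deg ?_ ?_ ?_ ?_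
      · intro q hq
        obtain ⟨s, hs, rfl⟩ := List.mem_map.1 hq
        rcases s with ⟨j, b⟩ | j
        · exact sp_deg_lit (Nat.one_le_pow _ _ (dg_pos p k)) j b
        · have hj := C.acyc i hi j hs
          change (if _h : j < i then pg p C (C.wide k) a j else fun _ => 0) ∈ _
          rw [dif_pos hj]
          refine Pol.le (Nat.pow_le_pow_right (dg_pos p k) ?_) (ih j hj (hj.trans hi))
          have := h3 j hs
          omega
      · intro hK
        rw [List.length_map]
        by_contra hlen
        push Not at hlen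
        exact hW (mem_wide.2 ⟨hi, hK, hlen⟩)
      · intro hK
        rw [List.length_map]
        exact C.unary i hi hK
      · intro g hg
        rw [List.length_map]
        exact hC i hi g hg

theorem sp_deg {C : Circ n} (hC : C.LocLe k) {l : ℕ → ℕ}
    (hl : ∀ i < C.size, 1 ≤ l i ∧ l i ≤ d ∧ ∀ j, Src.gate j ∈ C.inp i → l j < l i)
    (a : ℕ → Bool) {i : ℕ} (hi : i < C.size) {s : Src n} (hs : s ∈ C.inp i) :
    sp p (pg p C (C.wide k) a) s ∈ Pol p n (dg p k ^ d) := by
  rcases s with ⟨j, b⟩ | j
  · exact sp_deg_lit (Nat.one_le_pow _ _ (dg_pos p k)) j b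
  · have hj := C.acyc i hi j hs
    exact Pol.le (Nat.pow_le_pow_right (dg_pos p k) (hl j (hj.trans hi)).2.1)
      (pg_deg hC hl a j (hj.trans hi))

/-! ### The closed bits -/

open scoped Classical in
/-- The closed bit of the gate `j` with values `v`. -/
noncomputable def cb (C : Circ n) (v : ℕ → Bool) (j : ℕ) : Bool :=
  if C.kind j = Kind.and then v j else !(v j)

theorem cb_inj {C : Circ n} {v w : ℕ → Bool} {j : ℕ} (h : cb C v j = cb C w j) : v j = w j := by
  unfold cb at h
  split_ifs at h with h1
  · exact h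
  · simpa using h

/-- The rank function. -/
theorem rank_exists (W : Finset ℕ) {X : Type} (c : X → ℕ → Bool) :
    ∃ ρ : X → ℕ, (∀ x, ρ x < 2 ^ W.card) ∧
      (∀ x y, ρ x < ρ y → ∃ j ∈ W, c x j = false ∧ c y j = true ∧
        ∀ i ∈ W, i < j → c x i = c y i) ∧
      ∀ x y, ρ x = ρ y → ∀ i ∈ W, c x i = c y i := by
  have hcard : Fintype.card (Lex (W → Bool)) = 2 ^ W.card := by
    rw [Fintype.card_lex, Fintype.card_fun, Fintype.card_bool, Fintype.card_coe]
  let e := Fintype.orderIsoFinOfCardEq (Lex (W → Bool)) hcard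
  let g : X → Lex (W → Bool) := fun x => toLex fun i => c x i
  refine ⟨fun x => (e.symm (g x) : ℕ), fun x => (e.symm (g x)).2, fun x y h => ?_,
    fun x y h i hi => ?_⟩
  · have h1 : g x < g y := e.symm.lt_iff_lt.1 (Fin.lt_def.2 h)
    obtain ⟨j, h2, h3⟩ := h1
    have h4 : c x j < c y j := h3
    refine ⟨j, j.2, ?_, ?_, fun i hi hij => h2 ⟨i, hi⟩ hij⟩
    · cases hx : c x j
      · rfl
      · rw [hx] at h4
        exact absurd h4 (by cases c y j <;> decide)
    · cases hy : c y j
      · rw [hy] at h4
        exact absurd h4 (by cases c x j <;> decide)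
      · rfl
  · have h1 : g x = g y := e.symm.injective (Fin.ext h)
    exact congrFun (congrArg ofLex h1) ⟨i, hi⟩

/-! ### The witness polynomial of an open gate -/

theorem witness [Fact p.Prime] {C : Circ n} (hC : C.LocLe k) {l : ℕ → ℕ}
    (hl : ∀ i < C.size, 1 ≤ l i ∧ l i ≤ d ∧ ∀ j, Src.gate j ∈ C.inp i → l j < l i)
    {v : Cube n → ℕ → Bool} (hv : ∀ x, C.IsVal p x (v x)) (x : Cube n) {j : ℕ}
    (hj : j ∈ C.wide k) (hc : cb C (v x) j = false) :
    ∃ r : Cube n → ZMod p, r ∈ Pol p n (dg p k ^ d) ∧ r x = 1 ∧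
      ∀ y, cb C (v y) j = true → (∀ i ∈ C.wide k, i < j → v x i = v y i) → r y = 0 := by
  obtain ⟨hsz, hK, _⟩ := mem_wide.1 hj
  unfold cb at hc ⊢
  rcases hK with hK | hK
  · -- an AND gate with a false input
    simp only [hK, if_true] at hc ⊢
    have h1 := hv x j hsz
    rw [hc, hK] at h1
    have h2 : ((C.inp j).map (Src.val x (v x))).all (fun a => a) = false := h1.symm
    rw [List.all_eq_false] at h2
    obtain ⟨b, hb, hb2⟩ := h2
    obtain ⟨s, hs, rfl⟩ := List.mem_map.1 hb
    have hb3 : s.val x (v x) = false := by simpa using hb2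
    refine ⟨fun z => 1 - sp p (pg p C (C.wide k) (v x)) s z, Pol.sub1 (sp_deg hC hl _ hsz hs), ?_,
      fun y hy hag => ?_⟩
    · change 1 - sp p (pg p C (C.wide k) (v x)) s x = 1
      rw [sp_val (hv x) hsz (fun _ _ _ => rfl) hs, hb3]
      simp [bz]
    · change 1 - sp p (pg p C (C.wide k) (v x)) s y = 0
      rw [sp_val (hv y) hsz hag hs]
      have h3 := hv y j hsz
      rw [hy, hK] at h3
      have h4 : ((C.inp j).map (Src.val y (v y))).all (fun a => a) = true := h3.symm
      rw [List.all_eq_true] at h4
      have h5 : s.val y (v y) = true := h4 _ (List.mem_map.2 ⟨s, hs, rfl⟩)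
      rw [h5]
      simp [bz]
  · -- an OR gate with a true input
    have hne : ¬ C.kind j = Kind.and := by
      rw [hK]
      intro h0
      cases h0
    simp only [hne, if_false] at hc ⊢
    have hc2 : v x j = true := by simpa using hc
    have h1 := hv x j hsz
    rw [hc2, hK] at h1
    have h2 : ((C.inp j).map (Src.val x (v x))).any (fun a => a) = true := h1.symm
    rw [List.any_eq_true] at h2
    obtain ⟨b, hb, hb2⟩ := h2
    obtain ⟨s, hs, rfl⟩ := List.mem_map.1 hb
    refine ⟨fun z => sp p (pg p C (C.wide k) (v x)) s z, sp_deg hC hl _ hsz hs, ?_,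
      fun y hy hag => ?_⟩
    · change sp p (pg p C (C.wide k) (v x)) s x = 1
      rw [sp_val (hv x) hsz (fun _ _ _ => rfl) hs, hb2]
      simp [bz]
    · change sp p (pg p C (C.wide k) (v x)) s y = 0
      rw [sp_val (hv y) hsz hag hs]
      have hy2 : v y j = false := by simpa using hy
      have h3 := hv y j hsz
      rw [hy2, hK] at h3
      have h4 : ((C.inp j).map (Src.val y (v y))).any (fun a => a) = false := h3.symm
      rw [List.any_eq_false] at h4
      have h5 := h4 _ (List.mem_map.2 ⟨s, hs, rfl⟩)
      have h6 : s.val y (v y) = false := by simpa using h5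
      rw [h6]
      simp [bz]

theorem key [Fact p.Prime] {f : Cube n → Bool} (hf : f ∈ FewWide p n d k t) :
    ∃ ρ : Cube n → ℕ, (∀ x, ρ x < 2 ^ t) ∧ ∀ x, ∃ r F : Cube n → ZMod p,
      r ∈ Pol p n (t * dg p k ^ d) ∧ F ∈ Pol p n (dg p k ^ d) ∧ r x ≠ 0 ∧
      (∀ y, ρ x < ρ y → r y = 0) ∧ ∀ y, ρ y = ρ x → F y = bz p (f y) := by
  obtain ⟨C, ⟨l, hl⟩, hC, hW, hval⟩ := hf
  choose v hv hout using hval
  obtain ⟨ρ, hρ1, hρ2, hρ3⟩ := rank_exists (C.wide k) fun x => cb C (v x)
  refine ⟨ρ, fun x => lt_of_lt_of_le (hρ1 x) (Nat.pow_le_pow_right (by norm_num) hW),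
    fun x => ?_⟩
  have hwit : ∀ j, ∃ r : Cube n → ZMod p, r ∈ Pol p n (dg p k ^ d) ∧ r x = 1 ∧
      (j ∈ C.wide k → cb C (v x) j = false → ∀ y, cb C (v y) j = true →
        (∀ i ∈ C.wide k, i < j → v x i = v y i) → r y = 0) := by
    intro j
    by_cases h : j ∈ C.wide k ∧ cb C (v x) j = false
    · obtain ⟨r, h1, h2, h3⟩ := witness hC hl hv x h.1 h.2
      exact ⟨r, h1, h2, fun _ _ => h3⟩
    · refine ⟨fun _ => 1, Pol.const 1, rfl, fun h1 h2 => absurd ⟨h1, h2⟩ h⟩
  choose R hR1 hR2 hR3 using hwit
  refine ⟨fun z => (((C.wide k).toList.map R).map fun q => q z).prod,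
    pg p C (C.wide k) (v x) C.out, ?_, ?_, ?_, ?_, ?_⟩
  · have h1 := Pol.prodL (D := dg p k ^ d) ((C.wide k).toList.map R) (by
      intro q hq
      obtain ⟨j, _, rfl⟩ := List.mem_map.1 hq
      exact hR1 j)
    refine Pol.le (Nat.mul_le_mul_right _ ?_) h1
    rw [List.length_map, Finset.length_toList]
    exact hW
  · exact Pol.le (Nat.pow_le_pow_right (dg_pos p k) (hl _ C.out_lt).2.1) (pg_deg hC hl _ _ C.out_lt)
  · change (((C.wide k).toList.map R).map fun q => q x).prod ≠ 0
    have h1 : (((C.wide k).toList.map R).map fun q => q x).prod = 1 := by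
      refine List.prod_eq_one fun z hz => ?_
      rw [List.map_map] at hz
      obtain ⟨j, _, rfl⟩ := List.mem_map.1 hz
      exact hR2 j
    rw [h1]
    exact one_ne_zero
  · intro y hy
    obtain ⟨j, hj, hx, hy2, hag⟩ := hρ2 x y hy
    have h0 := hR3 j hj hx y hy2 fun i hi hij => cb_inj (hag i hi hij)
    change (((C.wide k).toList.map R).map fun q => q y).prod = 0
    refine List.prod_eq_zero ?_
    rw [List.map_map]
    exact List.mem_map.2 ⟨j, Finset.mem_toList.2 hj, h0⟩
  · intro y hy
    rw [← hout y]
    exact pg_val (hv y) _ C.out_lt fun j hj _ => (cb_inj (hρ3 y x hy j hj)).symm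

end Few
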