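import Pool.Agent.Lib.MP_9abc2e_lc.FEW.Key

/-!
# FEW: arithmetic of the parameters

`t = k = (lg n) ^ κ`, `K = dg p k`, `D = (lg n) ^ a`, `N = (n + 1) ^ D`, `T = 2 * 2 ^ t`,
`m ≥ 2 ^ (lg n) ^ a' * (1 + log (1 / δ)) / ε`.
-/

set_option autoImplicit false

namespace Few

/-- `2 + log n`. -/
def lg (n : ℕ) : ℕ := Nat.log 2 n + 2

theorem two_le_lg (n : ℕ) : 2 ≤ lg n := Nat.le_add_left 2 _

theorem succ_le_two_pow_lg (n : ℕ) : n + 1 ≤ 2 ^ lg n := by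
  have h1 : n < 2 ^ (Nat.log 2 n + 1) := Nat.lt_pow_succ_log_self (by norm_num) n
  have h2 : 2 ^ (Nat.log 2 n + 1) ≤ 2 ^ lg n :=
    Nat.pow_le_pow_right (by norm_num) (by unfold lg; omega)
  omega

theorem le_two_pow' (x : ℕ) : x ≤ 2 ^ x := Nat.lt_two_pow_self.le

theorem dg_le (p L κ : ℕ) (hL : 2 ≤ L) : dg p (L ^ κ) ≤ L ^ (κ + p) := by
  have h0 : 0 < L := by omega
  rw [dg]
  refine max_le (Nat.pow_le_pow_right h0 (Nat.le_add_right κ p)) (max_le ?_ ?_)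
  · calc p - 1 ≤ p := Nat.sub_le p 1
      _ ≤ 2 ^ p := le_two_pow' p
      _ ≤ L ^ p := Nat.pow_le_pow_left hL p
      _ ≤ L ^ (κ + p) := Nat.pow_le_pow_right h0 (Nat.le_add_left p κ)
  · exact Nat.one_le_pow _ _ h0

/-- The degree is polylogarithmic. -/
theorem numer_deg (p d κ : ℕ) : ∃ a : ℕ, ∀ n : ℕ, ∀ a' ≥ a,
    (lg n ^ κ + 1) * dg p (lg n ^ κ) ^ d ≤ lg n ^ a' := by
  refine ⟨κ + 1 + (κ + p) * d, fun n a' ha' => ?_⟩
  have hL := two_le_lg n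
  generalize lg n = L at hL
  have h0 : 0 < L := by omega
  have h1 : L ^ κ + 1 ≤ L ^ (κ + 1) := by
    have h2 : 1 ≤ L ^ κ := Nat.one_le_pow _ _ h0
    calc L ^ κ + 1 ≤ L ^ κ * 2 := by omega
      _ ≤ L ^ κ * L := Nat.mul_le_mul_left _ hL
      _ = L ^ (κ + 1) := (pow_succ _ _).symm
  calc (L ^ κ + 1) * dg p (L ^ κ) ^ d ≤ L ^ (κ + 1) * (L ^ (κ + p)) ^ d :=
        Nat.mul_le_mul h1 (Nat.pow_le_pow_left (dg_le p L κ hL) d)
    _ = L ^ (κ + 1 + (κ + p) * d) := by rw [← pow_mul, ← pow_add]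
    _ ≤ L ^ a' := Nat.pow_le_pow_right h0 ha'

/-- The number `N * N * T` (times a constant) is quasi-polynomial. -/
theorem numer_dim (C κ a : ℕ) : ∃ b : ℕ, ∀ n : ℕ, ∀ b' ≥ b,
    C * ((n + 1) ^ lg n ^ a * (n + 1) ^ lg n ^ a * (2 * 2 ^ lg n ^ κ)) + C ≤ 2 ^ lg n ^ b' := by
  refine ⟨C + a + κ + 6, fun n b' hb' => ?_⟩
  have hL := two_le_lg n
  have hn := succ_le_two_pow_lg n
  generalize lg n = L at hL hn
  have h0 : 0 < L := by omega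
  have h1 : (n + 1) ^ L ^ a ≤ 2 ^ L ^ (a + 1) := by
    calc (n + 1) ^ L ^ a ≤ (2 ^ L) ^ L ^ a := Nat.pow_le_pow_left hn _
      _ = 2 ^ L ^ (a + 1) := by rw [← pow_mul, pow_succ, mul_comm]
  set M := C + a + κ + 4 with hM
  have e1 : C + 2 ≤ L ^ M := by
    calc C + 2 ≤ 2 ^ (C + 2) := le_two_pow' _
      _ ≤ L ^ (C + 2) := Nat.pow_le_pow_left hL _
      _ ≤ L ^ M := Nat.pow_le_pow_right h0 (by omega)
  have e2 : L ^ (a + 1) ≤ L ^ M := Nat.pow_le_pow_right h0 (by omega)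
  have e3 : L ^ κ ≤ L ^ M := Nat.pow_le_pow_right h0 (by omega)
  have e4 : 4 * L ^ M ≤ L ^ (M + 2) := by
    have h4 : 4 ≤ L ^ 2 := by
      calc 4 = 2 ^ 2 := by norm_num
        _ ≤ L ^ 2 := Nat.pow_le_pow_left hL 2
    calc 4 * L ^ M = L ^ M * 4 := mul_comm _ _
      _ ≤ L ^ M * L ^ 2 := Nat.mul_le_mul_left _ h4
      _ = L ^ (M + 2) := (pow_add _ _ _).symm
  calc C * ((n + 1) ^ L ^ a * (n + 1) ^ L ^ a * (2 * 2 ^ L ^ κ)) + C
      ≤ C * (2 ^ L ^ (a + 1) * 2 ^ L ^ (a + 1) * (2 * 2 ^ L ^ κ)) +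
        C * (2 ^ L ^ (a + 1) * 2 ^ L ^ (a + 1) * (2 * 2 ^ L ^ κ)) := by
        refine Nat.add_le_add ?_ ?_
        · exact Nat.mul_le_mul_left _ (Nat.mul_le_mul_right _ (Nat.mul_le_mul h1 h1))
        · exact Nat.le_mul_of_pos_right _ (by positivity)
    _ ≤ 2 ^ C * (2 ^ L ^ (a + 1) * 2 ^ L ^ (a + 1) * (2 * 2 ^ L ^ κ)) +
        2 ^ C * (2 ^ L ^ (a + 1) * 2 ^ L ^ (a + 1) * (2 * 2 ^ L ^ κ)) := by
        refine Nat.add_le_add ?_ ?_ <;> exact Nat.mul_le_mul_right _ (le_two_pow' C)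
    _ = 2 ^ (C + 2 + L ^ (a + 1) + L ^ (a + 1) + L ^ κ) := by
        rw [pow_add, pow_add, pow_add, pow_add]
        ring
    _ ≤ 2 ^ L ^ b' := by
        refine Nat.pow_le_pow_right (by norm_num) ?_
        calc C + 2 + L ^ (a + 1) + L ^ (a + 1) + L ^ κ ≤ 4 * L ^ M := by omega
          _ ≤ L ^ (M + 2) := e4
          _ ≤ L ^ b' := Nat.pow_le_pow_right h0 (by omega)

/-- The sample size suffices: `p ^ R * (1 - ε) ^ m ≤ δ` if `m ≥ 2 p R' (1 + log (1 / δ)) / ε`, `R ≤ R'`. -/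
theorem numer_occam (p R R' : ℕ) (hp : 1 ≤ p) (hR : R ≤ R') (h1 : 1 ≤ R') {ε δ : ℝ} (h0 : 0 < ε)
    (h2 : ε ≤ 1) (h3 : 0 < δ) (h4 : δ ≤ 1) (m : ℕ)
    (hm : 2 * p * R' * (1 + Real.log (1 / δ)) / ε ≤ m) :
    (p : ℝ) ^ R * (1 - ε) ^ m ≤ δ := by
  have hp' : (1 : ℝ) ≤ p := by exact_mod_cast hp
  have hR' : (R : ℝ) ≤ R' := by exact_mod_cast hR
  have h1' : (1 : ℝ) ≤ R' := by exact_mod_cast h1
  have hl : 0 ≤ Real.log (1 / δ) := Real.log_nonneg (by rw [le_div_iff₀ h3]; linarith)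
  have hl' : Real.log (1 / δ) = - Real.log δ := by rw [one_div, Real.log_inv]
  rw [div_le_iff₀ h0] at hm
  have a1 : (p : ℝ) ^ R ≤ Real.exp (p * R') := by
    have b1 : (p : ℝ) ≤ Real.exp p := by
      have := Real.add_one_le_exp (p : ℝ)
      linarith
    calc (p : ℝ) ^ R ≤ (p : ℝ) ^ R' := pow_le_pow_right₀ hp' hR
      _ ≤ (Real.exp p) ^ R' := pow_le_pow_left₀ (by linarith) b1 R'
      _ = Real.exp (p * R') := by rw [← Real.exp_nat_mul, mul_comm]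
  have a2 : (1 - ε) ^ m ≤ Real.exp (-(m * ε)) := by
    calc (1 - ε) ^ m ≤ (Real.exp (-ε)) ^ m :=
          pow_le_pow_left₀ (by linarith) (Real.one_sub_le_exp_neg ε) m
      _ = Real.exp (-(m * ε)) := by
          rw [← Real.exp_nat_mul]
          congr 1
          ring
  have hpR : (1 : ℝ) ≤ p * R' := by nlinarith
  calc (p : ℝ) ^ R * (1 - ε) ^ m ≤ Real.exp (p * R') * Real.exp (-(m * ε)) :=
        mul_le_mul a1 a2 (pow_nonneg (by linarith) m) (Real.exp_pos _).le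
    _ = Real.exp (p * R' - m * ε) := by
        rw [← Real.exp_add]
        congr 1
    _ ≤ Real.exp (Real.log δ) := by
        refine Real.exp_le_exp.2 ?_
        have b1 : Real.log (1 / δ) ≤ (p * R') * Real.log (1 / δ) := by
          nlinarith
        nlinarith
    _ = δ := Real.exp_log h3

end Few
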