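import Pool.Agent.Lib.MP_9abc2e_lc.FEW.TreeB
import Pool.Agent.Lib.MP_9abc2e_lc.FEW.Numer

/-!
# FEW: the number `(lg n) ^ a` is computed in polynomial time (in unary)
-/

set_option autoImplicit false

namespace Few

/-! ### addition and multiplication -/

def addS (z : T) : T := T.cons T.nil z.tl.hd

def addT (u v : T) : T := foldT addS T.nil u v

theorem addS_size (e a c : T) :
    (addS (T.cons e (T.cons a c))).size ≤ a.size + 2 * (e.size + c.size) ^ 1 := by
  have h := e.one_le_size
  show (T.cons T.nil a).size ≤ _
  rw [size_cons, size_nil, pow_one]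
  omega

theorem add_pt {u v : T → T} (hu : PT u) (hv : PT v) : PT fun x => addT (u x) (v x) :=
  PT.fold (g := addS) (PT.nil.cons PT.tl0.hd) ⟨2, 1, addS_size⟩ hu hv PT.nil

theorem add_eq (l : List T) (k : ℕ) : addT (lst l) (unary k) = unary (l.length + k) := by
  induction l generalizing k with
  | nil =>
    rw [List.length_nil, zero_add]
    rfl
  | cons e l ih =>
    have h := ih (k + 1)
    rw [List.length_cons, add_assoc, add_comm 1]
    exact h

def mulS (z : T) : T := addT z.tl.tl z.tl.hd

def mulT (u v : T) : T := foldT mulS v u T.nil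

theorem mul_pt {u v : T → T} (hu : PT u) (hv : PT v) : PT fun x => mulT (u x) (v x) := by
  refine PT.fold (g := mulS) (add_pt PT.tl0.tl PT.tl0.hd) ⟨4, 2, fun e a c => ?_⟩ hu PT.nil hv
  have h1 := fold_size addS_size T.nil c.size c a le_rfl
  show (foldT addS T.nil c a).size ≤ _
  refine h1.trans (Nat.add_le_add_left ?_ _)
  rw [size_nil, pow_one]
  have h2 := c.one_le_size
  have h3 : c.size + 1 ≤ 2 * c.size := by omega
  calc c.size * (2 * (c.size + 1)) ≤ c.size * (2 * (2 * c.size)) := by gcongr
    _ = 4 * c.size ^ 2 := by ring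
    _ ≤ 4 * (e.size + c.size) ^ 2 := by
      gcongr
      omega

theorem mul_eq (i j : ℕ) : mulT (unary i) (unary j) = unary (i * j) := by
  have h : ∀ i k, foldT mulS (unary j) (unary i) (unary k) = unary (i * j + k) := by
    intro i
    induction i with
    | zero =>
      intro k
      rw [zero_mul, zero_add]
      rfl
    | succ i ih =>
      intro k
      show foldT mulS (unary j) (unary i) (addT (unary j) (unary k)) = _
      have h1 : addT (unary j) (unary k) = unary (j + k) := by
        have := add_eq (List.replicate j T.nil) k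
        rw [List.length_replicate] at this
        exact this
      rw [h1, ih]
      congr 1
      ring
  exact h i 0

/-- powers -/
def powT (x : T) : ℕ → T
  | 0 => unary 1
  | a + 1 => mulT (powT x a) x

theorem pow_pt {u : T → T} (hu : PT u) : ∀ a : ℕ, PT fun x => powT (u x) a
  | 0 => PT.const _
  | a + 1 => mul_pt (pow_pt hu a) hu

theorem pow_eq (k : ℕ) : ∀ a : ℕ, powT (unary k) a = unary (k ^ a)
  | 0 => rfl
  | a + 1 => by
      show mulT (powT (unary k) a) (unary k) = _
      rw [pow_eq k a, mul_eq, pow_succ]

/-! ### the logarithm -/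

/-- the accumulator is `(parity, output)` -/
def halfS (z : T) : T :=
  if z.tl.hd.hd = T.nil then T.cons tt z.tl.hd.tl else T.cons T.nil (T.cons T.nil z.tl.hd.tl)

def halfT (l : T) : T := (foldT halfS T.nil l T.nil).tl

theorem half_pt {u : T → T} (hu : PT u) : PT fun x => halfT (u x) := by
  refine PT.tl (PT.fold (g := halfS) ?_ (Grw.of_lin 4 fun e a c => ?_) hu PT.nil PT.nil)
  · exact PT.tl0.hd.hd.ite (PT.nil.cons (PT.nil.cons PT.tl0.hd.tl))
      ((PT.const tt).cons PT.tl0.hd.tl)
  · show (if a.hd = T.nil then T.cons tt a.tl else T.cons T.nil (T.cons T.nil a.tl)).size ≤ _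
    have h1 := a.tl_size
    have h2 := e.one_le_size
    have h5 : tt.size = 3 := rfl
    split_ifs
    · rw [size_cons]
      omega
    · rw [size_cons, size_cons, size_nil]
      omega

theorem half_eq (l : List T) : halfT (lst l) = unary (l.length / 2) := by
  have h : ∀ (l : List T) (b : Bool) (k : ℕ),
      (foldT halfS T.nil (lst l) (T.cons (bit b) (unary k))).tl =
        unary (k + (l.length + (if b then 1 else 0)) / 2) := by
    intro l
    induction l with
    | nil =>
      intro b k
      cases b
      · rfl
      · rfl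
    | cons e l ih =>
      intro b k
      cases b
      · have h1 : halfS (T.cons e (T.cons (T.cons (bit false) (unary k)) T.nil)) =
            T.cons (bit true) (unary k) := rfl
        show (foldT halfS T.nil (lst l)
          (halfS (T.cons e (T.cons (T.cons (bit false) (unary k)) T.nil)))).tl = _
        rw [h1, ih true k, List.length_cons]
        simp
      · have h1 : halfS (T.cons e (T.cons (T.cons (bit true) (unary k)) T.nil)) =
            T.cons (bit false) (unary (k + 1)) := rfl
        show (foldT halfS T.nil (lst l)
          (halfS (T.cons e (T.cons (T.cons (bit true) (unary k)) T.nil)))).tl = _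
        rw [h1, ih false (k + 1), List.length_cons]
        congr 1
        simp only [Bool.false_eq_true, if_false, if_true]
        omega
  have h1 := h l false 0
  have h2 : foldT halfS T.nil (lst l) T.nil = foldT halfS T.nil (lst l) T.nil := rfl
  cases l with
  | nil => rfl
  | cons e l =>
    have h3 : foldT halfS T.nil (lst (e :: l)) T.nil =
        foldT halfS T.nil (lst (e :: l)) (T.cons (bit false) (unary 0)) := rfl
    unfold halfT
    rw [h3, h1]
    simp

/-- the accumulator is `(current list, counter)` -/
def logS (z : T) : T :=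
  if halfT z.tl.hd.hd = T.nil then z.tl.hd
  else T.cons (halfT z.tl.hd.hd) (T.cons T.nil z.tl.hd.tl)

theorem logS_mk (e a c : T) : logS (T.cons e (T.cons a c)) =
    if halfT a.hd = T.nil then a else T.cons (halfT a.hd) (T.cons T.nil a.tl) := rfl

def logT (l : T) : T := (foldT logS T.nil l (T.cons l T.nil)).tl

theorem halfT_size_aux : ∀ l a : T,
    (foldT halfS T.nil l a).tl.size + 1 ≤ a.tl.size + l.size
  | T.nil, a => le_rfl
  | T.cons e l, a => by
      have h1 := e.one_le_size
      have h0 := size_cons e l
      rw [foldT_cons]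
      have h3 := halfT_size_aux l (halfS (T.cons e (T.cons a T.nil)))
      have h2 : (halfS (T.cons e (T.cons a T.nil))).tl.size ≤ a.tl.size + 2 := by
        show (if a.hd = T.nil then T.cons tt a.tl else T.cons T.nil (T.cons T.nil a.tl)).tl.size ≤ _
        split_ifs
        · rw [tl_cons]
          omega
        · rw [tl_cons, size_cons, size_nil]
          omega
      omega

theorem halfT_size (l : T) : (halfT l).size ≤ l.size := by
  have h := halfT_size_aux l T.nil
  have h1 : T.nil.tl.size = 1 := rfl
  rw [h1] at h
  unfold halfT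
  omega

theorem log_pt {u : T → T} (hu : PT u) : PT fun x => logT (u x) := by
  refine PT.tl (PT.fold (g := logS) ?_ (Grw.of_lin 4 fun e a c => ?_) hu (hu.cons PT.nil) PT.nil)
  · exact (half_pt PT.tl0.hd.hd).ite ((half_pt PT.tl0.hd.hd).cons (PT.nil.cons PT.tl0.hd.tl))
      PT.tl0.hd
  · rw [logS_mk]
    have h1 := halfT_size a.hd
    have h2 := e.one_le_size
    have h3 : a.hd.size + a.tl.size ≤ a.size + 1 := by
      cases a with
      | nil =>
        show 1 + 1 ≤ 1 + 1
        omega
      | cons a b =>
        show a.size + b.size ≤ a.size + b.size + 1 + 1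
        omega
    split_ifs
    · omega
    · rw [size_cons, size_cons, size_nil]
      omega

theorem unary_eq_nil {k : ℕ} : unary k = T.nil ↔ k = 0 := by
  cases k with
  | zero => exact ⟨fun _ => rfl, fun _ => rfl⟩
  | succ k =>
    rw [unary_succ]
    exact ⟨fun h => (by cases h), fun h => absurd h (Nat.succ_ne_zero k)⟩

theorem log_aux (l : List T) (w : List T) (k : ℕ) (hw : w.length ≤ l.length) :
    (foldT logS T.nil (lst l) (T.cons (lst w) (unary k))).tl =
      unary (k + Nat.log 2 w.length) := by
  induction l generalizing w k with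
  | nil =>
    have h : w = [] := List.length_eq_zero_iff.1 (Nat.le_zero.1 hw)
    rw [h]
    rfl
  | cons e l ih =>
    rw [List.length_cons] at hw
    show (foldT logS T.nil (lst l) (logS (T.cons e (T.cons (T.cons (lst w) (unary k))
      T.nil)))).tl = _
    rw [logS_mk, hd_cons, half_eq]
    by_cases h : w.length / 2 = 0
    · rw [if_pos (unary_eq_nil.2 h)]
      have h1 : w.length ≤ 1 := by omega
      have h2 : Nat.log 2 w.length = 0 := Nat.log_of_lt (by omega)
      by_cases h3 : w.length ≤ l.length
      · exact ih w k h3
      · have h4 : l = [] := List.length_eq_zero_iff.1 (by omega)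
        rw [h4, h2]
        rfl
    · rw [if_neg fun h1 => h (unary_eq_nil.1 h1)]
      have h5 := ih (List.replicate (w.length / 2) T.nil) (k + 1)
        (by rw [List.length_replicate]; omega)
      rw [List.length_replicate] at h5
      have h6 : Nat.log 2 w.length = Nat.log 2 (w.length / 2) + 1 :=
        Nat.log_of_one_lt_of_le (by omega) (by omega)
      rw [h6]
      have h7 : k + 1 + Nat.log 2 (w.length / 2) = k + (Nat.log 2 (w.length / 2) + 1) := by ring
      rw [h7] at h5
      exact h5

theorem log_eq (l : List T) : logT (lst l) = unary (Nat.log 2 l.length) := by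
  have h := log_aux l l 0 le_rfl
  rw [zero_add] at h
  exact h

/-- `(lg n) ^ a` from a sample -/
def lgT (a : ℕ) (x : T) : T := powT (T.cons T.nil (T.cons T.nil (logT x.hd.hd))) a

theorem lgT_pt (a : ℕ) : PT (lgT a) :=
  pow_pt (PT.nil.cons (PT.nil.cons (log_pt PT.hd0.hd))) a

theorem lgT_eq (a : ℕ) {n m : ℕ} (f : Cube n → Bool) (S : Fin m → Cube n) (hm : 1 ≤ m) :
    lgT a (smp f S) = unary (lg n ^ a) := by
  obtain ⟨m, rfl⟩ : ∃ m', m = m' + 1 := ⟨m - 1, by omega⟩
  have h1 : (smp f S).hd.hd = str (S 0) := by
    unfold smp
    rw [List.ofFn_succ]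
    rfl
  unfold lgT
  rw [h1]
  unfold str
  rw [log_eq, List.length_ofFn]
  exact pow_eq (lg n) a

end Few
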