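import Mathlib

/-!
# FEW: a small programming language over binary trees, with running time

The combinators of the WHILE language of N. Jones (nil, cons, hd, tl, sequence, if, while). Every step is
charged with the size of the tree which it reads.
-/

set_option autoImplicit false

namespace Few

/-- Binary trees. -/
inductive T
  | nil
  | cons (a b : T)
  deriving DecidableEq

namespace T

def size : T → ℕ
  | nil => 1
  | cons a b => a.size + b.size + 1

def hd : T → T
  | nil => nil
  | cons a _ => a

def tl : T → T
  | nil => nil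
  | cons _ b => b

end T

/-- Programs. -/
inductive Prg
  | skip
  | nil
  | hd
  | tl
  | cons (f g : Prg)
  | seq (f g : Prg)
  | ite (f g : Prg)
  | loop (f : Prg)

/-- `Run P x y t`: the program `P` on the input `x` stops after time `t` with the output `y`.
`ite f g` runs `f` if the head of the input is not `nil` and `g` otherwise; `loop f` repeats `f` as long
as the head is not `nil`. -/
inductive Run : Prg → T → T → ℕ → Prop
  | skip (x : T) : Run Prg.skip x x x.size
  | nil (x : T) : Run Prg.nil x T.nil x.size
  | hd (x : T) : Run Prg.hd x x.hd x.size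
  | tl (x : T) : Run Prg.tl x x.tl x.size
  | cons {f g : Prg} {x y z : T} {s t : ℕ} (hf : Run f x y s) (hg : Run g x z t) :
      Run (Prg.cons f g) x (T.cons y z) (s + t + x.size)
  | seq {f g : Prg} {x y z : T} {s t : ℕ} (hf : Run f x y s) (hg : Run g y z t) :
      Run (Prg.seq f g) x z (s + t)
  | iteT {f g : Prg} {x y : T} {s : ℕ} (h : x.hd ≠ T.nil) (hf : Run f x y s) :
      Run (Prg.ite f g) x y (s + x.size)
  | iteF {f g : Prg} {x y : T} {s : ℕ} (h : x.hd = T.nil) (hg : Run g x y s) :
      Run (Prg.ite f g) x y (s + x.size)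
  | loopT {f : Prg} {x y z : T} {s t : ℕ} (h : x.hd ≠ T.nil) (hf : Run f x y s)
      (hl : Run (Prg.loop f) y z t) : Run (Prg.loop f) x z (s + t + x.size)
  | loopF {f : Prg} {x : T} (h : x.hd = T.nil) : Run (Prg.loop f) x x x.size

theorem T.one_le_size (x : T) : 1 ≤ x.size := by
  cases x <;> simp [T.size]

theorem T.hd_size (x : T) : x.hd.size ≤ x.size := by
  cases x <;> simp [T.size, T.hd]; omega

theorem T.tl_size (x : T) : x.tl.size ≤ x.size := by
  cases x <;> simp [T.size, T.tl]; omega

/-- The output is not larger than the running time. -/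
theorem Run.size_le {P : Prg} {x y : T} {t : ℕ} (h : Run P x y t) : y.size ≤ t := by
  induction h with
  | skip x => exact le_rfl
  | nil x => exact x.one_le_size
  | hd x => exact x.hd_size
  | tl x => exact x.tl_size
  | @cons f g x y z s t hf hg h1 h2 => have := x.one_le_size; simp only [T.size]; omega
  | seq hf hg h1 h2 => omega
  | iteT h hf h1 => omega
  | iteF h hf h1 => omega
  | loopT h hf hl h1 h2 => omega
  | loopF h => exact le_rfl

/-- Programs are deterministic. -/
theorem Run.det {P : Prg} {x y : T} {t : ℕ} (h : Run P x y t) :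
    ∀ {z : T} {s : ℕ}, Run P x z s → y = z ∧ t = s := by
  induction h with
  | skip x => intro z s h'; cases h'; exact ⟨rfl, rfl⟩
  | nil x => intro z s h'; cases h'; exact ⟨rfl, rfl⟩
  | hd x => intro z s h'; cases h'; exact ⟨rfl, rfl⟩
  | tl x => intro z s h'; cases h'; exact ⟨rfl, rfl⟩
  | cons hf hg h1 h2 =>
      intro z s h'
      cases h' with
      | cons hf' hg' =>
          obtain ⟨rfl, rfl⟩ := h1 hf'
          obtain ⟨rfl, rfl⟩ := h2 hg'
          exact ⟨rfl, rfl⟩
  | seq hf hg h1 h2 =>
      intro z s h'
      cases h' with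
      | seq hf' hg' =>
          obtain ⟨rfl, rfl⟩ := h1 hf'
          obtain ⟨rfl, rfl⟩ := h2 hg'
          exact ⟨rfl, rfl⟩
  | iteT h hf h1 =>
      intro z s h'
      cases h' with
      | iteT _ hf' =>
          obtain ⟨rfl, rfl⟩ := h1 hf'
          exact ⟨rfl, rfl⟩
      | iteF h0 _ => exact absurd h0 h
  | iteF h hf h1 =>
      intro z s h'
      cases h' with
      | iteT h0 _ => exact absurd h h0
      | iteF _ hf' =>
          obtain ⟨rfl, rfl⟩ := h1 hf'
          exact ⟨rfl, rfl⟩
  | loopT h hf hl h1 h2 =>
      intro z s h'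
      cases h' with
      | loopT _ hf' hl' =>
          obtain ⟨rfl, rfl⟩ := h1 hf'
          obtain ⟨rfl, rfl⟩ := h2 hl'
          exact ⟨rfl, rfl⟩
      | loopF h0 => exact absurd h0 h
  | loopF h =>
      intro z s h'
      cases h' with
      | loopT h0 _ _ => exact absurd h h0
      | loopF _ => exact ⟨rfl, rfl⟩

end Few
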