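import Pool.Agent.Lib.MP_9abc2e_lc.FEW.Circ

/-!
# FEW: distributions, samples, Occam bound
-/

set_option autoImplicit false

open scoped Classical

namespace Few

variable {n : ℕ}

/-- A probability distribution on the cube. -/
structure Dist (n : ℕ) where
  w : Cube n → ℝ
  nonneg : ∀ x, 0 ≤ w x
  sum_one : ∑ x, w x = 1

/-- Probability of an event. -/
noncomputable def Dist.pr (μ : Dist n) (A : Set (Cube n)) : ℝ := ∑ x, if x ∈ A then μ.w x else 0

/-- Probability of an event about `m` independent examples. -/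
noncomputable def Dist.prS (μ : Dist n) (m : ℕ) (A : Set (Fin m → Cube n)) : ℝ :=
  ∑ S : Fin m → Cube n, if S ∈ A then ∏ i, μ.w (S i) else 0

/-- The error of a hypothesis. -/
noncomputable def Dist.err (μ : Dist n) (f h : Cube n → Bool) : ℝ := μ.pr {x | h x ≠ f x}

/-- the weight of the points where the hypothesis is right -/
theorem sum_good (μ : Dist n) (f h : Cube n → Bool) :
    (∑ x, if h x = f x then μ.w x else 0) = 1 - μ.err f h := by
  rw [← μ.sum_one, Dist.err, Dist.pr, ← Finset.sum_sub_distrib]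
  refine Finset.sum_congr rfl fun x _ => ?_
  by_cases hx : h x = f x
  · rw [if_pos hx, if_neg (fun hc => hc hx), sub_zero]
  · rw [if_neg hx, if_pos (show x ∈ {x | h x ≠ f x} from hx), sub_self]

/-- the probability that `m` examples are all right -/
theorem sum_good_pow (μ : Dist n) (f h : Cube n → Bool) (m : ℕ) :
    (∑ S : Fin m → Cube n, if ∀ i, h (S i) = f (S i) then ∏ i, μ.w (S i) else 0) =
      (1 - μ.err f h) ^ m := by
  rw [← sum_good, Fintype.sum_pow]
  refine Finset.sum_congr rfl fun S _ => ?_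
  by_cases hS : ∀ i, h (S i) = f (S i)
  · rw [if_pos hS]
    exact Finset.prod_congr rfl fun i _ => (if_pos (hS i)).symm
  · rw [if_neg hS]
    push Not at hS
    obtain ⟨i, hi⟩ := hS
    exact (Finset.prod_eq_zero (Finset.mem_univ i) (if_neg hi)).symm

/-- Occam: a finite family of hypotheses. -/
theorem occam (μ : Dist n) (f : Cube n → Bool) {H : Type} [Fintype H] (h : H → Cube n → Bool)
    (m : ℕ) {ε : ℝ} (h0 : 0 ≤ ε) (h1 : ε ≤ 1) :
    μ.prS m {S | ∃ a, ε < μ.err f (h a) ∧ ∀ i, h a (S i) = f (S i)} ≤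
      Fintype.card H * (1 - ε) ^ m := by
  have hp : ∀ S : Fin m → Cube n, 0 ≤ ∏ i, μ.w (S i) := fun S =>
    Finset.prod_nonneg fun i _ => μ.nonneg _
  have h2 : μ.prS m {S | ∃ a, ε < μ.err f (h a) ∧ ∀ i, h a (S i) = f (S i)} ≤
      ∑ S : Fin m → Cube n, ∑ a : H, if ε < μ.err f (h a) ∧ ∀ i, h a (S i) = f (S i)
        then ∏ i, μ.w (S i) else 0 := by
    refine Finset.sum_le_sum fun S _ => ?_
    have hnn : ∀ a ∈ (Finset.univ : Finset H), 0 ≤
        (if ε < μ.err f (h a) ∧ ∀ i, h a (S i) = f (S i) then ∏ i, μ.w (S i) else (0 : ℝ)) := by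
      intro a _
      split_ifs
      · exact hp S
      · exact le_rfl
    by_cases hS : ∃ a, ε < μ.err f (h a) ∧ ∀ i, h a (S i) = f (S i)
    · rw [if_pos (show S ∈ {S | ∃ a, ε < μ.err f (h a) ∧ ∀ i, h a (S i) = f (S i)} from hS)]
      obtain ⟨a, ha⟩ := hS
      refine le_trans (le_of_eq ?_) (Finset.single_le_sum hnn (Finset.mem_univ a))
      rw [if_pos ha]
    · rw [if_neg (show ¬ S ∈ {S | ∃ a, ε < μ.err f (h a) ∧ ∀ i, h a (S i) = f (S i)} from hS)]
      exact Finset.sum_nonneg hnn
  refine h2.trans ?_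
  rw [Finset.sum_comm]
  refine (Finset.sum_le_card_nsmul Finset.univ _ ((1 - ε) ^ m) fun a _ => ?_).trans ?_
  · by_cases ha : ε < μ.err f (h a)
    · have h3 : (∑ S : Fin m → Cube n, if ε < μ.err f (h a) ∧ ∀ i, h a (S i) = f (S i)
          then ∏ i, μ.w (S i) else 0) = (1 - μ.err f (h a)) ^ m := by
        rw [← sum_good_pow]
        refine Finset.sum_congr rfl fun S _ => ?_
        by_cases hS : ∀ i, h a (S i) = f (S i)
        · rw [if_pos ⟨ha, hS⟩, if_pos hS]
        · rw [if_neg (fun hc => hS hc.2), if_neg hS]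
      rw [h3]
      refine pow_le_pow_left₀ ?_ (by linarith) m
      rw [← sum_good]
      refine Finset.sum_nonneg fun x _ => ?_
      split_ifs
      · exact μ.nonneg x
      · exact le_rfl
    · refine le_trans (le_of_eq (Finset.sum_eq_zero fun S _ => if_neg fun hc => ha hc.1)) ?_
      exact pow_nonneg (by linarith) m
  · rw [Finset.card_univ, nsmul_eq_mul]

theorem prS_mono (μ : Dist n) {m : ℕ} {A B : Set (Fin m → Cube n)} (h : A ⊆ B) :
    μ.prS m A ≤ μ.prS m B := by
  refine Finset.sum_le_sum fun S _ => ?_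
  have hp : 0 ≤ ∏ i, μ.w (S i) := Finset.prod_nonneg fun i _ => μ.nonneg _
  by_cases hA : S ∈ A
  · rw [if_pos hA, if_pos (h hA)]
  · rw [if_neg hA]
    split_ifs
    · exact hp
    · exact le_rfl

end Few
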