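import Pool.Agent.Lib.MP_9abc2e_lc.FEW.TreeD
import Pool.Agent.Lib.MP_9abc2e_lc.FEW.LgT

/-!
# FEW: the programs
-/

set_option autoImplicit false

namespace Few

variable {p : ℕ} [Fact p.Prime]

/-! ### features of the sample -/

noncomputable def prepS (p : ℕ) [Fact p.Prime] (z : T) : T :=
  T.cons (T.cons (featT p z.tl.tl.hd z.tl.tl.tl z.hd.hd) z.hd.tl) z.tl.hd

noncomputable def prepT (p : ℕ) [Fact p.Prime] (S D : T) : T :=
  revT (foldT (prepS p) (T.cons S D) S T.nil)

theorem prep_pt {u v : T → T} (hu : PT u) (hv : PT v) : PT fun x => prepT p (u x) (v x) := by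
  obtain ⟨C, hC⟩ := feat_size p
  refine rev_pt (PT.fold (g := prepS p) (((feat_pt PT.tl0.tl.hd PT.tl0.tl.tl PT.hd0.hd).cons
    PT.hd0.tl).cons PT.tl0.hd) (Grw.of_lin (C + 2) fun e a c => ?_) hu PT.nil (hu.cons hv))
  show (T.cons (T.cons (featT p c.hd c.tl e.hd) e.tl) a).size ≤ _
  rw [size_cons, size_cons]
  have h1 := hC c.hd c.tl e.hd
  have h2 : C * c.hd.size ≤ C * c.size := Nat.mul_le_mul_left _ c.hd_size
  have h3 := e.tl_size
  have h4 := c.one_le_size
  have h5 : (C + 2) * (e.size + c.size) = C * c.size + C * e.size + 2 * (e.size + c.size) := by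
    ring
  rw [h5]
  omega

theorem prep_eqT (D n : ℕ) (S : List (List Bool × Bool)) (hn : ∀ a ∈ S, a.1.length = n)
    (hm : (n + 1) ^ D ≤ S.length) :
    prepT p (lst (S.map fun a => T.cons (strT a.1) (bit a.2))) (unary D) =
      samT (S.map fun a => (feat p a.1 D, a.2)) := by
  have h : ∀ (cap : T), (n + 1) ^ D ≤ cap.len → ∀ (l : List (List Bool × Bool)) (o : List T),
      (∀ a ∈ l, a.1.length = n) →
      foldT (prepS p) (T.cons cap (unary D)) (lst (l.map fun a => T.cons (strT a.1) (bit a.2)))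
        (lst o) =
        lst ((l.map fun a => T.cons (vecT (feat p a.1 D)) (bit a.2)).reverse ++ o) := by
    intro cap hc l
    induction l with
    | nil => intro o _; rfl
    | cons a l ih =>
      intro o hl
      have h1 : featT p cap (unary D) (strT a.1) = vecT (feat p a.1 D) := by
        refine feat_eqT cap a.1 D ?_
        rw [hl a List.mem_cons_self]
        exact hc
      show foldT (prepS p) (T.cons cap (unary D))
        (lst (l.map fun a => T.cons (strT a.1) (bit a.2)))
        (T.cons (T.cons (featT p cap (unary D) (strT a.1)) (bit a.2)) (lst o)) = _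
      rw [h1, List.map_cons, List.reverse_cons, List.append_assoc]
      exact ih (T.cons (vecT (feat p a.1 D)) (bit a.2) :: o)
        fun b hb => hl b (List.mem_cons_of_mem _ hb)
  unfold prepT
  have h2 := h (lst (S.map fun a => T.cons (strT a.1) (bit a.2)))
    (by rw [len_lst, List.length_map]; exact hm) S [] hn
  rw [List.append_nil] at h2
  have h3 : lst ([] : List T) = T.nil := rfl
  rw [h3] at h2
  rw [h2, rev_eq, List.reverse_reverse]
  unfold samT
  rw [List.map_map]
  rfl

/-! ### the programs -/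

/-- the learner: the hypothesis is the input together with the state of the learner -/
noncomputable def AT (p : ℕ) [Fact p.Prime] (x : T) : T := T.cons x (learnT p (prepT p x.tl x.hd))

/-- evaluation of the hypothesis -/
noncomputable def ET (p : ℕ) [Fact p.Prime] (x : T) : T :=
  clsT p x.hd.tl (featT p x.hd.hd.tl x.hd.hd.hd x.tl)

theorem AT_pt : PT (AT p) := PT.id.cons (learn_pt (prep_pt PT.tl0 PT.hd0))

theorem ET_pt : PT (ET p) := cls_pt PT.hd0.tl (feat_pt PT.hd0.hd.tl PT.hd0.hd.hd PT.tl0)

theorem str_eq {n : ℕ} (x : Cube n) : str x = strT (List.ofFn x) := by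
  unfold str strT
  rw [List.map_ofFn]
  rfl

theorem smp_eq {n m : ℕ} (f : Cube n → Bool) (S : Fin m → Cube n) :
    smp f S = lst (((List.ofFn S).map fun x => (List.ofFn x, f x)).map
      fun a => T.cons (strT a.1) (bit a.2)) := by
  unfold smp
  rw [List.map_map, List.map_ofFn]
  congr 2
  funext i
  show T.cons (str (S i)) (bit (f (S i))) = T.cons (strT (List.ofFn (S i))) (bit (f (S i)))
  rw [str_eq]

/-- the hypothesis of the learner, as a function -/
noncomputable def hyp (p : ℕ) {n m : ℕ} (D : ℕ) (f : Cube n → Bool) (S : Fin m → Cube n)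
    (x : Cube n) : Bool :=
  cls (learn ((List.ofFn S).map fun x => (feat p (List.ofFn x) D, f x))) true
    (feat p (List.ofFn x) D)

theorem exists_progs (p : ℕ) [Fact p.Prime] : ∃ (A E : Prg) (c : ℕ), ∀ (n m D : ℕ)
    (f : Cube n → Bool) (S : Fin m → Cube n), (n + 1) ^ D ≤ m →
    (∃ τ ≤ ((T.cons (unary D) (smp f S)).size + 1) ^ c,
      Run A (T.cons (unary D) (smp f S)) (AT p (T.cons (unary D) (smp f S))) τ) ∧
    ∀ x : Cube n, ∃ τ ≤ ((T.cons (unary D) (smp f S)).size + (str x).size + 1) ^ c,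
      Run E (T.cons (AT p (T.cons (unary D) (smp f S))) (str x)) (bit (hyp p D f S x)) τ := by
  obtain ⟨A, a, hA⟩ := AT_pt (p := p)
  obtain ⟨E, b, hE⟩ := ET_pt (p := p)
  refine ⟨A, E, max a ((max a 1 + 1 + 1) * b), fun n m D f S hm => ?_⟩
  obtain ⟨t, h1, h2⟩ := hA (T.cons (unary D) (smp f S))
  refine ⟨⟨t, h2.trans (pw_le (le_max_left _ _)), h1⟩, fun x => ?_⟩
  obtain ⟨u, h3, h4⟩ := hE (T.cons (AT p (T.cons (unary D) (smp f S))) (str x))
  have h5 : ET p (T.cons (AT p (T.cons (unary D) (smp f S))) (str x)) =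
      bit (hyp p D f S x) := by
    show clsT p (learnT p (prepT p (smp f S) (unary D))) (featT p (smp f S) (unary D) (str x)) = _
    have h6 : prepT p (smp f S) (unary D) =
        samT ((List.ofFn S).map fun x => (feat p (List.ofFn x) D, f x)) := by
      rw [smp_eq, prep_eqT D n _ ?_ ?_, List.map_map]
      · rfl
      · intro a ha
        obtain ⟨x, _, rfl⟩ := List.mem_map.1 ha
        exact List.length_ofFn
      · rw [List.length_map, List.length_ofFn]
        exact hm
    have h7 : featT p (smp f S) (unary D) (str x) = vecT (feat p (List.ofFn x) D) := by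
      rw [str_eq]
      refine feat_eqT _ _ D ?_
      rw [List.length_ofFn]
      unfold smp
      rw [len_lst, List.length_ofFn]
      exact hm
    rw [h6, learn_eqT, h7]
    exact cls_eqT _ true _
  rw [h5] at h3
  refine ⟨u, h4.trans ?_, h3⟩
  have h8 : (AT p (T.cons (unary D) (smp f S))).size ≤
      ((T.cons (unary D) (smp f S)).size + 1) ^ a := h1.size_le.trans h2
  rw [size_cons]
  set s := (T.cons (unary D) (smp f S)).size with hs
  have h9 : 1 ≤ s := T.one_le_size _
  have h10 : (AT p (T.cons (unary D) (smp f S))).size + (str x).size ≤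
      (s + (str x).size + 1) ^ (max a 1 + 1) := by
    refine add_pw (by omega) (h8.trans (Nat.pow_le_pow_left (by omega) a)) ?_
    rw [pow_one]
    omega
  have h11 : (AT p (T.cons (unary D) (smp f S))).size + (str x).size + 1 + 1 ≤
      (s + (str x).size + 1) ^ (max a 1 + 1 + 1) := by
    have h12 := two_pw (s := s + (str x).size) (by omega) (max a 1 + 1)
    have h13 : 2 ≤ (s + (str x).size + 1) ^ (max a 1 + 1) := by
      calc 2 = 2 ^ 1 := rfl
        _ ≤ (s + (str x).size + 1) ^ 1 := Nat.pow_le_pow_left (by omega) 1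
        _ ≤ _ := pw_le (by omega)
    omega
  calc ((AT p (T.cons (unary D) (smp f S))).size + (str x).size + 1 + 1) ^ b
      ≤ ((s + (str x).size + 1) ^ (max a 1 + 1 + 1)) ^ b := Nat.pow_le_pow_left h11 b
    _ = (s + (str x).size + 1) ^ ((max a 1 + 1 + 1) * b) := by rw [pow_mul]
    _ ≤ _ := pw_le (le_max_right _ _)

/-- the learner which computes the parameter `D = (lg n) ^ a` from the sample -/
theorem exists_prog_lg (p : ℕ) [Fact p.Prime] (a : ℕ) : ∃ (A : Prg) (c : ℕ), ∀ (n m : ℕ)
    (f : Cube n → Bool) (S : Fin m → Cube n), 1 ≤ m →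
    ∃ τ ≤ ((smp f S).size + 1) ^ c,
      Run A (smp f S) (AT p (T.cons (unary (lg n ^ a)) (smp f S))) τ := by
  have h : PT fun x => AT p (T.cons (lgT a x) x) := AT_pt.comp ((lgT_pt a).cons PT.id)
  obtain ⟨A, c, hA⟩ := h
  refine ⟨A, c, fun n m f S hm => ?_⟩
  obtain ⟨t, h1, h2⟩ := hA (smp f S)
  refine ⟨t, h2, ?_⟩
  have h3 : AT p (T.cons (lgT a (smp f S)) (smp f S)) =
      AT p (T.cons (unary (lg n ^ a)) (smp f S)) := by
    rw [lgT_eq a f S hm]
  rw [← h3]
  exact h1

end Few
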