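import Pool.Agent.Lib.MP_9abc2e_lc.FEW.Key
import Pool.Agent.Lib.MP_9abc2e_lc.FEW.Cons
import Pool.Agent.Lib.MP_9abc2e_lc.FEW.Occam
import Pool.Agent.Lib.MP_9abc2e_lc.FEW.Numer
import Pool.Agent.Lib.MP_9abc2e_lc.FEW.Progs

/-!
# FEW: the theorem
-/

set_option autoImplicit false

namespace Few

/-! ### sizes of the inputs -/

theorem lst_size {K : ℕ} (l : List T) (h : ∀ a ∈ l, a.size ≤ K) :
    (lst l).size ≤ l.length * (K + 1) + 1 := by
  induction l with
  | nil =>
    show 1 ≤ 0 * (K + 1) + 1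
    omega
  | cons a l ih =>
    have h1 := ih fun b hb => h b (List.mem_cons_of_mem _ hb)
    have h2 := h a List.mem_cons_self
    show a.size + (lst l).size + 1 ≤ _
    rw [List.length_cons, add_mul, one_mul]
    omega

theorem bit_size (b : Bool) : (bit b).size ≤ 3 := by
  cases b
  · show 1 ≤ 3
    omega
  · exact le_rfl

theorem unary_size (k : ℕ) : (unary k).size ≤ 2 * k + 1 := by
  have h := lst_size (K := 1) (List.replicate k T.nil) fun a ha => by
    rw [List.eq_of_mem_replicate ha]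
    exact le_rfl
  rw [List.length_replicate] at h
  unfold unary
  omega

theorem str_size {n : ℕ} (x : Cube n) : (str x).size ≤ 4 * n + 1 := by
  have h := lst_size (K := 3) (List.ofFn fun i => bit (x i)) fun a ha => by
    obtain ⟨i, rfl⟩ := (List.mem_ofFn' _ _).1 ha
    exact bit_size _
  rw [List.length_ofFn] at h
  unfold str
  omega

theorem smp_size {n m : ℕ} (f : Cube n → Bool) (S : Fin m → Cube n) :
    (smp f S).size ≤ m * (4 * n + 6) + 1 := by
  have h := lst_size (K := 4 * n + 5) (List.ofFn fun i => T.cons (str (S i)) (bit (f (S i))))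
    fun a ha => by
      obtain ⟨i, rfl⟩ := (List.mem_ofFn' _ _).1 ha
      have h1 := str_size (S i)
      have h2 := bit_size (f (S i))
      rw [size_cons]
      omega
  rw [List.length_ofFn] at h
  exact h

/-- all inputs have size at most `m ^ 6` -/
theorem input_size {n m D : ℕ} (hm : 2 ≤ m) (hn : n ≤ m) (hD : D ≤ m) (f : Cube n → Bool)
    (S : Fin m → Cube n) (x : Cube n) :
    (T.cons (unary D) (smp f S)).size + (str x).size + 1 ≤ m ^ 6 := by
  have h1 := unary_size D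
  have h2 := smp_size f S
  have h3 := str_size x
  rw [size_cons]
  have h4 : m * (4 * n + 6) ≤ m * (4 * m + 6) := by gcongr
  have h5 : m * (4 * m + 6) + 6 * m + 6 ≤ m ^ 6 := by
    have h6 : 16 ≤ m ^ 4 := by
      calc 16 = 2 ^ 4 := rfl
        _ ≤ m ^ 4 := Nat.pow_le_pow_left hm 4
    have h7 : m ^ 6 = m ^ 4 * m ^ 2 := by ring
    have h8 : 16 * m ^ 2 ≤ m ^ 6 := by
      rw [h7]
      exact Nat.mul_le_mul_right _ h6
    nlinarith
  omega

/-! ### the family of hypotheses -/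

variable {p : ℕ}

theorem hypW_congr {n N : ℕ} (V : Cube n → Fin N → ZMod p)
    {W W' : ℕ → Submodule (ZMod p) (Fin N → ZMod p)} (x : Cube n) : ∀ k i : ℕ,
    (∀ j, i ≤ j → j < i + k → W j = W' j) → hypW V W k i x = hypW V W' k i x
  | 0, _, _ => rfl
  | k + 1, i, h => by
      have h1 : W i = W' i := h i le_rfl (by omega)
      have h2 := hypW_congr V x k (i + 1) fun j hj hj' => h j (by omega) (by omega)
      unfold hypW
      rw [h1, h2]

/-- every subspace is spanned by `N` vectors -/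
theorem exists_span [Fact p.Prime] {N : ℕ} (W : Submodule (ZMod p) (Fin N → ZMod p)) :
    ∃ a : Fin N → Fin N → ZMod p, Submodule.span (ZMod p) (Set.range a) = W := by
  have h1 : Module.finrank (ZMod p) W ≤ N := by
    have := Submodule.finrank_le W
    rwa [Module.finrank_fin_fun] at this
  set b := Module.finBasis (ZMod p) W
  refine ⟨fun i => if h : (i : ℕ) < Module.finrank (ZMod p) W then (b ⟨i, h⟩ : Fin N → ZMod p)
    else 0, ?_⟩
  refine le_antisymm ?_ ?_
  · rw [Submodule.span_le]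
    rintro _ ⟨i, rfl⟩
    show (if h : (i : ℕ) < Module.finrank (ZMod p) W then (b ⟨i, h⟩ : Fin N → ZMod p) else 0) ∈ W
    split_ifs with h
    · exact (b ⟨i, h⟩).2
    · exact W.zero_mem
  · intro w hw
    have h2 : (⟨w, hw⟩ : W) ∈ Submodule.span (ZMod p) (Set.range b) := by
      rw [b.span_eq]
      exact Submodule.mem_top
    have h3 := Submodule.apply_mem_span_image_of_mem_span W.subtype h2
    refine Submodule.span_mono ?_ h3
    rintro _ ⟨_, ⟨i, rfl⟩, rfl⟩
    refine ⟨⟨i, i.2.trans_le h1⟩, ?_⟩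
    show (if h : (i : ℕ) < Module.finrank (ZMod p) W then (b ⟨i, h⟩ : Fin N → ZMod p) else 0) = _
    rw [dif_pos i.2]
    rfl

/-- the hypothesis with the parameters `a` -/
noncomputable def fam {n N : ℕ} (V : Cube n → Fin N → ZMod p) (T₀ : ℕ)
    (a : Fin T₀ → Fin N → Fin N → ZMod p) : Cube n → Bool :=
  hypW V (fun i => if h : i < T₀ then Submodule.span (ZMod p) (Set.range (a ⟨i, h⟩)) else ⊥) T₀ 0

theorem exists_fam [Fact p.Prime] {n N : ℕ} (V : Cube n → Fin N → ZMod p) (T₀ : ℕ)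
    (W : ℕ → Submodule (ZMod p) (Fin N → ZMod p)) :
    ∃ a : Fin T₀ → Fin N → Fin N → ZMod p, ∀ x, hypW V W T₀ 0 x = fam V T₀ a x := by
  refine ⟨fun i => Classical.choose (exists_span (W i)), fun x => ?_⟩
  refine hypW_congr V x T₀ 0 fun j _ hj => ?_
  rw [zero_add] at hj
  rw [dif_pos hj]
  exact (Classical.choose_spec (exists_span (W j))).symm

theorem card_fam [Fact p.Prime] (T₀ N : ℕ) :
    Fintype.card (Fin T₀ → Fin N → Fin N → ZMod p) = p ^ (N * N * T₀) := by
  rw [Fintype.card_fun, Fintype.card_fun, Fintype.card_fun, ZMod.card, Fintype.card_fin,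
    Fintype.card_fin, ← pow_mul, ← pow_mul, mul_assoc]

/-! ### the learner succeeds -/

theorem one_sub_le {n : ℕ} (μ : Dist n) {m : ℕ} {A B : Set (Fin m → Cube n)}
    (h : ∀ S, S ∉ A → S ∈ B) : 1 - μ.prS m A ≤ μ.prS m B := by
  classical
  have h1 : (1 : ℝ) = ∑ S : Fin m → Cube n, ∏ i, μ.w (S i) := by
    have := Fintype.sum_pow μ.w m
    rw [μ.sum_one, one_pow] at this
    exact this
  rw [sub_le_iff_le_add, h1]
  unfold Dist.prS
  rw [← Finset.sum_add_distrib]
  refine Finset.sum_le_sum fun S _ => ?_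
  have hp : 0 ≤ ∏ i, μ.w (S i) := Finset.prod_nonneg fun i _ => μ.nonneg _
  by_cases hA : S ∈ A
  · rw [if_pos hA]
    split_ifs
    · linarith
    · linarith
  · rw [if_pos (h S hA)]
    split_ifs
    · linarith

theorem hyp_good [Fact p.Prime] {n d k t D m : ℕ} {f : Cube n → Bool}
    (hf : f ∈ FewWide p n d k t) (hD : (t + 1) * dg p k ^ d ≤ D) (S : Fin m → Cube n)
    (hm : (n + 1) ^ D * (2 * 2 ^ t) < m) :
    ∃ a : Fin (2 * 2 ^ t) → Fin ((n + 1) ^ D) → Fin ((n + 1) ^ D) → ZMod p,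
      (∀ x, hyp p D f S x =
        fam (fun x => vec ((n + 1) ^ D) (feat p (List.ofFn x) D)) (2 * 2 ^ t) a x) ∧
      ∀ i, hyp p D f S (S i) = f (S i) := by
  obtain ⟨ρ, hρ, hK⟩ := key hf
  have hX := chain_empty (p := p) (f := f)
    (V := fun x => vec ((n + 1) ^ D) (feat p (List.ofFn x) D)) (feat_rep D)
    (A := t * dg p k ^ d) (B := dg p k ^ d) (by
      rw [add_mul, one_mul] at hD
      exact hD) hρ hK
  have hφ : ∀ x : Cube n, (feat p (List.ofFn x) D).length = (n + 1) ^ D := by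
    intro x
    rw [feat_length, List.length_ofFn]
  have hφ0 : ∀ x : Cube n, isZ (feat p (List.ofFn x) D) = false := fun x => feat_nonzero _ _
  obtain ⟨W, hW⟩ := learn_hyp hφ hφ0 hX (List.ofFn S)
  obtain ⟨a, ha⟩ := exists_fam (fun x : Cube n => vec ((n + 1) ^ D) (feat p (List.ofFn x) D))
    (2 * 2 ^ t) W
  refine ⟨a, fun x => (hW x).trans (ha x), fun i => ?_⟩
  exact learn_cons hφ hφ0 hX (List.ofFn S) (by rw [List.length_ofFn]; exact hm) (S i)
    ((List.mem_ofFn' _ _).2 ⟨i, rfl⟩)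

/-- The samples `S` (the labels are the values of `f`) on which the program `A`, started on the tree
`inp S`, writes in time at most `B` a hypothesis `H` such that the Boolean function `h` computed by the
program `E` from `H` and the argument, in time at most `B`, has error at most `ε`. -/
def Good (A E : Prg) (B : ℕ) {n m : ℕ} (inp : (Fin m → Cube n) → T) (μ : Dist n)
    (f : Cube n → Bool) (ε : ℝ) : Set (Fin m → Cube n) :=
  {S | ∃ (H : T) (h : Cube n → Bool), (∃ τ ≤ B, Run A (inp S) H τ) ∧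
    (∀ x, ∃ τ ≤ B, Run E (T.cons H (str x)) (bit (h x)) τ) ∧ μ.err f h ≤ ε}

/-- the probability of failure -/
theorem prob_good [Fact p.Prime] {A E : Prg} {B n d k t D m : ℕ} {inp : (Fin m → Cube n) → T}
    (hn : 1 ≤ n) (hD : (t + 1) * dg p k ^ d ≤ D) {f : Cube n → Bool} (hf : f ∈ FewWide p n d k t)
    (μ : Dist n) {ε δ : ℝ} (hε : 0 < ε) (hε1 : ε ≤ 1) (hδ : 0 < δ) (hδ1 : δ ≤ 1)
    (hm : 4 * p * ((n + 1) ^ D) ^ 2 * 2 ^ t * (1 + Real.log (1 / δ)) / ε ≤ m)
    (hA : ∀ S, 2 ≤ m → n ≤ m → D ≤ m → (n + 1) ^ D ≤ m → ∃ H : T,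
      (∃ τ ≤ B, Run A (inp S) H τ) ∧
      ∀ x, ∃ τ ≤ B, Run E (T.cons H (str x)) (bit (hyp p D f S x)) τ) :
    1 - δ ≤ μ.prS m (Good A E B inp μ f ε) := by
  set N := (n + 1) ^ D with hN
  have hp : 2 ≤ p := (Fact.out : p.Prime).two_le
  have hlog : 0 ≤ Real.log (1 / δ) := Real.log_nonneg (by rw [le_div_iff₀ hδ]; linarith)
  have hNpos : 1 ≤ N := Nat.one_le_pow _ _ (Nat.succ_pos n)
  have h2t : 1 ≤ 2 ^ t := Nat.one_le_pow _ _ (by omega)
  have hTpos : 1 ≤ 2 * 2 ^ t := by omega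
  have h3 : 4 * p * N ^ 2 * 2 ^ t ≤ m := by
    have h4 : (4 * p * N ^ 2 * 2 ^ t : ℝ) ≤ m := by
      refine le_trans ?_ hm
      rw [le_div_iff₀ hε, hN]
      push_cast
      have h5 : (0 : ℝ) ≤ 4 * p * ((n + 1) ^ D) ^ 2 * 2 ^ t := by positivity
      nlinarith
    exact_mod_cast h4
  have h4 : N * (2 * 2 ^ t) ≤ N * N * (2 * 2 ^ t) :=
    Nat.mul_le_mul_right _ (Nat.le_mul_of_pos_left _ hNpos)
  have h5 : 4 * (N * N * (2 * 2 ^ t)) ≤ 4 * p * N ^ 2 * 2 ^ t := by
    calc 4 * (N * N * (2 * 2 ^ t)) = 4 * 2 * N ^ 2 * 2 ^ t := by ring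
      _ ≤ 4 * p * N ^ 2 * 2 ^ t := by gcongr
  have h6 : N ≤ N * (2 * 2 ^ t) := Nat.le_mul_of_pos_right _ hTpos
  have hmN : N * (2 * 2 ^ t) < m := by omega
  have hD1 : 1 ≤ D := le_trans (Nat.mul_pos (Nat.succ_pos t) (Nat.pow_pos (dg_pos p k))) hD
  have hDm : D ≤ m := by
    have h7 : D < 2 ^ D := Nat.lt_two_pow_self
    have h8 : 2 ^ D ≤ N := Nat.pow_le_pow_left (by omega) D
    omega
  have hnm : n ≤ m := by
    have h7 : (n + 1) ^ 1 ≤ N := Nat.pow_le_pow_right (Nat.succ_pos n) hD1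
    rw [pow_one] at h7
    omega
  have hocc := occam μ f (fam (p := p) (fun x => vec N (feat p (List.ofFn x) D)) (2 * 2 ^ t)) m
    hε.le hε1
  have hcard : (Fintype.card (Fin (2 * 2 ^ t) → Fin N → Fin N → ZMod p) : ℝ) * (1 - ε) ^ m ≤ δ := by
    rw [card_fam]
    push_cast
    refine numer_occam p (N * N * (2 * 2 ^ t)) (N * N * (2 * 2 ^ t)) (by omega) le_rfl ?_ hε hε1
      hδ hδ1 m ?_
    · exact Nat.mul_pos (Nat.mul_pos hNpos hNpos) hTpos
    · refine le_trans (le_of_eq ?_) hm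
      rw [hN]
      push_cast
      ring
  refine le_trans (sub_le_sub_left (hocc.trans hcard) 1) ?_
  refine one_sub_le μ fun S hS => ?_
  obtain ⟨H, hH1, hH2⟩ := hA S (by omega) hnm hDm (by omega)
  obtain ⟨α, hα1, hα2⟩ := hyp_good hf hD S hmN
  refine ⟨H, hyp p D f S, hH1, hH2, ?_⟩
  by_contra hcon
  refine hS ⟨α, ?_, fun i => ?_⟩
  · have h13 : hyp p D f S =
        fam (fun x => vec N (feat p (List.ofFn x) D)) (2 * 2 ^ t) α := funext hα1
    rw [← h13]
    exact not_le.1 hcon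
  · rw [← hα1]
    exact hα2 i

theorem pow_bound {m c s B : ℕ} (hm : 2 ≤ m) (hs : s ≤ m ^ 6) (hB : 6 * c ≤ B) : s ^ c ≤ m ^ B := by
  calc s ^ c ≤ (m ^ 6) ^ c := Nat.pow_le_pow_left hs c
    _ = m ^ (6 * c) := (pow_mul m 6 c).symm
    _ ≤ m ^ B := Nat.pow_le_pow_right (by omega) hB

/-- For every prime `p` there are a learning program `A`, an evaluation program `E` and a constant `c`
with the following property. Let `f` be computed by a circuit of depth `d` with at most `t` AND, OR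
gates of fan-in larger than `k`, the other gates being `MOD_p` gates, NOT gates and arbitrary gates of
fan-in at most `k` (any number of them), let `D ≥ (t + 1) K ^ d`, `K = max (k, p - 1, 1)`. For every
distribution on the cube: if `A` gets `D` and `m ≥ 4 p (n + 1) ^ (2 D) 2 ^ t (1 + log (1 / δ)) / ε`
random labelled examples, then with probability at least `1 - δ` it writes in time `m ^ c` a hypothesis
`H` which is evaluated by `E` in time `m ^ c` and has error at most `ε`.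

For all `d`, `κ` there are a program `A` and a constant `b` such that for every `f` computed by a circuit
of depth `d` with at most `(lg n) ^ κ` AND, OR gates of fan-in larger than `(lg n) ^ κ` (as above with
`k = t = (lg n) ^ κ`): if `A` gets `m = 2 ^ (lg n) ^ b * (1 + log (1 / δ)) / ε` random labelled examples
(and nothing else), then with probability at least `1 - δ` it writes in time `m ^ b` a hypothesis `H`
which is evaluated by `E` in time `m ^ b` and has error at most `ε`. -/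
theorem main (p : ℕ) [Fact p.Prime] : ∃ (A E : Prg) (c : ℕ),
    (∀ n d k t D : ℕ, 1 ≤ n → (t + 1) * dg p k ^ d ≤ D → ∀ f ∈ FewWide p n d k t,
      ∀ (μ : Dist n) (ε δ : ℝ), 0 < ε → ε ≤ 1 → 0 < δ → δ ≤ 1 → ∀ m : ℕ,
      4 * p * ((n + 1) ^ D) ^ 2 * 2 ^ t * (1 + Real.log (1 / δ)) / ε ≤ m →
      1 - δ ≤ μ.prS m (Good A E (m ^ c) (fun S => T.cons (unary D) (smp f S)) μ f ε)) ∧
    ∀ d κ : ℕ, ∃ (A' : Prg) (b : ℕ), ∀ n : ℕ, 2 ≤ n →
      ∀ f ∈ FewWide p n d (lg n ^ κ) (lg n ^ κ),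
      ∀ (μ : Dist n) (ε δ : ℝ), 0 < ε → ε ≤ 1 → 0 < δ → δ ≤ 1 → ∀ m : ℕ,
      m = ⌈2 ^ lg n ^ b * (1 + Real.log (1 / δ)) / ε⌉₊ →
      1 - δ ≤ μ.prS m (Good A' E (m ^ b) (fun S => smp f S) μ f ε) := by
  obtain ⟨A, E, c, hAE⟩ := exists_progs p
  refine ⟨A, E, 6 * c, ?_, fun d κ => ?_⟩
  · intro n d k t D hn hD f hf μ ε δ hε hε1 hδ hδ1 m hm
    refine prob_good hn hD hf μ hε hε1 hδ hδ1 hm fun S hm2 hnm hDm hNm => ?_
    obtain ⟨⟨τ, hτ, hrun⟩, hE⟩ := hAE n m D f S hNm
    refine ⟨_, ⟨τ, hτ.trans (pow_bound hm2 ?_ le_rfl), hrun⟩, fun x => ?_⟩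
    · have h11 := input_size hm2 hnm hDm f S (fun _ => false)
      have h12 := (str (fun _ => false : Cube n)).one_le_size
      omega
    · obtain ⟨σ, hσ, hrun'⟩ := hE x
      exact ⟨σ, hσ.trans (pow_bound hm2 (input_size hm2 hnm hDm f S x) le_rfl), hrun'⟩
  · obtain ⟨a, ha⟩ := numer_deg p d κ
    obtain ⟨A', c', hA'⟩ := exists_prog_lg p a
    obtain ⟨b₀, hb₀⟩ := numer_dim (2 * p) κ a
    refine ⟨A', max b₀ (max (6 * c) (6 * c')), fun n hn f hf μ ε δ hε hε1 hδ hδ1 m hm => ?_⟩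
    set b := max b₀ (max (6 * c) (6 * c')) with hb
    have hbc : 6 * c ≤ b := (le_max_left _ _).trans (le_max_right _ _)
    have hbc' : 6 * c' ≤ b := (le_max_right _ _).trans (le_max_right _ _)
    have h1 := hb₀ n b (le_max_left _ _)
    have hlog : 0 ≤ Real.log (1 / δ) := Real.log_nonneg (by rw [le_div_iff₀ hδ]; linarith)
    have hm' : 4 * p * ((n + 1) ^ lg n ^ a) ^ 2 * 2 ^ lg n ^ κ * (1 + Real.log (1 / δ)) / ε ≤ m := by
      refine le_trans ?_ (hm ▸ Nat.le_ceil _)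
      have h2 : (4 * p * ((n + 1) ^ lg n ^ a) ^ 2 * 2 ^ lg n ^ κ : ℝ) ≤ 2 ^ lg n ^ b := by
        have h3 : 4 * p * ((n + 1) ^ lg n ^ a) ^ 2 * 2 ^ lg n ^ κ ≤ 2 ^ lg n ^ b := by
          refine le_trans (le_of_eq ?_) (Nat.le_of_add_right_le h1)
          ring
        exact_mod_cast h3
      have h10 : 0 ≤ 1 + Real.log (1 / δ) := by linarith
      gcongr
    refine prob_good (by omega) (ha n a le_rfl) hf μ hε hε1 hδ hδ1 hm'
      fun S hm2 hnm hDm hNm => ?_
    obtain ⟨_, hE⟩ := hAE n m (lg n ^ a) f S hNm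
    obtain ⟨τ, hτ, hrun⟩ := hA' n m f S (by omega)
    refine ⟨_, ⟨τ, hτ.trans (pow_bound hm2 ?_ hbc'), hrun⟩, fun x => ?_⟩
    · have h11 := input_size hm2 hnm hDm f S (fun _ => false)
      have h12 := (str (fun _ => false : Cube n)).one_le_size
      rw [size_cons] at h11
      omega
    · obtain ⟨σ, hσ, hrun'⟩ := hE x
      exact ⟨σ, hσ.trans (pow_bound hm2 (input_size hm2 hnm hDm f S x) hbc), hrun'⟩

end Few
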