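import Pool.Agent.Lib.MP_9abc2e_lc.FEW.Enc

/-!
# FEW: functions computed in polynomial time, closure properties
-/

set_option autoImplicit false

namespace Few

/-- `f` is computed by a program in polynomial time. -/
def PT (f : T → T) : Prop :=
  ∃ (P : Prg) (c : ℕ), ∀ x, ∃ t, Run P x (f x) t ∧ t ≤ (x.size + 1) ^ c

/-! ### bounds -/

theorem pw_le {s a b : ℕ} (h : a ≤ b) : (s + 1) ^ a ≤ (s + 1) ^ b :=
  Nat.pow_le_pow_right (Nat.succ_pos s) h

theorem two_pw {s : ℕ} (hs : 1 ≤ s) (a : ℕ) : 2 * (s + 1) ^ a ≤ (s + 1) ^ (a + 1) := by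
  rw [pow_succ, mul_comm]
  exact Nat.mul_le_mul_left _ (by omega)

theorem add_pw {s u v a b : ℕ} (hs : 1 ≤ s) (hu : u ≤ (s + 1) ^ a) (hv : v ≤ (s + 1) ^ b) :
    u + v ≤ (s + 1) ^ (max a b + 1) := by
  have h1 := two_pw hs (max a b)
  have h2 : (s + 1) ^ a ≤ (s + 1) ^ max a b := pw_le (le_max_left _ _)
  have h3 : (s + 1) ^ b ≤ (s + 1) ^ max a b := pw_le (le_max_right _ _)
  omega

theorem self_pw (s : ℕ) : s ≤ (s + 1) ^ 1 := by
  rw [pow_one]
  omega

theorem const_pw {s : ℕ} (hs : 1 ≤ s) (k : ℕ) : k ≤ (s + 1) ^ k := by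
  have h1 : k < 2 ^ k := Nat.lt_two_pow_self
  have h2 : 2 ^ k ≤ (s + 1) ^ k := Nat.pow_le_pow_left (by omega) k
  omega

theorem comp_pw {s u a : ℕ} (hs : 1 ≤ s) (hu : u ≤ (s + 1) ^ a) (b : ℕ) :
    (u + 1) ^ b ≤ (s + 1) ^ ((a + 1) * b) := by
  rw [pow_mul]
  refine Nat.pow_le_pow_left ?_ b
  have h1 := two_pw hs a
  have h2 : 1 ≤ (s + 1) ^ a := Nat.one_le_pow _ _ (Nat.succ_pos s)
  omega

theorem mul_pw {s u v a b : ℕ} (hu : u ≤ (s + 1) ^ a) (hv : v ≤ (s + 1) ^ b) :
    u * v ≤ (s + 1) ^ (a + b) := by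
  rw [pow_add]
  exact Nat.mul_le_mul hu hv

/-! ### closure -/

theorem PT.congr {f g : T → T} (hf : PT f) (h : ∀ x, f x = g x) : PT g := by
  have : f = g := funext h
  rw [← this]
  exact hf

theorem PT.size {f : T → T} (hf : PT f) : ∃ c : ℕ, ∀ x, (f x).size ≤ (x.size + 1) ^ c := by
  obtain ⟨P, c, h⟩ := hf
  refine ⟨c, fun x => ?_⟩
  obtain ⟨t, h1, h2⟩ := h x
  exact h1.size_le.trans h2

theorem PT.id : PT fun x => x :=
  ⟨Prg.skip, 1, fun x => ⟨x.size, Run.skip x, self_pw _⟩⟩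

theorem PT.nil : PT fun _ => T.nil :=
  ⟨Prg.nil, 1, fun x => ⟨x.size, Run.nil x, self_pw _⟩⟩

theorem PT.hd0 : PT fun x => x.hd :=
  ⟨Prg.hd, 1, fun x => ⟨x.size, Run.hd x, self_pw _⟩⟩

theorem PT.tl0 : PT fun x => x.tl :=
  ⟨Prg.tl, 1, fun x => ⟨x.size, Run.tl x, self_pw _⟩⟩

theorem PT.comp {f g : T → T} (hg : PT g) (hf : PT f) : PT fun x => g (f x) := by
  obtain ⟨P, a, hP⟩ := hf
  obtain ⟨Q, b, hQ⟩ := hg
  refine ⟨Prg.seq P Q, max a ((a + 1) * b) + 1, fun x => ?_⟩
  obtain ⟨t, h1, h2⟩ := hP x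
  obtain ⟨u, h3, h4⟩ := hQ (f x)
  refine ⟨t + u, Run.seq h1 h3, ?_⟩
  refine add_pw x.one_le_size h2 (h4.trans ?_)
  exact comp_pw x.one_le_size (h1.size_le.trans h2) b

theorem PT.cons {f g : T → T} (hf : PT f) (hg : PT g) : PT fun x => T.cons (f x) (g x) := by
  obtain ⟨P, a, hP⟩ := hf
  obtain ⟨Q, b, hQ⟩ := hg
  refine ⟨Prg.cons P Q, max (max a b + 1) 1 + 1, fun x => ?_⟩
  obtain ⟨t, h1, h2⟩ := hP x
  obtain ⟨u, h3, h4⟩ := hQ x
  refine ⟨t + u + x.size, Run.cons h1 h3, ?_⟩
  exact add_pw x.one_le_size (add_pw x.one_le_size h2 h4) (self_pw _)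

theorem PT.hd {f : T → T} (hf : PT f) : PT fun x => (f x).hd := PT.hd0.comp hf

theorem PT.tl {f : T → T} (hf : PT f) : PT fun x => (f x).tl := PT.tl0.comp hf

theorem PT.ite0 {f g : T → T} (hf : PT f) (hg : PT g) :
    PT fun x => if x.hd = T.nil then g x else f x := by
  obtain ⟨P, a, hP⟩ := hf
  obtain ⟨Q, b, hQ⟩ := hg
  refine ⟨Prg.ite P Q, max (max a b) 1 + 1, fun x => ?_⟩
  by_cases h : x.hd = T.nil
  · obtain ⟨t, h1, h2⟩ := hQ x
    refine ⟨t + x.size, ?_, add_pw x.one_le_size (h2.trans (pw_le (le_max_right a b)))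
      (self_pw _)⟩
    simp only [h, if_true]
    exact Run.iteF h h1
  · obtain ⟨t, h1, h2⟩ := hP x
    refine ⟨t + x.size, ?_, add_pw x.one_le_size (h2.trans (pw_le (le_max_left a b)))
      (self_pw _)⟩
    simp only [h, if_false]
    exact Run.iteT h h1

/-- case distinction -/
theorem PT.ite {c f g : T → T} (hc : PT c) (hf : PT f) (hg : PT g) :
    PT fun x => if c x = T.nil then g x else f x :=
  ((hf.comp PT.tl0).ite0 (hg.comp PT.tl0)).comp (hc.cons PT.id)

theorem PT.const (a : T) : PT fun _ => a := by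
  induction a with
  | nil => exact PT.nil
  | cons a b ha hb => exact ha.cons hb

/-- the tree for `true` -/
def tt : T := T.cons T.nil T.nil

theorem tt_ne : tt ≠ T.nil := by
  intro h
  cases h

theorem PT.eqc (a : T) : PT fun x => if x = a then tt else T.nil := by
  induction a with
  | nil => exact PT.id.ite PT.nil (PT.const tt)
  | cons a b ha hb =>
    refine ((PT.id.ite ((ha.comp PT.hd0).ite (hb.comp PT.tl0) PT.nil) PT.nil)).congr fun x => ?_
    cases x with
    | nil => simp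
    | cons y z =>
      by_cases h1 : y = a
      · by_cases h2 : z = b
        · simp [T.hd, T.tl, h1, h2, tt_ne]
        · simp [T.hd, T.tl, h1, h2, tt_ne]
      · simp [T.hd, h1]

/-- table look-up -/
def look : List (T × T) → T → T
  | [], _ => T.nil
  | (a, b) :: l, x => if x = a then b else look l x

theorem PT.look (l : List (T × T)) : PT (look l) := by
  induction l with
  | nil => exact PT.nil
  | cons p l ih =>
    refine ((PT.eqc p.1).ite (PT.const p.2) ih).congr fun x => ?_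
    show (if (if x = p.1 then tt else T.nil) = T.nil then Few.look l x else p.2) =
      if x = p.1 then p.2 else Few.look l x
    by_cases h : x = p.1
    · simp [h, tt_ne]
    · simp [h]

theorem look_size (l : List (T × T)) : ∃ K : ℕ, ∀ z, (look l z).size ≤ K := by
  induction l with
  | nil => exact ⟨1, fun z => le_rfl⟩
  | cons p l ih =>
    obtain ⟨K, hK⟩ := ih
    refine ⟨max p.2.size K, fun z => ?_⟩
    show (if z = p.1 then p.2 else look l z).size ≤ _
    split_ifs
    · exact le_max_left _ _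
    · exact (hK z).trans (le_max_right _ _)

theorem look_mem {α : Type*} (e : α → T) (he : Function.Injective e) (h : α → T) (l : List α) :
    ∀ a ∈ l, look (l.map fun a => (e a, h a)) (e a) = h a := by
  induction l with
  | nil => intro a ha; cases ha
  | cons b l ih =>
    intro a ha
    show (if e a = e b then h b else look (l.map fun a => (e a, h a)) (e a)) = h a
    by_cases h1 : a = b
    · rw [h1, if_pos rfl]
    · rw [if_neg fun h2 => h1 (he h2)]
      exact ih a ((List.mem_cons.1 ha).resolve_left h1)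

/-- every function on a finite type is computed by a table -/
noncomputable def tab {α : Type*} [Fintype α] (e h : α → T) : T → T :=
  look ((Finset.univ : Finset α).toList.map fun a => (e a, h a))

theorem tab_pt {α : Type*} [Fintype α] (e h : α → T) : PT (tab e h) := PT.look _

theorem tab_size {α : Type*} [Fintype α] (e h : α → T) : ∃ K : ℕ, ∀ z, (tab e h z).size ≤ K :=
  look_size _

theorem tab_eq {α : Type*} [Fintype α] {e h : α → T} (he : Function.Injective e) (a : α) :
    tab e h (e a) = h a :=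
  look_mem e he h _ a (Finset.mem_toList.2 (Finset.mem_univ a))

end Few
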