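import Pool.Agent.Lib.MP_9abc2e_lc.FEW.Circ

/-!
# FEW: functions on the cube which are polynomials of degree at most D over F_p
-/

set_option autoImplicit false

namespace Few

variable {p n : ℕ}

/-- 0/1 value of a bit. -/
def bz (p : ℕ) (b : Bool) : ZMod p := if b then 1 else 0

/-- Monomial. -/
def mono (p : ℕ) {n : ℕ} (s : Finset (Fin n)) (x : Cube n) : ZMod p := ∏ i ∈ s, bz p (x i)

/-- The functions given by polynomials of degree at most `D`. -/
def Pol (p n D : ℕ) : Submodule (ZMod p) (Cube n → ZMod p) :=
  Submodule.span (ZMod p) {q | ∃ s : Finset (Fin n), s.card ≤ D ∧ q = mono p s}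

theorem Pol.le {D D' : ℕ} (h : D ≤ D') : Pol p n D ≤ Pol p n D' := by
  refine Submodule.span_mono ?_
  rintro q ⟨s, hs, rfl⟩
  exact ⟨s, hs.trans h, rfl⟩

theorem Pol.const {D : ℕ} (c : ZMod p) : (fun _ => c) ∈ Pol p n D := by
  have h : (fun _ : Cube n => c) = c • mono p (∅ : Finset (Fin n)) := by
    funext x
    simp [mono]
  rw [h]
  exact Submodule.smul_mem _ _ (Submodule.subset_span ⟨∅, by simp, rfl⟩)

theorem Pol.bit (j : Fin n) : (fun x => bz p (x j)) ∈ Pol p n 1 := by
  refine Submodule.subset_span ⟨{j}, by simp, ?_⟩
  funext x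
  simp [mono]

private theorem bz_sq (b : Bool) : bz p b * bz p b = bz p b := by
  cases b <;> simp [bz]

private theorem mono_mul (s t : Finset (Fin n)) (x : Cube n) :
    mono p s x * mono p t x = mono p (s ∪ t) x := by
  classical
  induction s using Finset.induction_on with
  | empty => simp [mono]
  | insert a s ha ih =>
    have h1 : mono p (insert a s) x = bz p (x a) * mono p s x := Finset.prod_insert ha
    rw [h1, mul_assoc, ih, Finset.insert_union]
    by_cases h : a ∈ s ∪ t
    · rw [Finset.insert_eq_of_mem h]
      have h2 : mono p (s ∪ t) x = bz p (x a) * mono p ((s ∪ t).erase a) x :=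
        (Finset.mul_prod_erase (s ∪ t) (fun i => bz p (x i)) h).symm
      rw [h2, ← mul_assoc, bz_sq]
    · exact (Finset.prod_insert (f := fun i => bz p (x i)) h).symm

/-- product of monomials = monomial of the union -/
theorem Pol.mul {D D' : ℕ} {q r : Cube n → ZMod p} (hq : q ∈ Pol p n D) (hr : r ∈ Pol p n D') :
    (fun x => q x * r x) ∈ Pol p n (D + D') := by
  classical
  refine Submodule.span_induction (p := fun q _ => (fun x => q x * r x) ∈ Pol p n (D + D'))
    ?_ ?_ ?_ ?_ hq
  · rintro _ ⟨s, hs, rfl⟩
    refine Submodule.span_induction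
      (p := fun r _ => (fun x => mono p s x * r x) ∈ Pol p n (D + D')) ?_ ?_ ?_ ?_ hr
    · rintro _ ⟨t, ht, rfl⟩
      refine Submodule.subset_span ⟨s ∪ t, (Finset.card_union_le s t).trans (by omega), ?_⟩
      funext x
      exact mono_mul s t x
    · have h : (fun x => mono p s x * (0 : Cube n → ZMod p) x) = 0 := by
        funext x
        simp
      rw [h]
      exact Submodule.zero_mem _
    · intro u v _ _ hu hv
      have h : (fun x => mono p s x * (u + v) x) =
          (fun x => mono p s x * u x) + fun x => mono p s x * v x := by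
        funext x
        simp [mul_add]
      rw [h]
      exact Submodule.add_mem _ hu hv
    · intro c u _ hu
      have h : (fun x => mono p s x * (c • u) x) = c • fun x => mono p s x * u x := by
        funext x
        simp only [Pi.smul_apply, smul_eq_mul]
        ring
      rw [h]
      exact Submodule.smul_mem _ _ hu
  · have h : (fun x => (0 : Cube n → ZMod p) x * r x) = 0 := by
      funext x
      simp
    rw [h]
    exact Submodule.zero_mem _
  · intro u v _ _ hu hv
    have h : (fun x => (u + v) x * r x) = (fun x => u x * r x) + fun x => v x * r x := by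
      funext x
      simp [add_mul]
    rw [h]
    exact Submodule.add_mem _ hu hv
  · intro c u _ hu
    have h : (fun x => (c • u) x * r x) = c • fun x => u x * r x := by
      funext x
      simp only [Pi.smul_apply, smul_eq_mul]
      ring
    rw [h]
    exact Submodule.smul_mem _ _ hu

theorem Pol.pow {D : ℕ} {q : Cube n → ZMod p} (hq : q ∈ Pol p n D) (k : ℕ) :
    (fun x => q x ^ k) ∈ Pol p n (k * D) := by
  induction k with
  | zero =>
    simp only [pow_zero]
    exact Pol.const 1
  | succ k ih =>
    have h := Pol.mul ih hq
    have e : k * D + D = (k + 1) * D := by ring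
    rw [e] at h
    simp only [pow_succ]
    exact h

theorem Pol.prodL {D : ℕ} (l : List (Cube n → ZMod p)) (h : ∀ q ∈ l, q ∈ Pol p n D) :
    (fun x => (l.map fun q => q x).prod) ∈ Pol p n (l.length * D) := by
  induction l with
  | nil =>
    simp only [List.map_nil, List.prod_nil]
    exact Pol.const 1
  | cons a l ih =>
    have h1 := Pol.mul (h a List.mem_cons_self) (ih fun q hq => h q (List.mem_cons_of_mem a hq))
    simp only [List.map_cons, List.prod_cons, List.length_cons]
    have e : D + l.length * D = (l.length + 1) * D := by ring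
    rw [e] at h1
    exact h1

theorem Pol.sumL {D : ℕ} (l : List (Cube n → ZMod p)) (h : ∀ q ∈ l, q ∈ Pol p n D) :
    (fun x => (l.map fun q => q x).sum) ∈ Pol p n D := by
  induction l with
  | nil =>
    simp only [List.map_nil, List.sum_nil]
    exact Pol.const 0
  | cons a l ih =>
    simp only [List.map_cons, List.sum_cons]
    exact Submodule.add_mem _ (h a List.mem_cons_self)
      (ih fun q hq => h q (List.mem_cons_of_mem a hq))

theorem Pol.sub1 {D : ℕ} {q : Cube n → ZMod p} (hq : q ∈ Pol p n D) :
    (fun x => 1 - q x) ∈ Pol p n D :=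
  Submodule.sub_mem _ (Pol.const 1) hq

end Few
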