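import Pool.Agent.Lib.MP_9abc2e_lc.FEW.Fold
import Pool.Agent.Lib.MP_9abc2e_lc.FEW.Alg

/-!
# FEW: the learner on trees, part A: reversing lists, tables for `ZMod p`, elimination step

`…T` = the function on trees, `…_pt` = it is computed in polynomial time, `…_eq` = it is the function on
lists.
-/

set_option autoImplicit false

namespace Few

theorem size_nil : T.nil.size = 1 := rfl

theorem size_cons (a b : T) : (T.cons a b).size = a.size + b.size + 1 := rfl

theorem hd_cons (a b : T) : (T.cons a b).hd = a := rfl

theorem tl_cons (a b : T) : (T.cons a b).tl = b := rfl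

theorem foldT_nil (g : T → T) (c a : T) : foldT g c T.nil a = a := rfl

theorem foldT_cons (g : T → T) (c e l a : T) :
    foldT g c (T.cons e l) a = foldT g c l (g (T.cons e (T.cons a c))) := rfl

/-- length of a list -/
def T.len : T → ℕ
  | T.nil => 0
  | T.cons _ l => l.len + 1

theorem T.len_size : ∀ x : T, 2 * x.len + 1 ≤ x.size
  | T.nil => le_rfl
  | T.cons a l => by
      have h1 := T.len_size l
      have h2 := a.one_le_size
      show 2 * (l.len + 1) + 1 ≤ a.size + l.size + 1
      omega

theorem len_lst (l : List T) : (lst l).len = l.length := by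
  induction l with
  | nil => rfl
  | cons a l ih =>
    show (lst l).len + 1 = _
    rw [ih, List.length_cons]

/-- a simple growth condition -/
theorem Grw.of_lin {g : T → T} (K : ℕ)
    (h : ∀ e a c : T, (g (T.cons e (T.cons a c))).size ≤ a.size + K * (e.size + c.size)) : Grw g :=
  ⟨K, 1, fun e a c => by rw [pow_one]; exact h e a c⟩

/-! ### reversing -/

def rvS (z : T) : T := T.cons z.hd z.tl.hd

def revT (l : T) : T := foldT rvS T.nil l T.nil

theorem rv_lst (l a : List T) : foldT rvS T.nil (lst l) (lst a) = lst (l.reverse ++ a) := by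
  induction l generalizing a with
  | nil => rfl
  | cons b l ih =>
    show foldT rvS T.nil (lst l) (lst (b :: a)) = _
    rw [ih, List.reverse_cons, List.append_assoc]
    rfl

theorem rev_eq (l : List T) : revT (lst l) = lst l.reverse := by
  have := rv_lst l []
  rw [List.append_nil] at this
  exact this

theorem rv_size : ∀ l a : T, (foldT rvS T.nil l a).size + 1 = l.size + a.size
  | T.nil, a => by
      show a.size + 1 = 1 + a.size
      omega
  | T.cons e l, a => by
      have := rv_size l (T.cons e a)
      rw [size_cons] at this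
      show (foldT rvS T.nil l (T.cons e a)).size + 1 = e.size + l.size + 1 + a.size
      omega

theorem rev_size (l : T) : (revT l).size = l.size := by
  have := rv_size l T.nil
  rw [size_nil] at this
  exact Nat.succ_injective this

theorem rv_len : ∀ l a : T, (foldT rvS T.nil l a).len = l.len + a.len
  | T.nil, a => by
      show a.len = 0 + a.len
      omega
  | T.cons e l, a => by
      have := rv_len l (T.cons e a)
      show (foldT rvS T.nil l (T.cons e a)).len = l.len + 1 + a.len
      rw [this]
      show l.len + (a.len + 1) = _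
      omega

theorem rev_len (l : T) : (revT l).len = l.len := rv_len l T.nil

theorem rev_pt {u : T → T} (hu : PT u) : PT fun x => revT (u x) := by
  refine PT.fold (PT.hd0.cons PT.tl0.hd) (Grw.of_lin 1 fun e a c => ?_) hu PT.nil PT.nil
  show (T.cons e a).size ≤ _
  have := c.one_le_size
  rw [size_cons]
  omega

/-- adding an element at the end -/
def snocT (l r : T) : T := revT (T.cons r (revT l))

theorem snoc_eq (l : List T) (r : T) : snocT (lst l) r = lst (l ++ [r]) := by
  unfold snocT
  rw [rev_eq]
  have := rev_eq (r :: l.reverse)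
  rw [List.reverse_cons, List.reverse_reverse] at this
  exact this

theorem snoc_size (l r : T) : (snocT l r).size = r.size + l.size + 1 := by
  unfold snocT
  rw [rev_size, size_cons, rev_size]

theorem snoc_pt {u v : T → T} (hu : PT u) (hv : PT v) : PT fun x => snocT (u x) (v x) :=
  rev_pt (hv.cons (rev_pt hu))

/-! ### elements of `ZMod p` and tables -/

theorem unary_succ (k : ℕ) : unary (k + 1) = T.cons T.nil (unary k) := rfl

theorem unary_inj : ∀ {j k : ℕ}, unary j = unary k → j = k
  | 0, 0, _ => rfl
  | 0, k + 1, h => by rw [unary_succ] at h; cases h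
  | j + 1, 0, h => by rw [unary_succ] at h; cases h
  | j + 1, k + 1, h => by
      rw [unary_succ, unary_succ] at h
      have h1 := T.cons.inj h
      rw [unary_inj h1.2]

variable {p : ℕ}

/-- code of an element of `ZMod p` -/
def fe (a : ZMod p) : T := unary a.val

theorem fe_zero : fe (0 : ZMod p) = T.nil := by
  unfold fe
  rw [ZMod.val_zero]
  rfl

variable [Fact p.Prime]

theorem fe_inj : Function.Injective (fe (p := p)) := fun _ _ h => ZMod.val_injective p (unary_inj h)

theorem fe_eq_nil {a : ZMod p} : fe a = T.nil ↔ a = 0 := by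
  rw [← fe_zero (p := p)]
  exact fe_inj.eq_iff

def e2 (x : ZMod p × ZMod p) : T := T.cons (fe x.1) (fe x.2)

theorem e2_inj : Function.Injective (e2 (p := p)) := by
  intro x y h
  have h1 := T.cons.inj h
  exact Prod.ext (fe_inj h1.1) (fe_inj h1.2)

def e3 (x : ZMod p × ZMod p × ZMod p) : T := T.cons (fe x.1) (T.cons (fe x.2.1) (fe x.2.2))

theorem e3_inj : Function.Injective (e3 (p := p)) := by
  intro x y h
  have h1 := T.cons.inj h
  have h2 := T.cons.inj h1.2
  exact Prod.ext (fe_inj h1.1) (Prod.ext (fe_inj h2.1) (fe_inj h2.2))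

/-- the quotient -/
noncomputable def quT (p : ℕ) [Fact p.Prime] : T → T :=
  tab (e2 (p := p)) fun x => fe (x.2 * x.1⁻¹)

/-- `v - q * b` for `(q, v, b)` -/
noncomputable def suT (p : ℕ) [Fact p.Prime] : T → T :=
  tab (e3 (p := p)) fun x => fe (x.2.1 - x.1 * x.2.2)

/-- normalization -/
noncomputable def noT (p : ℕ) [Fact p.Prime] : T → T := tab (fe (p := p)) fe

theorem quT_eq (a b : ZMod p) : quT p (T.cons (fe a) (fe b)) = fe (b * a⁻¹) :=
  tab_eq e2_inj (a, b)

theorem suT_eq (q v b : ZMod p) : suT p (T.cons (fe q) (T.cons (fe v) (fe b))) = fe (v - q * b) :=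
  tab_eq e3_inj (q, v, b)

theorem noT_eq (a : ZMod p) : noT p (fe a) = fe a := tab_eq fe_inj a

/-- code of a vector -/
def vecT (v : List (ZMod p)) : T := lst (v.map fe)

omit [Fact p.Prime] in
theorem vecT_nil : vecT ([] : List (ZMod p)) = T.nil := rfl

omit [Fact p.Prime] in
theorem vecT_cons (a : ZMod p) (v : List (ZMod p)) : vecT (a :: v) = T.cons (fe a) (vecT v) := rfl

/-! ### the pivot -/

def pivS (z : T) : T :=
  if z.tl.hd.hd = T.nil then
    (if z.hd = T.nil then T.cons T.nil z.tl.hd.tl.tl else T.cons (T.cons z.hd z.tl.hd.tl.hd) T.nil)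
  else z.tl.hd

theorem pivS_mk (e a c : T) : pivS (T.cons e (T.cons a c)) =
    if a.hd = T.nil then (if e = T.nil then T.cons T.nil a.tl.tl else
      T.cons (T.cons e a.tl.hd) T.nil) else a := rfl

/-- the entries of `b` and `v` at the first nonzero entry of `b` (`nil` if there is none) -/
def pivT (b v : T) : T := (foldT pivS T.nil b (T.cons T.nil v)).hd

theorem piv_pt {u v : T → T} (hu : PT u) (hv : PT v) : PT fun x => pivT (u x) (v x) := by
  refine PT.hd (PT.fold (g := pivS) ?_ (Grw.of_lin 3 fun e a c => ?_) hu (PT.nil.cons hv) PT.nil)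
  · exact PT.tl0.hd.hd.ite PT.tl0.hd (PT.hd0.ite ((PT.hd0.cons PT.tl0.hd.tl.hd).cons PT.nil)
      (PT.nil.cons PT.tl0.hd.tl.tl))
  · rw [pivS_mk]
    have h1 := a.tl_size
    have h2 := a.tl.tl_size
    have h3 := a.tl.hd_size
    have h4 := e.one_le_size
    have h5 := c.one_le_size
    split_ifs
    · rw [size_cons, size_nil]
      omega
    · rw [size_cons, size_cons, size_nil]
      omega
    · omega

theorem piv_found (l a b w : T) :
    foldT pivS T.nil l (T.cons (T.cons a b) w) = T.cons (T.cons a b) w := by
  induction l with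
  | nil => rfl
  | cons e l _ ih =>
    rw [foldT_cons]
    exact ih

theorem piv_eq (b v : List (ZMod p)) :
    T.cons (pivT (vecT b) (vecT v)).hd (pivT (vecT b) (vecT v)).tl = e2 (piv b v) := by
  induction b generalizing v with
  | nil =>
    show T.cons T.nil T.nil = T.cons (fe 0) (fe 0)
    rw [fe_zero]
  | cons b bs ih =>
    have h0 : piv (b :: bs) v = if b = 0 then piv bs v.tail else (b, v.headD 0) := rfl
    unfold pivT
    rw [vecT_cons, foldT_cons, h0]
    by_cases h : b = 0
    · have h1 : pivS (T.cons (fe b) (T.cons (T.cons T.nil (vecT v)) T.nil)) =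
          T.cons T.nil (vecT v.tail) := by
        rw [pivS_mk, hd_cons, if_pos rfl, if_pos (fe_eq_nil.2 h)]
        cases v <;> rfl
      rw [h1, if_pos h]
      exact ih v.tail
    · have h1 : pivS (T.cons (fe b) (T.cons (T.cons T.nil (vecT v)) T.nil)) =
          T.cons (T.cons (fe b) (fe (v.headD 0))) T.nil := by
        rw [pivS_mk, hd_cons, if_pos rfl, if_neg fun h2 => h (fe_eq_nil.1 h2)]
        cases v with
        | nil =>
          rw [List.headD_nil, fe_zero]
          rfl
        | cons a v => rfl
      rw [h1, piv_found, if_neg h]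
      rfl

/-! ### the elimination step -/

noncomputable def stpS (p : ℕ) [Fact p.Prime] (z : T) : T :=
  if z.tl.hd.tl = T.nil then z.tl.hd
  else T.cons (T.cons (suT p (T.cons z.tl.tl (T.cons z.tl.hd.tl.hd z.hd))) z.tl.hd.hd)
    z.tl.hd.tl.tl

theorem stpS_mk (e a c : T) : stpS p (T.cons e (T.cons a c)) =
    if a.tl = T.nil then a
    else T.cons (T.cons (suT p (T.cons c (T.cons a.tl.hd e))) a.hd) a.tl.tl := rfl

noncomputable def qfT (p : ℕ) [Fact p.Prime] (v b : T) : T :=
  quT p (T.cons (pivT b v).hd (pivT b v).tl)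

noncomputable def stpT (p : ℕ) [Fact p.Prime] (v b : T) : T :=
  revT (foldT (stpS p) (qfT p v b) b (T.cons T.nil v)).hd

theorem qf_pt {u v : T → T} (hu : PT u) (hv : PT v) : PT fun x => qfT p (u x) (v x) :=
  (tab_pt _ _).comp ((piv_pt hv hu).hd.cons (piv_pt hv hu).tl)

theorem stpS_pt : PT (stpS p) :=
  PT.tl0.hd.tl.ite ((((tab_pt _ _).comp (PT.tl0.tl.cons (PT.tl0.hd.tl.hd.cons PT.hd0))).cons
    PT.tl0.hd.hd).cons PT.tl0.hd.tl.tl) PT.tl0.hd

theorem stpS_grw : Grw (stpS p) := by
  obtain ⟨K, hK⟩ := tab_size (e3 (p := p)) fun x => fe (x.2.1 - x.1 * x.2.2)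
  refine Grw.of_lin (K + 2) fun e a c => ?_
  rw [stpS_mk]
  have h0 : (suT p (T.cons c (T.cons a.tl.hd e))).size ≤ K := hK _
  have h4 := e.one_le_size
  have h5 := c.one_le_size
  split_ifs with h
  · omega
  · have h6 : a = T.cons a.hd a.tl := T.eta fun h7 => h (by rw [h7]; rfl)
    have h7 : a.size = a.hd.size + a.tl.size + 1 := by
      conv_lhs => rw [h6]
      rw [size_cons]
    rw [size_cons, size_cons]
    have h1 := a.tl.tl_size
    have h2 : K ≤ K * (e.size + c.size) := Nat.le_mul_of_pos_right _ (by omega)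
    rw [add_mul]
    omega

theorem stp_pt {u v : T → T} (hu : PT u) (hv : PT v) : PT fun x => stpT p (u x) (v x) :=
  rev_pt (PT.hd (PT.fold stpS_pt stpS_grw hv (PT.nil.cons hu) (qf_pt hu hv)))

theorem stp_stop (q l o : T) : foldT (stpS p) q l (T.cons o T.nil) = T.cons o T.nil := by
  induction l with
  | nil => rfl
  | cons e l _ ih =>
    rw [foldT_cons]
    exact ih

theorem stp_lst (q : ZMod p) (b v : List (ZMod p)) (o : List T) :
    (foldT (stpS p) (fe q) (vecT b) (T.cons (lst o) (vecT v))).hd =
      lst (((List.zipWith (fun vi bi => vi - q * bi) v b).map fe).reverse ++ o) := by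
  induction b generalizing v o with
  | nil =>
    rw [List.zipWith_nil_right]
    rfl
  | cons b bs ih =>
    cases v with
    | nil =>
      rw [vecT_nil, stp_stop]
      rfl
    | cons a v =>
      rw [vecT_cons, foldT_cons]
      have h1 : stpS p (T.cons (fe b) (T.cons (T.cons (lst o) (vecT (a :: v))) (fe q))) =
          T.cons (lst (fe (a - q * b) :: o)) (vecT v) := by
        rw [stpS_mk, if_neg (by intro h; cases h)]
        have h2 := suT_eq q a b
        show T.cons (T.cons (suT p (T.cons (fe q) (T.cons (fe a) (fe b)))) (lst o)) (vecT v) = _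
        rw [h2]
        rfl
      rw [h1, ih, List.zipWith_cons_cons, List.map_cons, List.reverse_cons, List.append_assoc]
      rfl

theorem stp_eq (v b : List (ZMod p)) : stpT p (vecT v) (vecT b) = vecT (stp v b) := by
  unfold stpT
  have h1 : qfT p (vecT v) (vecT b) = fe ((piv b v).2 * (piv b v).1⁻¹) := by
    unfold qfT
    rw [piv_eq]
    exact tab_eq e2_inj (piv b v)
  rw [h1]
  have h2 := stp_lst ((piv b v).2 * (piv b v).1⁻¹) b v []
  rw [List.append_nil] at h2
  have h3 : lst ([] : List T) = T.nil := rfl
  rw [h3] at h2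
  rw [h2, rev_eq, List.reverse_reverse]
  rfl

/-- sizes in the elimination step -/
theorem stp_fold_size {K : ℕ} (hK : ∀ z, (suT p z).size ≤ K) (q : T) : ∀ b o r : T,
    ∃ o' r' : T, foldT (stpS p) q b (T.cons o r) = T.cons o' r' ∧
      o'.size + (K + 1) * r'.len ≤ o.size + (K + 1) * r.len ∧
      o'.size ≤ o.size + (K + 1) * b.len ∧ o'.len + r'.len ≤ o.len + r.len
  | T.nil, o, r => ⟨o, r, rfl, le_rfl, by omega, le_rfl⟩
  | T.cons e b, o, r => by
      cases r with
      | nil =>
        refine ⟨o, T.nil, ?_, le_rfl, by omega, le_rfl⟩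
        exact stp_stop q (T.cons e b) o
      | cons a r =>
        rw [foldT_cons]
        have h1 : stpS p (T.cons e (T.cons (T.cons o (T.cons a r)) q)) =
            T.cons (T.cons (suT p (T.cons q (T.cons a e))) o) r := by
          rw [stpS_mk, if_neg (by intro h; cases h)]
          rfl
        rw [h1]
        obtain ⟨o', r', h2, h3, h4, h5⟩ := stp_fold_size hK q b
          (T.cons (suT p (T.cons q (T.cons a e))) o) r
        have h6 := hK (T.cons q (T.cons a e))
        rw [size_cons] at h3 h4
        have h7 : (T.cons a r).len = r.len + 1 := rfl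
        have h8 : (T.cons e b).len = b.len + 1 := rfl
        have h9 : (T.cons (suT p (T.cons q (T.cons a e))) o).len = o.len + 1 := rfl
        refine ⟨o', r', h2, ?_, ?_, ?_⟩
        · rw [h7, mul_add]
          omega
        · rw [h8, mul_add]
          omega
        · omega

theorem stp_size {K : ℕ} (hK : ∀ z, (suT p z).size ≤ K) (v b : T) :
    (stpT p v b).size ≤ 1 + (K + 1) * v.len ∧ (stpT p v b).size ≤ 1 + (K + 1) * b.len ∧
      (stpT p v b).len ≤ v.len := by
  obtain ⟨o, r, h1, h2, h3, h4⟩ := stp_fold_size hK (qfT p v b) b T.nil v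
  have h5 : stpT p v b = revT o := by
    unfold stpT
    rw [h1]
    rfl
  rw [h5, rev_size, rev_len]
  rw [size_nil] at h2 h3
  have h6 : T.nil.len = 0 := rfl
  rw [h6] at h4
  refine ⟨?_, h3, by omega⟩
  omega

end Few
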