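import Pool.Agent.Lib.MP_9abc2e_lc.FEW.TreeA

/-!
# FEW: the learner on trees, part B: reduction, prediction, update, passes
-/

set_option autoImplicit false

namespace Few

variable {p : ℕ} [Fact p.Prime]

/-! ### reduction -/

noncomputable def redS (p : ℕ) [Fact p.Prime] (z : T) : T := stpT p z.tl.hd z.hd

noncomputable def redT (p : ℕ) [Fact p.Prime] (B v : T) : T := foldT (redS p) T.nil B v

theorem exists_suK (p : ℕ) [Fact p.Prime] : ∃ K : ℕ, ∀ z, (suT p z).size ≤ K :=
  tab_size (e3 (p := p)) fun x => fe (x.2.1 - x.1 * x.2.2)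

theorem red_pt {u v : T → T} (hu : PT u) (hv : PT v) : PT fun x => redT p (u x) (v x) := by
  obtain ⟨K, hK⟩ := exists_suK p
  refine PT.fold (g := redS p) (stp_pt PT.tl0.hd PT.hd0) (Grw.of_lin (K + 2) fun e a c => ?_) hu hv
    PT.nil
  have h1 := (stp_size hK a e).2.1
  have h2 := e.len_size
  show (stpT p a e).size ≤ _
  have h3 : (K + 1) * e.len ≤ (K + 1) * e.size := Nat.mul_le_mul_left _ (by omega)
  have h4 : (K + 2) * (e.size + c.size) = (K + 1) * e.size + e.size + (K + 2) * c.size := by ring
  have h5 := e.one_le_size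
  omega

theorem red_eqT (B : List (List (ZMod p))) (v : List (ZMod p)) :
    redT p (lst (B.map vecT)) (vecT v) = vecT (red B v) := by
  induction B generalizing v with
  | nil => rfl
  | cons b B ih =>
    show foldT (redS p) T.nil (lst (B.map vecT)) (stpT p (vecT v) (vecT b)) = _
    rw [stp_eq]
    exact ih (stp v b)

theorem red_size_aux {K : ℕ} (hK : ∀ z, (suT p z).size ≤ K) (n m : ℕ) (hm : 1 + (K + 1) * n ≤ m) :
    ∀ B v : T, v.len ≤ n → v.size ≤ m → (redT p B v).size ≤ m
  | T.nil, v, _, h2 => h2
  | T.cons e B, v, h1, _ => by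
      have h3 := stp_size hK v e
      have h4 : (K + 1) * v.len ≤ (K + 1) * n := Nat.mul_le_mul_left _ h1
      exact red_size_aux hK n m hm B (stpT p v e) (by omega) (by omega)

theorem red_size (p : ℕ) [Fact p.Prime] : ∃ C : ℕ, ∀ B v : T, (redT p B v).size ≤ C * v.size := by
  obtain ⟨K, hK⟩ := exists_suK p
  refine ⟨K + 2, fun B v => ?_⟩
  refine red_size_aux hK v.len _ ?_ B v le_rfl ?_
  · have h1 := v.len_size
    have h3 : (K + 1) * v.len ≤ (K + 1) * v.size := Nat.mul_le_mul_left _ (by omega)
    have h4 : (K + 2) * v.size = (K + 1) * v.size + v.size := by ring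
    omega
  · exact Nat.le_mul_of_pos_left _ (by omega)

/-! ### test for zero -/

def isS (z : T) : T := if z.hd = T.nil then z.tl.hd else T.nil

def isZT (v : T) : T := foldT isS T.nil v tt

theorem isZ_pt {u : T → T} (hu : PT u) : PT fun x => isZT (u x) := by
  refine PT.fold (g := isS) (PT.hd0.ite PT.nil PT.tl0.hd) (Grw.of_lin 1 fun e a c => ?_) hu
    (PT.const tt) PT.nil
  show (if e = T.nil then a else T.nil).size ≤ _
  have h1 := a.one_le_size
  split_ifs
  · omega
  · rw [size_nil]
    omega

theorem isS_nil (l : T) : foldT isS T.nil l T.nil = T.nil := by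
  induction l with
  | nil => rfl
  | cons e l _ ih =>
    rw [foldT_cons]
    have h1 : isS (T.cons e (T.cons T.nil T.nil)) = T.nil := by
      show (if e = T.nil then T.nil else T.nil) = T.nil
      rw [ite_self]
    rw [h1]
    exact ih

theorem bit_true : bit true = tt := rfl

theorem bit_false : bit false = T.nil := rfl

theorem bit_nil {b : Bool} : bit b = T.nil ↔ b = false := by
  cases b
  · exact ⟨fun _ => rfl, fun _ => rfl⟩
  · exact ⟨fun h => absurd h tt_ne, fun h => by cases h⟩

theorem isZ_eqT (v : List (ZMod p)) : isZT (vecT v) = bit (isZ v) := by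
  unfold isZT
  induction v with
  | nil => rfl
  | cons a v ih =>
    rw [vecT_cons, foldT_cons]
    have h2 : isZ (a :: v) = (decide (a = 0) && isZ v) := rfl
    have h1 : isS (T.cons (fe a) (T.cons tt T.nil)) = if fe a = T.nil then tt else T.nil := rfl
    by_cases h : a = 0
    · rw [h1, if_pos (fe_eq_nil.2 h), ih, h2, decide_eq_true h, Bool.true_and]
    · rw [h1, if_neg fun h3 => h (fe_eq_nil.1 h3), isS_nil, h2, decide_eq_false h,
        Bool.false_and]
      rfl

/-! ### prediction -/

def notT (b : T) : T := if b = T.nil then tt else T.nil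

theorem notT_bit (b : Bool) : notT (bit b) = bit (!b) := by
  cases b <;> rfl

theorem notT_size (b : T) : (notT b).size ≤ 3 := by
  unfold notT
  split_ifs
  · exact le_rfl
  · rw [size_nil]
    omega

theorem not_pt {u : T → T} (hu : PT u) : PT fun x => notT (u x) := hu.ite PT.nil (PT.const tt)

noncomputable def clsS (p : ℕ) [Fact p.Prime] (z : T) : T :=
  if z.tl.hd.hd = T.nil then
    (if isZT (redT p z.hd z.tl.tl) = T.nil then T.cons tt z.tl.hd.tl
      else T.cons T.nil (notT z.tl.hd.tl))
  else z.tl.hd

theorem clsS_mk (e a c : T) : clsS p (T.cons e (T.cons a c)) =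
    if a.hd = T.nil then
      (if isZT (redT p e c) = T.nil then T.cons tt a.tl else T.cons T.nil (notT a.tl))
    else a := rfl

/-- prediction for the vector `v` with the state `L` -/
noncomputable def clsT (p : ℕ) [Fact p.Prime] (L v : T) : T :=
  (foldT (clsS p) v L (T.cons T.nil tt)).tl

theorem cls_pt {u v : T → T} (hu : PT u) (hv : PT v) : PT fun x => clsT p (u x) (v x) := by
  refine PT.tl (PT.fold (g := clsS p) ?_ (Grw.of_lin 3 fun e a c => ?_) hu (PT.const _) hv)
  · exact PT.tl0.hd.hd.ite PT.tl0.hd ((isZ_pt (red_pt PT.hd0 PT.tl0.tl)).ite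
      (PT.nil.cons (not_pt PT.tl0.hd.tl)) ((PT.const tt).cons PT.tl0.hd.tl))
  · rw [clsS_mk]
    have h1 := a.tl_size
    have h2 := e.one_le_size
    have h3 := c.one_le_size
    have h4 := notT_size a.tl
    have h5 : tt.size = 3 := rfl
    split_ifs
    · rw [size_cons]
      omega
    · rw [size_cons, size_nil]
      omega
    · omega

theorem cls_stop (v l b : T) : foldT (clsS p) v l (T.cons tt b) = T.cons tt b := by
  induction l with
  | nil => rfl
  | cons e l _ ih =>
    rw [foldT_cons, clsS_mk, hd_cons, if_neg tt_ne]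
    exact ih

/-- code of a basis -/
def basT (B : List (List (ZMod p))) : T := lst (B.map vecT)

/-- code of a state -/
def staT (L : List (List (List (ZMod p)))) : T := lst (L.map basT)

theorem cls_eqT (L : List (List (List (ZMod p)))) (b : Bool) (v : List (ZMod p)) :
    (foldT (clsS p) (vecT v) (staT L) (T.cons T.nil (bit b))).tl = bit (cls L b v) := by
  induction L generalizing b with
  | nil => rfl
  | cons B L ih =>
    show (foldT (clsS p) (vecT v) (staT L) (clsS p (T.cons (basT B) (T.cons (T.cons T.nil (bit b))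
      (vecT v))))).tl = bit (if isZ (red B v) then cls L (!b) v else b)
    rw [clsS_mk, hd_cons, if_pos rfl, tl_cons]
    have h1 : isZT (redT p (basT B) (vecT v)) = bit (isZ (red B v)) := by
      unfold basT
      rw [red_eqT, isZ_eqT]
    rw [h1]
    by_cases h : isZ (red B v) = true
    · rw [if_neg (by rw [h]; exact tt_ne), if_pos h, notT_bit]
      exact ih (!b)
    · rw [if_pos (bit_nil.2 (Bool.not_eq_true _ ▸ h)), if_neg h, cls_stop]
      rfl

end Few
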