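import Pool.Agent.Lib.MP_9abc2e_lc.FEW.TreeB

/-!
# FEW: the learner on trees, part C: update, passes, learner
-/

set_option autoImplicit false

namespace Few

variable {p : ℕ} [Fact p.Prime]

theorem hd_tl_size (x : T) : x.hd.size + x.tl.size ≤ x.size + 1 := by
  cases x with
  | nil =>
    show 1 + 1 ≤ 1 + 1
    omega
  | cons a b =>
    show a.size + b.size ≤ a.size + b.size + 1 + 1
    omega

/-- comparison of two labels -/
def eqT (b y : T) : T :=
  if b = T.nil then (if y = T.nil then tt else T.nil) else (if y = T.nil then T.nil else tt)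

theorem eqT_bit (b y : Bool) : eqT (bit b) (bit y) = bit (decide (b = y)) := by
  cases b <;> cases y <;> rfl

theorem eq_pt {u v : T → T} (hu : PT u) (hv : PT v) : PT fun x => eqT (u x) (v x) :=
  hu.ite (hv.ite (PT.const tt) PT.nil) (hv.ite PT.nil (PT.const tt))

/-! ### update -/

/-- the step; the accumulator is `(stopped?, label, output)`, the parameter is `(v, y)` -/
noncomputable def updS (p : ℕ) [Fact p.Prime] (z : T) : T :=
  if z.tl.hd.hd = T.nil then
    (if isZT (redT p z.hd z.tl.tl.hd) = T.nil then
      (if eqT z.tl.hd.tl.hd z.tl.tl.tl = T.nil then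
        T.cons tt (T.cons z.tl.hd.tl.hd
          (T.cons (snocT z.hd (redT p z.hd z.tl.tl.hd)) z.tl.hd.tl.tl))
      else T.cons tt (T.cons z.tl.hd.tl.hd (T.cons z.hd z.tl.hd.tl.tl)))
    else T.cons T.nil (T.cons (notT z.tl.hd.tl.hd) (T.cons z.hd z.tl.hd.tl.tl)))
  else T.cons tt (T.cons z.tl.hd.tl.hd (T.cons z.hd z.tl.hd.tl.tl))

theorem updS_mk (e a c : T) : updS p (T.cons e (T.cons a c)) =
    if a.hd = T.nil then
      (if isZT (redT p e c.hd) = T.nil then
        (if eqT a.tl.hd c.tl = T.nil then
          T.cons tt (T.cons a.tl.hd (T.cons (snocT e (redT p e c.hd)) a.tl.tl))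
        else T.cons tt (T.cons a.tl.hd (T.cons e a.tl.tl)))
      else T.cons T.nil (T.cons (notT a.tl.hd) (T.cons e a.tl.tl)))
    else T.cons tt (T.cons a.tl.hd (T.cons e a.tl.tl)) := rfl

theorem updS_pt : PT (updS p) := by
  have hr : PT fun z : T => redT p z.hd z.tl.tl.hd := red_pt PT.hd0 PT.tl0.tl.hd
  have h1 : PT fun z : T => T.cons tt (T.cons z.tl.hd.tl.hd (T.cons z.hd z.tl.hd.tl.tl)) :=
    (PT.const tt).cons (PT.tl0.hd.tl.hd.cons (PT.hd0.cons PT.tl0.hd.tl.tl))
  have h2 : PT fun z : T => T.cons tt (T.cons z.tl.hd.tl.hd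
      (T.cons (snocT z.hd (redT p z.hd z.tl.tl.hd)) z.tl.hd.tl.tl)) :=
    (PT.const tt).cons (PT.tl0.hd.tl.hd.cons ((snoc_pt PT.hd0 hr).cons PT.tl0.hd.tl.tl))
  have h3 : PT fun z : T => T.cons T.nil (T.cons (notT z.tl.hd.tl.hd)
      (T.cons z.hd z.tl.hd.tl.tl)) :=
    PT.nil.cons ((not_pt PT.tl0.hd.tl.hd).cons (PT.hd0.cons PT.tl0.hd.tl.tl))
  exact PT.tl0.hd.hd.ite h1 ((isZ_pt hr).ite h3 ((eq_pt PT.tl0.hd.tl.hd PT.tl0.tl.tl).ite h1 h2))

theorem updS_grw : Grw (updS p) := by
  obtain ⟨C, hC⟩ := red_size p
  refine Grw.of_lin (C + 10) fun e a c => ?_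
  rw [updS_mk]
  have h1 := hd_tl_size a.tl
  have h2 := a.tl_size
  have h3 := notT_size a.tl.hd
  have h4 : tt.size = 3 := rfl
  have h5 := e.one_le_size
  have h6 := c.one_le_size
  have h7 := hC e c.hd
  have h8 := snoc_size e (redT p e c.hd)
  have h9 : C * c.hd.size ≤ C * c.size := Nat.mul_le_mul_left _ c.hd_size
  have h10 : (C + 10) * (e.size + c.size) = C * c.size + C * e.size + 10 * (e.size + c.size) := by
    ring
  have h11 := a.tl.tl.one_le_size
  have h12 := a.tl.hd.one_le_size
  rw [h10]
  split_ifs
  · rw [size_cons, size_cons, size_cons]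
    omega
  · rw [size_cons, size_cons, size_cons]
    omega
  · rw [size_cons, size_cons, size_cons, size_nil]
    omega
  · rw [size_cons, size_cons, size_cons]
    omega

/-- the end of the update -/
def updF (v y s : T) : T :=
  if s.hd = T.nil then
    (if eqT s.tl.hd y = T.nil then revT (T.cons (T.cons v T.nil) s.tl.tl) else revT s.tl.tl)
  else revT s.tl.tl

/-- update of the state `L` by the example `(v, y)` -/
noncomputable def updT (p : ℕ) [Fact p.Prime] (L v y : T) : T :=
  updF v y (foldT (updS p) (T.cons v y) L (T.cons T.nil (T.cons tt T.nil)))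

theorem upd_pt {u v w : T → T} (hu : PT u) (hv : PT v) (hw : PT w) :
    PT fun x => updT p (u x) (v x) (w x) := by
  have hs : PT fun x => foldT (updS p) (T.cons (v x) (w x)) (u x)
      (T.cons T.nil (T.cons tt T.nil)) := PT.fold updS_pt updS_grw hu (PT.const _) (hv.cons hw)
  exact hs.hd.ite (rev_pt hs.tl.tl) ((eq_pt hs.tl.hd hw).ite (rev_pt hs.tl.tl)
    (rev_pt ((hv.cons PT.nil).cons hs.tl.tl)))

theorem upd_fold_size {Q : ℕ} {v y : T} (hQ : ∀ e, (redT p e v).size + 1 ≤ Q) : ∀ l s b o : T,
    ∃ s' b' o' : T, foldT (updS p) (T.cons v y) l (T.cons s (T.cons b o)) =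
      T.cons s' (T.cons b' o') ∧
      o'.size + 1 + (if s' = T.nil then Q else 0) ≤ o.size + l.size + (if s = T.nil then Q else 0)
  | T.nil, s, b, o => ⟨s, b, o, rfl, le_rfl⟩
  | T.cons e l, s, b, o => by
      rw [foldT_cons, updS_mk]
      have h0 := size_cons e o
      have h1 := size_cons e l
      rw [hd_cons]
      by_cases hs : s = T.nil
      · rw [if_pos hs]
        by_cases hz : isZT (redT p e (T.cons v y).hd) = T.nil
        · rw [if_pos hz]
          by_cases hy : eqT (T.cons s (T.cons b o)).tl.hd (T.cons v y).tl = T.nil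
          · rw [if_pos hy]
            obtain ⟨s', b', o', h2, h3⟩ := upd_fold_size hQ l tt b
              (T.cons (snocT e (redT p e v)) o)
            refine ⟨s', b', o', h2, ?_⟩
            rw [if_neg tt_ne, size_cons, snoc_size] at h3
            have h4 := hQ e
            rw [if_pos hs]
            omega
          · rw [if_neg hy]
            obtain ⟨s', b', o', h2, h3⟩ := upd_fold_size hQ l tt b (T.cons e o)
            refine ⟨s', b', o', h2, ?_⟩
            rw [if_neg tt_ne] at h3
            rw [if_pos hs]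
            omega
        · rw [if_neg hz]
          obtain ⟨s', b', o', h2, h3⟩ := upd_fold_size hQ l T.nil (notT b) (T.cons e o)
          refine ⟨s', b', o', h2, ?_⟩
          rw [if_pos rfl] at h3
          rw [if_pos hs]
          omega
      · rw [if_neg hs]
        obtain ⟨s', b', o', h2, h3⟩ := upd_fold_size hQ l tt b (T.cons e o)
        refine ⟨s', b', o', h2, ?_⟩
        rw [if_neg tt_ne] at h3
        rw [if_neg hs]
        omega

theorem upd_size (p : ℕ) [Fact p.Prime] : ∃ C : ℕ, ∀ L v y : T,
    (updT p L v y).size ≤ L.size + C * v.size := by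
  obtain ⟨C, hC⟩ := red_size p
  refine ⟨C + 4, fun L v y => ?_⟩
  obtain ⟨s, b, o, h1, h2⟩ := upd_fold_size (p := p) (Q := C * v.size + 1) (v := v) (y := y)
    (fun e => by
      have := hC e v
      omega) L T.nil tt T.nil
  unfold updT
  rw [h1]
  rw [if_pos rfl, size_nil] at h2
  have h3 := v.one_le_size
  have h4 : (C + 4) * v.size = C * v.size + 4 * v.size := by ring
  rw [h4]
  unfold updF
  rw [hd_cons, tl_cons, tl_cons, hd_cons]
  by_cases hs : s = T.nil
  · rw [if_pos hs]
    rw [if_pos hs] at h2
    split_ifs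
    · rw [rev_size, size_cons, size_cons, size_nil]
      omega
    · rw [rev_size]
      omega
  · rw [if_neg hs, rev_size]
    rw [if_neg hs] at h2
    omega

/-! ### correctness of the update -/

theorem upd_stop (c b : T) (l o : List T) :
    foldT (updS p) c (lst l) (T.cons tt (T.cons b (lst o))) =
      T.cons tt (T.cons b (lst (l.reverse ++ o))) := by
  induction l generalizing o with
  | nil => rfl
  | cons e l ih =>
    show foldT (updS p) c (lst l) (updS p (T.cons e (T.cons (T.cons tt (T.cons b (lst o))) c))) = _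
    rw [updS_mk, hd_cons, if_neg tt_ne, List.reverse_cons, List.append_assoc]
    exact ih (e :: o)

theorem updF_stop (v y b : T) (l : List T) :
    updF v y (T.cons tt (T.cons b (lst l))) = lst l.reverse := by
  unfold updF
  rw [hd_cons, if_neg tt_ne]
  exact rev_eq l

theorem upd_eq_aux (L : List (List (List (ZMod p)))) (b y : Bool) (v : List (ZMod p))
    (o : List T) :
    updF (vecT v) (bit y) (foldT (updS p) (T.cons (vecT v) (bit y)) (staT L)
      (T.cons T.nil (T.cons (bit b) (lst o)))) = lst (o.reverse ++ (upd L b v y).map basT) := by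
  induction L generalizing b o with
  | nil =>
    show updF (vecT v) (bit y) (T.cons T.nil (T.cons (bit b) (lst o))) =
      lst (o.reverse ++ (if b = y then [] else [[v]]).map basT)
    unfold updF
    rw [hd_cons, if_pos rfl, tl_cons, hd_cons, tl_cons, eqT_bit]
    by_cases h : b = y
    · rw [if_neg (by rw [decide_eq_true h]; exact tt_ne), if_pos h, rev_eq]
      rw [List.map_nil, List.append_nil]
    · rw [if_pos (bit_nil.2 (decide_eq_false h)), if_neg h]
      have h1 := rev_eq (T.cons (vecT v) T.nil :: o)
      rw [List.reverse_cons] at h1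
      exact h1
  | cons B L ih =>
    show updF (vecT v) (bit y) (foldT (updS p) (T.cons (vecT v) (bit y)) (staT L)
      (updS p (T.cons (basT B) (T.cons (T.cons T.nil (T.cons (bit b) (lst o)))
        (T.cons (vecT v) (bit y)))))) =
      lst (o.reverse ++ (if isZ (red B v) then B :: upd L (!b) v y
        else if b = y then B :: L else (B ++ [red B v]) :: L).map basT)
    have h1 : redT p (basT B) (vecT v) = vecT (red B v) := red_eqT B v
    rw [updS_mk, hd_cons, if_pos rfl, hd_cons, tl_cons, hd_cons, tl_cons, tl_cons, h1, isZ_eqT]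
    by_cases h : isZ (red B v) = true
    · rw [if_neg (by rw [h]; exact tt_ne), if_pos h, notT_bit]
      have h2 := ih (!b) (basT B :: o)
      rw [List.reverse_cons, List.append_assoc] at h2
      exact h2
    · rw [if_pos (bit_nil.2 (Bool.not_eq_true _ ▸ h)), if_neg h, eqT_bit]
      by_cases hy : b = y
      · rw [if_neg (by rw [decide_eq_true hy]; exact tt_ne), if_pos hy]
        have h2 := upd_stop (p := p) (T.cons (vecT v) (bit y)) (bit b) (L.map basT) (basT B :: o)
        have h3 : T.cons (basT B) (lst o) = lst (basT B :: o) := rfl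
        rw [h3]
        unfold staT
        rw [h2, updF_stop, List.reverse_append, List.reverse_cons, List.reverse_reverse,
          List.append_assoc]
        rfl
      · rw [if_pos (bit_nil.2 (decide_eq_false hy)), if_neg hy]
        have h4 : snocT (basT B) (vecT (red B v)) = basT (B ++ [red B v]) := by
          unfold basT
          rw [snoc_eq, List.map_append]
          rfl
        rw [h4]
        have h2 := upd_stop (p := p) (T.cons (vecT v) (bit y)) (bit b) (L.map basT)
          (basT (B ++ [red B v]) :: o)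
        have h3 : T.cons (basT (B ++ [red B v])) (lst o) = lst (basT (B ++ [red B v]) :: o) := rfl
        rw [h3]
        unfold staT
        rw [h2, updF_stop, List.reverse_append, List.reverse_cons, List.reverse_reverse,
          List.append_assoc]
        rfl

theorem upd_eqT (L : List (List (List (ZMod p)))) (v : List (ZMod p)) (y : Bool) :
    updT p (staT L) (vecT v) (bit y) = staT (upd L true v y) :=
  upd_eq_aux L true y v []

/-! ### passes -/

noncomputable def passS (p : ℕ) [Fact p.Prime] (z : T) : T := updT p z.tl.hd z.hd.hd z.hd.tl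

noncomputable def passT (p : ℕ) [Fact p.Prime] (S L : T) : T := foldT (passS p) T.nil S L

theorem passS_size (p : ℕ) [Fact p.Prime] : ∃ C : ℕ, ∀ e a c : T,
    (passS p (T.cons e (T.cons a c))).size ≤ a.size + C * (e.size + c.size) ^ 1 := by
  obtain ⟨C, hC⟩ := upd_size p
  refine ⟨C, fun e a c => ?_⟩
  have h1 := hC a e.hd e.tl
  have h2 : C * e.hd.size ≤ C * (e.size + c.size) :=
    Nat.mul_le_mul_left _ (e.hd_size.trans (Nat.le_add_right _ _))
  show (updT p a e.hd e.tl).size ≤ _
  rw [pow_one]
  omega

theorem pass_pt {u v : T → T} (hu : PT u) (hv : PT v) : PT fun x => passT p (u x) (v x) := by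
  obtain ⟨C, hC⟩ := passS_size p
  exact PT.fold (g := passS p) (upd_pt PT.tl0.hd PT.hd0.hd PT.hd0.tl) ⟨C, 1, hC⟩ hu hv PT.nil

/-- code of a sample -/
def samT (S : List (List (ZMod p) × Bool)) : T := lst (S.map fun a => T.cons (vecT a.1) (bit a.2))

theorem pass_eqT (S : List (List (ZMod p) × Bool)) (L : List (List (List (ZMod p)))) :
    passT p (samT S) (staT L) = staT (pass S L) := by
  induction S generalizing L with
  | nil => rfl
  | cons a S ih =>
    show foldT (passS p) T.nil (samT S) (updT p (staT L) (vecT a.1) (bit a.2)) = _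
    rw [upd_eqT]
    exact ih (upd L true a.1 a.2)

/-! ### the learner -/

noncomputable def learnS (p : ℕ) [Fact p.Prime] (z : T) : T := passT p z.tl.tl z.tl.hd

noncomputable def learnT (p : ℕ) [Fact p.Prime] (S : T) : T := foldT (learnS p) S S T.nil

theorem learn_pt {u : T → T} (hu : PT u) : PT fun x => learnT p (u x) := by
  obtain ⟨C, hC⟩ := passS_size p
  refine PT.fold (g := learnS p) (pass_pt PT.tl0.tl PT.tl0.hd) ⟨2 * C, 2, fun e a c => ?_⟩ hu
    PT.nil hu
  have h1 := fold_size hC T.nil c.size c a le_rfl
  show (foldT (passS p) T.nil c a).size ≤ _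
  refine h1.trans (Nat.add_le_add_left ?_ _)
  rw [size_nil, pow_one]
  have h2 := c.one_le_size
  have h3 : c.size + 1 ≤ 2 * c.size := by omega
  calc c.size * (C * (c.size + 1)) ≤ c.size * (C * (2 * c.size)) := by gcongr
    _ = 2 * C * c.size ^ 2 := by ring
    _ ≤ 2 * C * (e.size + c.size) ^ 2 := by
      gcongr
      omega

theorem learn_eqT (S : List (List (ZMod p) × Bool)) : learnT p (samT S) = staT (learn S) := by
  have h : ∀ (l : List T) (L : List (List (List (ZMod p)))),
      foldT (learnS p) (samT S) (lst l) (staT L) = staT ((pass S)^[l.length] L) := by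
    intro l
    induction l with
    | nil => intro L; rfl
    | cons e l ih =>
      intro L
      show foldT (learnS p) (samT S) (lst l) (passT p (samT S) (staT L)) = _
      rw [pass_eqT, ih, List.length_cons, Function.iterate_succ_apply]
  have h1 := h (S.map fun a => T.cons (vecT a.1) (bit a.2)) []
  rw [List.length_map] at h1
  exact h1

end Few
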