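import Pool.Agent.Lib.MP_9abc2e_lc.FEW.TreeC
import Pool.Agent.Lib.MP_9abc2e_lc.FEW.Feat

/-!
# FEW: the learner on trees, part D: features

The features are computed up to a cap: a list `cap` whose length bounds the number of features (in the
applications the sample itself), so that the running time is polynomial for all inputs.
-/

set_option autoImplicit false

namespace Few

variable {p : ℕ} [Fact p.Prime]

/-- `a = (output, remaining cap)`; write the entry `e` to the output if the cap is not used up -/
noncomputable def pushT (p : ℕ) [Fact p.Prime] (a e : T) : T :=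
  if a.tl = T.nil then a else T.cons (T.cons (noT p e) a.hd) a.tl.tl

theorem push_pt {u v : T → T} (hu : PT u) (hv : PT v) : PT fun x => pushT p (u x) (v x) :=
  hu.tl.ite ((((tab_pt _ _).comp hv).cons hu.hd).cons hu.tl.tl) hu

theorem exists_noK (p : ℕ) [Fact p.Prime] : ∃ K : ℕ, ∀ z, (noT p z).size ≤ K :=
  tab_size (fe (p := p)) fe

theorem push_size {K : ℕ} (hK : ∀ z, (noT p z).size ≤ K) (a e : T) :
    (pushT p a e).size ≤ a.size + (K + 2) := by
  unfold pushT
  split_ifs with h
  · omega
  · have h6 : a = T.cons a.hd a.tl := T.eta fun h7 => h (by rw [h7]; rfl)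
    have h7 : a.size = a.hd.size + a.tl.size + 1 := by
      conv_lhs => rw [h6]
      rw [size_cons]
    rw [size_cons, size_cons]
    have h1 := a.tl.tl_size
    have h2 := hK e
    omega

/-- a potential function for the size of the output -/
def pot (K : ℕ) (a : T) : ℕ := a.hd.size + (K + 1) * a.tl.len

theorem push_pot {K : ℕ} (hK : ∀ z, (noT p z).size ≤ K) (a e : T) :
    pot K (pushT p a e) ≤ pot K a := by
  unfold pushT
  split_ifs with h
  · exact le_rfl
  · have h6 : a.tl = T.cons a.tl.hd a.tl.tl := T.eta h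
    have h7 : a.tl.len = a.tl.tl.len + 1 := by
      conv_lhs => rw [h6]
      rfl
    unfold pot
    rw [hd_cons, tl_cons, size_cons, h7, mul_add]
    have h2 := hK e
    omega

theorem fold_pot {K : ℕ} {g : T → T}
    (hg : ∀ e a c : T, pot K (g (T.cons e (T.cons a c))) ≤ pot K a) (c : T) :
    ∀ l a : T, pot K (foldT g c l a) ≤ pot K a
  | T.nil, _ => le_rfl
  | T.cons e l, a => (fold_pot hg c l _).trans (hg e a c)

noncomputable def bitS (p : ℕ) [Fact p.Prime] (z : T) : T :=
  pushT p z.tl.hd (if z.hd = T.nil then T.nil else z.tl.tl)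

noncomputable def blkS (p : ℕ) [Fact p.Prime] (z : T) : T :=
  foldT (bitS p) z.hd z.tl.tl (pushT p z.tl.hd z.hd)

noncomputable def extT (p : ℕ) [Fact p.Prime] (cap x l : T) : T :=
  revT (foldT (blkS p) x l (T.cons T.nil cap)).hd

noncomputable def extS (p : ℕ) [Fact p.Prime] (z : T) : T := extT p z.tl.tl.hd z.tl.tl.tl z.tl.hd

noncomputable def featT (p : ℕ) [Fact p.Prime] (cap D x : T) : T :=
  foldT (extS p) (T.cons cap x) D (vecT [(1 : ZMod p)])

theorem bitS_pt : PT (bitS p) := push_pt PT.tl0.hd (PT.hd0.ite PT.tl0.tl PT.nil)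

theorem bitS_size {K : ℕ} (hK : ∀ z, (noT p z).size ≤ K) (e a c : T) :
    (bitS p (T.cons e (T.cons a c))).size ≤ a.size + (K + 2) * (e.size + c.size) ^ 1 := by
  have h1 := push_size hK a (if e = T.nil then T.nil else c)
  have h2 := e.one_le_size
  have h3 : K + 2 ≤ (K + 2) * (e.size + c.size) := Nat.le_mul_of_pos_right _ (by omega)
  rw [pow_one]
  exact h1.trans (Nat.add_le_add_left h3 _)

theorem blkS_pt : PT (blkS p) := by
  obtain ⟨K, hK⟩ := exists_noK p
  exact PT.fold bitS_pt ⟨K + 2, 1, bitS_size hK⟩ PT.tl0.tl (push_pt PT.tl0.hd PT.hd0) PT.hd0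

theorem blkS_grw : Grw (blkS p) := by
  obtain ⟨K, hK⟩ := exists_noK p
  refine ⟨2 * (K + 2), 2, fun e a c => ?_⟩
  have h1 := fold_size (bitS_size hK) e c.size c (pushT p a e) le_rfl
  have h2 := push_size hK a e
  have h3 := e.one_le_size
  show (foldT (bitS p) e c (pushT p a e)).size ≤ _
  refine h1.trans ?_
  rw [pow_one]
  have h4 : c.size * ((K + 2) * (c.size + e.size)) ≤
      (e.size + c.size) * ((K + 2) * (e.size + c.size)) := by
    rw [add_comm c.size e.size]
    gcongr
    omega
  have h5 : K + 2 ≤ (e.size + c.size) * ((K + 2) * (e.size + c.size)) := by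
    calc K + 2 = 1 * ((K + 2) * 1) := by ring
      _ ≤ (e.size + c.size) * ((K + 2) * (e.size + c.size)) := by
        gcongr <;> omega
  have h6 : 2 * (K + 2) * (e.size + c.size) ^ 2 =
      (e.size + c.size) * ((K + 2) * (e.size + c.size)) +
      (e.size + c.size) * ((K + 2) * (e.size + c.size)) := by ring
  rw [h6]
  omega

theorem ext_pt {u v w : T → T} (hu : PT u) (hv : PT v) (hw : PT w) :
    PT fun x => extT p (u x) (v x) (w x) :=
  rev_pt (PT.hd (PT.fold blkS_pt blkS_grw hw (PT.nil.cons hu) hv))

theorem blkS_pot {K : ℕ} (hK : ∀ z, (noT p z).size ≤ K) (e a c : T) :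
    pot K (blkS p (T.cons e (T.cons a c))) ≤ pot K a :=
  (fold_pot (g := bitS p) (fun _ a _ => push_pot hK a _) e c (pushT p a e)).trans
    (push_pot hK a e)

theorem ext_size (p : ℕ) [Fact p.Prime] : ∃ C : ℕ, ∀ cap x l : T,
    (extT p cap x l).size ≤ C * cap.size := by
  obtain ⟨K, hK⟩ := exists_noK p
  refine ⟨K + 2, fun cap x l => ?_⟩
  have h1 := fold_pot (blkS_pot hK) x l (T.cons T.nil cap)
  unfold extT
  rw [rev_size]
  unfold pot at h1
  rw [hd_cons, tl_cons, size_nil] at h1
  have h2 := cap.len_size
  have h3 : (K + 1) * cap.len ≤ (K + 1) * cap.size := Nat.mul_le_mul_left _ (by omega)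
  have h4 : (K + 2) * cap.size = (K + 1) * cap.size + cap.size := by ring
  omega

theorem extS_pt : PT (extS p) := ext_pt PT.tl0.tl.hd PT.tl0.tl.tl PT.tl0.hd

theorem feat_pt {u v w : T → T} (hu : PT u) (hv : PT v) (hw : PT w) :
    PT fun x => featT p (u x) (v x) (w x) := by
  obtain ⟨C, hC⟩ := ext_size p
  refine PT.fold extS_pt (Grw.of_lin C fun e a c => ?_) hv (PT.const _) (hu.cons hw)
  have h1 := hC c.hd c.tl a
  have h2 : C * c.hd.size ≤ C * (e.size + c.size) :=
    Nat.mul_le_mul_left _ (c.hd_size.trans (Nat.le_add_left _ _))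
  show (extT p c.hd c.tl a).size ≤ _
  omega

theorem feat_size_aux {C : ℕ} (hC : ∀ cap x l : T, (extT p cap x l).size ≤ C * cap.size)
    (cap x : T) (m : ℕ) (hm : C * cap.size ≤ m) : ∀ D a : T, a.size ≤ m →
    (foldT (extS p) (T.cons cap x) D a).size ≤ m
  | T.nil, _, h => h
  | T.cons _ D, a, _ => feat_size_aux hC cap x m hm D _ ((hC cap x a).trans hm)

theorem feat_size (p : ℕ) [Fact p.Prime] : ∃ C : ℕ, ∀ cap D x : T,
    (featT p cap D x).size ≤ C * cap.size := by
  obtain ⟨C, hC⟩ := ext_size p
  refine ⟨C + (vecT [(1 : ZMod p)]).size, fun cap D x => ?_⟩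
  have h1 := cap.one_le_size
  refine feat_size_aux hC cap x _ (Nat.mul_le_mul_right _ (Nat.le_add_right _ _)) D _ ?_
  calc (vecT [(1 : ZMod p)]).size = (vecT [(1 : ZMod p)]).size * 1 := (mul_one _).symm
    _ ≤ (C + (vecT [(1 : ZMod p)]).size) * cap.size := Nat.mul_le_mul (Nat.le_add_left _ _) h1

/-! ### correctness -/

/-- drop `k` elements -/
def T.drop (k : ℕ) (r : T) : T := T.tl^[k] r

theorem T.len_tl (r : T) : r.tl.len = r.len - 1 := by
  cases r <;> rfl

theorem T.len_drop (k : ℕ) (r : T) : (r.drop k).len = r.len - k := by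
  induction k generalizing r with
  | zero => rfl
  | succ k ih =>
    show (T.drop k r.tl).len = _
    rw [ih, T.len_tl]
    omega

theorem T.drop_drop (j k : ℕ) (r : T) : T.drop k (T.drop j r) = T.drop (j + k) r := by
  unfold T.drop
  rw [add_comm, Function.iterate_add_apply]

theorem T.ne_nil_of_len {r : T} (h : 1 ≤ r.len) : r ≠ T.nil := by
  intro h1
  rw [h1] at h
  exact absurd h (by decide)

theorem push_eq (o : List T) {r : T} (hr : 1 ≤ r.len) (a : ZMod p) :
    pushT p (T.cons (lst o) r) (fe a) = T.cons (lst (fe a :: o)) (r.drop 1) := by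
  unfold pushT
  rw [tl_cons, if_neg (T.ne_nil_of_len hr), noT_eq]
  rfl

/-- code of a bit string -/
def strT (x : List Bool) : T := lst (x.map bit)

theorem bit_lst (a : ZMod p) (x : List Bool) (o : List T) (r : T) (hr : x.length ≤ r.len) :
    foldT (bitS p) (fe a) (strT x) (T.cons (lst o) r) =
      T.cons (lst (((x.map fun b => if b then a else 0).map fe).reverse ++ o))
        (r.drop x.length) := by
  induction x generalizing o r with
  | nil => rfl
  | cons b x ih =>
    rw [List.length_cons] at hr
    have h1 : bitS p (T.cons (bit b) (T.cons (T.cons (lst o) r) (fe a))) =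
        T.cons (lst (fe (if b then a else 0) :: o)) (r.drop 1) := by
      have h2 : (if bit b = T.nil then T.nil else fe a) = fe (if b then a else 0) := by
        cases b
        · rw [if_pos (bit_nil.2 rfl), if_neg Bool.false_ne_true, fe_zero]
        · rw [if_neg (show bit true ≠ T.nil from tt_ne), if_pos rfl]
      show pushT p (T.cons (lst o) r) (if bit b = T.nil then T.nil else fe a) = _
      rw [h2, push_eq o (by omega)]
    show foldT (bitS p) (fe a) (strT x) (bitS p (T.cons (bit b) (T.cons (T.cons (lst o) r)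
      (fe a)))) = _
    rw [h1, ih _ _ (by rw [T.len_drop]; omega), T.drop_drop, List.map_cons, List.map_cons,
      List.reverse_cons, List.append_assoc, List.length_cons, add_comm 1]
    rfl

theorem blk_lst (x : List Bool) (l : List (ZMod p)) (o : List T) (r : T)
    (hr : (x.length + 1) * l.length ≤ r.len) :
    foldT (blkS p) (strT x) (vecT l) (T.cons (lst o) r) =
      T.cons (lst (((ext x l).map fe).reverse ++ o)) (r.drop ((x.length + 1) * l.length)) := by
  induction l generalizing o r with
  | nil => rfl
  | cons a l ih =>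
    rw [List.length_cons, mul_add, mul_one] at hr
    have h1 : blkS p (T.cons (fe a) (T.cons (T.cons (lst o) r) (strT x))) =
        T.cons (lst (((blk x a).map fe).reverse ++ o)) (r.drop (x.length + 1)) := by
      show foldT (bitS p) (fe a) (strT x) (pushT p (T.cons (lst o) r) (fe a)) = _
      rw [push_eq o (by omega), bit_lst _ _ _ _ (by rw [T.len_drop]; omega), T.drop_drop]
      unfold blk
      rw [List.map_cons, List.reverse_cons, List.append_assoc, add_comm 1]
      rfl
    show foldT (blkS p) (strT x) (vecT l) (blkS p (T.cons (fe a) (T.cons (T.cons (lst o) r)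
      (strT x)))) = _
    have h2 : ext x (a :: l) = blk x a ++ ext x l := List.flatMap_cons
    rw [h1, ih _ _ (by rw [T.len_drop]; omega), T.drop_drop, h2, List.map_append,
      List.reverse_append, List.append_assoc, List.length_cons, mul_add, mul_one, add_comm (x.length + 1)]

theorem ext_eqT (cap : T) (x : List Bool) (l : List (ZMod p))
    (h : (x.length + 1) * l.length ≤ cap.len) :
    extT p cap (strT x) (vecT l) = vecT (ext x l) := by
  unfold extT
  have h1 := blk_lst x l [] cap h
  have h2 : lst ([] : List T) = T.nil := rfl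
  rw [h2, List.append_nil] at h1
  rw [h1, hd_cons, rev_eq, List.reverse_reverse]
  rfl

theorem feat_eq_aux (cap : T) (x : List Bool) (D : ℕ) (l : List (ZMod p))
    (h : (x.length + 1) ^ D * l.length ≤ cap.len) :
    foldT (extS p) (T.cons cap (strT x)) (unary D) (vecT l) = vecT ((ext x)^[D] l) := by
  induction D generalizing l with
  | zero => rfl
  | succ D ih =>
    rw [pow_succ, mul_assoc] at h
    have h1 : (x.length + 1) * l.length ≤ cap.len := by
      refine le_trans ?_ h
      exact Nat.le_mul_of_pos_left _ (Nat.pow_pos (Nat.succ_pos _))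
    show foldT (extS p) (T.cons cap (strT x)) (unary D) (extT p cap (strT x) (vecT l)) = _
    rw [ext_eqT cap x l h1, ih _ (by rw [ext_length, mul_comm l.length]; exact h),
      Function.iterate_succ_apply]

theorem feat_eqT (cap : T) (x : List Bool) (D : ℕ) (h : (x.length + 1) ^ D ≤ cap.len) :
    featT p cap (unary D) (strT x) = vecT (feat p x D) :=
  feat_eq_aux cap x D [1] (by rw [List.length_singleton, mul_one]; exact h)

end Few
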